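import Pool.Agent.H942.DP.Chart

set_option autoImplicit false

/-! The weight near a product of two coprime polynomials. -/

namespace Pool.Agent.H942.DP

open MeasureTheory Metric Set Polynomial Topology Filter

theorem continuous_resultant {T k : Type*} [TopologicalSpace T] [CommRing k] [TopologicalSpace k]
    [IsTopologicalRing k] {f g : T → k[X]} (hf : ∀ i, Continuous fun t => (f t).coeff i)
    (hg : ∀ i, Continuous fun t => (g t).coeff i) (m n : ℕ) :
    Continuous fun t => resultant (f t) (g t) m n := by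
  unfold resultant
  refine Continuous.matrix_det (continuous_matrix fun i j => ?_)
  induction j using Fin.addCases with
  | left j =>
    simp only [sylvester, Matrix.of_apply, Fin.addCases_left]
    split_ifs
    · exact hg _
    · exact continuous_const
  | right j =>
    simp only [sylvester, Matrix.of_apply, Fin.addCases_right]
    split_ifs
    · exact hf _
    · exact continuous_const

theorem degree_mp_mul_lp {k : Type*} [Field k] {m l : ℕ} (x : Fin m → k) (y : Fin l → k) :
    (mp x * lp y).degree < ((m + l : ℕ) : WithBot ℕ) := by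
  rw [degree_mul, degree_eq_natDegree (mp_monic x).ne_zero, mp_natDegree]
  push_cast
  exact WithBot.add_lt_add_of_le_of_lt (by simp) le_rfl (lp_degree y)

theorem eq_zero_of_dvd_lp {k : Type*} [Field k] {m : ℕ} {x y : Fin m → k} (h : mp x ∣ lp y) :
    y = 0 := by
  apply lp_eq_zero
  refine eq_zero_of_dvd_of_degree_lt h ?_
  rw [degree_eq_natDegree (mp_monic x).ne_zero, mp_natDegree]
  exact lp_degree y

theorem mp_of_values {k : Type*} [Field k] [CharZero k] {n : ℕ} {y : Fin n → k} {h : k[X]}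
    (hm : h.Monic) (hn : h.natDegree = n)
    (hv : ∀ j : Fin n, (mp y).eval ((j : ℕ) : k) = h.eval ((j : ℕ) : k)) : mp y = h := by
  obtain ⟨z, hz, -⟩ := exists_mp hm hn
  rw [← hz]
  rw [← hz] at hv
  refine eq_of_values (n := n) ?_ hv
  rw [mp_sub]
  exact lp_degree _

variable {p : ℕ} [hp : Fact p.Prime] {A : ℕ → ℕ → Prop}

/-- The polynomial over the algebraic closure of `ℚ_p`. -/
noncomputable def toOm (p : ℕ) [Fact p.Prime] (P : ℤ[X]) : (PadicAlgCl p)[X] :=
  P.map (Int.castRingHom (PadicAlgCl p))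

/-- The series of all compact open sets of integral polynomials of degree `n` are rational. -/
def Good (p : ℕ) [Fact p.Prime] (A : ℕ → ℕ → Prop) (a : ℕ) (P : ℤ[X]) (n : ℕ) : Prop :=
  ∀ (K : IntermediateField ℚ_[p] (PadicAlgCl p)) [FiniteDimensional ℚ_[p] K]
    (V : Set (Fin n → K)), V ⊆ closedBall 0 1 → KO V →
    Rat p A (ser p (wt a K n (toOm p P)) V)

theorem ultrametric_prod (E F : Type*) [MetricSpace E] [MetricSpace F] [IsUltrametricDist E]
    [IsUltrametricDist F] : IsUltrametricDist (E × F) := by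
  refine ⟨fun x y z => ?_⟩
  simp only [Prod.dist_eq]
  have h1 := dist_triangle_max x.1 y.1 z.1
  have h2 := dist_triangle_max x.2 y.2 z.2
  refine max_le (h1.trans ?_) (h2.trans ?_)
  · exact max_le_max (le_max_left _ _) (le_max_left _ _)
  · exact max_le_max (le_max_right _ _) (le_max_right _ _)

omit hp in
theorem Adm.prod {E F : Type*} [NormedAddCommGroup E] [NormedAddCommGroup F] {w1 : E → ℝ}
    {w2 : F → ℝ} {V : Set E} {W : Set F} (h1 : Adm p w1 V) (h2 : Adm p w2 W) :
    Adm p (fun x : E × F => w1 x.1 * w2 x.2) (V ×ˢ W) := by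
  refine ⟨(h1.1.comp continuous_fst).mul (h2.1.comp continuous_snd), fun x hx => ?_⟩
  rcases h1.2 x.1 hx.1 with h | ⟨i, hi⟩
  · left
    simp only [h, zero_mul]
  rcases h2.2 x.2 hx.2 with h | ⟨j, hj⟩
  · left
    simp only [h, mul_zero]
  right
  refine ⟨i + j, ?_⟩
  simp only [hi, hj, pow_add, mul_inv]

theorem lg_mul {K : IntermediateField ℚ_[p] (PadicAlgCl p)} [FiniteDimensional ℚ_[p] K]
    {a m l : ℕ} {P : ℤ[X]} (hm : Good p A a P m) (hl : Good p A a P l) {x0 : Fin m → K}
    {y0 : Fin l → K} (hx0 : x0 ∈ closedBall (0 : Fin m → K) 1)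
    (hy0 : y0 ∈ closedBall (0 : Fin l → K) 1) (hc : IsCoprime (mp x0) (mp y0))
    {z0 : Fin (m + l) → K} (hz0 : mp z0 = mp x0 * mp y0) :
    LG p A (wt a K (m + l) (toOm p P)) z0 := by
  have : IsUltrametricDist ((Fin m → K) × (Fin l → K)) := ultrametric_prod _ _
  set f : (Fin m → K) × (Fin l → K) → PadicAlgCl p := fun x =>
    rr m (up x.1) (up x.2) * rr l (up x.2) (up x.1) with hf
  have hfc : Continuous f := by
    have h1 : ∀ i, Continuous fun x : (Fin m → K) × (Fin l → K) => (up x.1).coeff i := fun i =>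
      (continuous_coeff i).comp continuous_fst
    have h2 : ∀ i, Continuous fun x : (Fin m → K) × (Fin l → K) => (up x.2).coeff i := fun i =>
      (continuous_coeff i).comp continuous_snd
    have e : f = fun x => resultant (up x.1) (up x.2) m l * resultant (up x.2) (up x.1) l m := by
      funext x
      rw [hf]
      simp only [rr, up_natDegree]
    rw [e]
    exact (continuous_resultant h1 h2 m l).mul (continuous_resultant h2 h1 l m)
  have hcO : IsCoprime (up x0) (up y0) := by
    rw [up_eq, up_eq]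
    exact hc.map (mapRingHom (algebraMap K (PadicAlgCl p)))
  have hf0 : f (x0, y0) ≠ 0 :=
    mul_ne_zero (rr_ne_zero (up_natDegree x0) hcO) (rr_ne_zero (up_natDegree y0) hcO.symm)
  have hf1 : ‖f (x0, y0)‖ ≤ 1 := by
    rw [hf, norm_mul]
    exact mul_le_one₀ (norm_rr_le (int1_up.mpr hx0) (int1_up.mpr hy0) m) (norm_nonneg _)
      (norm_rr_le (int1_up.mpr hy0) (int1_up.mpr hx0) l)
  set U : Set ((Fin m → K) × (Fin l → K)) :=
    (closedBall (0 : Fin m → K) 1 ×ˢ closedBall (0 : Fin l → K) 1) ∩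
      {x | ‖f x‖ = ‖f (x0, y0)‖} with hU
  have hUB : U ⊆ closedBall (0 : Fin m → K) 1 ×ˢ closedBall (0 : Fin l → K) 1 :=
    inter_subset_left
  have hUn : U ∈ 𝓝 (x0, y0) := by
    refine inter_mem ?_ (norm_eventually hfc.continuousAt hf0)
    exact prod_mem_nhds ((IsUltrametricDist.isOpen_closedBall _ one_ne_zero).mem_nhds hx0)
      ((IsUltrametricDist.isOpen_closedBall _ one_ne_zero).mem_nhds hy0)
  set v' : ((Fin m → K) × (Fin l → K)) →L[ℚ_[p]] (Fin (m + l) → K) :=
    ContinuousLinearMap.pi fun j => (mp x0).eval ((j : ℕ) : K) •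
      (evL l ((j : ℕ) : K) ∘L ContinuousLinearMap.snd ℚ_[p] (Fin m → K) (Fin l → K)) +
      (mp y0).eval ((j : ℕ) : K) •
      (evL m ((j : ℕ) : K) ∘L ContinuousLinearMap.fst ℚ_[p] (Fin m → K) (Fin l → K)) with hv'
  have hadmP : ∀ n : ℕ, Adm p (wt a K n (toOm p P)) (closedBall 0 1) := fun n =>
    adm_wt a K n P
  refine lg_values (K := K) (n := m + l) (E := (Fin m → K) × (Fin l → K))
    (v := fun x j => (mp x.1).eval ((j : ℕ) : K) * (mp x.2).eval ((j : ℕ) : K)) (v' := v')
    (x0 := (x0, y0)) (w' := fun x => wt a K m (toOm p P) x.1 * wt a K l (toOm p P) x.2)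
    (κ := ‖f (x0, y0)‖ ^ (a * Module.finrank ℚ_[p] K)) ?_ ?_ ?_ ?_ ?_ ?_ hUn ?_ (hadmP _) ?_ ?_
  · rw [hasStrictFDerivAt_pi']
    intro j
    have h1 := ((strict_eval m ((j : ℕ) : K) x0).comp (x0, y0)
      (ContinuousLinearMap.fst ℚ_[p] (Fin m → K) (Fin l → K)).hasStrictFDerivAt)
    have h2 := ((strict_eval l ((j : ℕ) : K) y0).comp (x0, y0)
      (ContinuousLinearMap.snd ℚ_[p] (Fin m → K) (Fin l → K)).hasStrictFDerivAt)
    exact h1.mul h2
  · intro h hh
    have h1 : mp x0 * lp h.2 + mp y0 * lp h.1 = 0 := by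
      refine eq_of_values (n := m + l) ?_ fun j => ?_
      · rw [sub_zero]
        refine (degree_add_le _ _).trans_lt (max_lt (degree_mp_mul_lp x0 h.2) ?_)
        rw [add_comm m l]
        exact degree_mp_mul_lp y0 h.1
      · rw [eval_zero, eval_add, eval_mul, eval_mul]
        exact congrFun hh j
    have h2 : mp x0 ∣ lp h.1 := by
      refine hc.dvd_of_dvd_mul_left ?_
      exact ⟨-lp h.2, by linear_combination h1⟩
    have h3 : mp y0 ∣ lp h.2 := by
      refine hc.symm.dvd_of_dvd_mul_left ?_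
      exact ⟨-lp h.1, by linear_combination h1⟩
    exact Prod.ext (eq_zero_of_dvd_lp h2) (eq_zero_of_dvd_lp h3)
  · rw [Module.finrank_prod]
    simp only [Module.finrank_pi_fintype, Finset.sum_const, Finset.card_univ, Fintype.card_fin,
      smul_eq_mul]
    ring
  · intro j
    rw [hz0, eval_mul]
  · exact pow_pos (norm_pos_iff.mpr hf0) _
  · exact pow_le_one₀ (norm_nonneg _) hf1
  · intro x hx y hy
    have h1 : mp y = mp x.1 * mp x.2 := by
      refine mp_of_values ((mp_monic _).mul (mp_monic _)) ?_ fun j => ?_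
      · rw [(mp_monic _).natDegree_mul (mp_monic _), mp_natDegree, mp_natDegree]
      · rw [hy j, eval_mul]
    have h2 : up y = up x.1 * up x.2 := by
      rw [up_eq, up_eq, up_eq, h1, Polynomial.map_mul]
    refine ⟨?_, ?_⟩
    · have h3 : ‖f x‖ = ‖f (x0, y0)‖ := hx.2
      rw [wt, h2, dd_mul (up_monic _) (up_monic _) (up_natDegree _) (up_natDegree _),
        rr_mul (up_monic _) (up_monic _) (up_natDegree _) (up_natDegree _), ← h3, wt, wt, pow_mul]
      have h4 : ‖f x‖ = ‖rr m (up x.1) (up x.2)‖ * ‖rr l (up x.2) (up x.1)‖ := norm_mul _ _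
      simp only [norm_mul]
      rw [h4, ← mul_pow, ← mul_pow]
      congr 1
      ring
    · rw [← int1_up, h2]
      exact (int1_up.mpr hx.1.1).mul (int1_up.mpr hx.1.2)
  · exact ((hadmP m).prod (hadmP l)).mono hUB
  · intro V hVU hV
    have hVB := hVU.trans hUB
    refine rat_of_balls hp.out.one_lt hV (((hadmP m).prod (hadmP l)).mono hVB) fun x hx => ?_
    obtain ⟨r, hr, h1⟩ := hV.exists_ball hx
    refine ⟨r, hr, h1, ?_⟩
    have h2 := h1.trans hVB
    rw [← closedBall_prod_same] at h2 ⊢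
    have h3 : (closedBall x.1 r ×ˢ closedBall x.2 r : Set ((Fin m → K) × (Fin l → K))).Nonempty :=
      ⟨x, mem_closedBall_self hr.le, mem_closedBall_self hr.le⟩
    rw [prod_subset_prod_iff] at h2
    rcases h2 with h2 | h2 | h2
    · obtain ⟨c, hc⟩ := exists_ser_prod (E := Fin m → K) (F := Fin l → K) hp.out.one_lt
      rw [hc _ _ _ _ (ko_ball _ hr) (ko_ball _ hr) ((hadmP m).mono h2.1) ((hadmP l).mono h2.2)]
      exact (rat_C c).mul ((hm K _ h2.1 (ko_ball _ hr)).mul (hl K _ h2.2 (ko_ball _ hr)))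
    · exact absurd h2 (nonempty_closedBall.mpr hr.le).ne_empty
    · exact absurd h2 (nonempty_closedBall.mpr hr.le).ne_empty

end Pool.Agent.H942.DP
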