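import Pool.Agent.H942.DP.Ext

set_option autoImplicit false

/-! The weight near a power of an irreducible polynomial. -/

namespace Pool.Agent.H942.DP

open MeasureTheory Metric Set Polynomial Topology Filter

variable {p : ℕ} [hp : Fact p.Prime] {A : ℕ → ℕ → Prop}

theorem int1_prod {k ι : Type*} [NormedField k] [IsUltrametricDist k] {s : Finset ι}
    {h : ι → k[X]} (hh : ∀ i ∈ s, Int1 (h i)) : Int1 (∏ i ∈ s, h i) := by
  classical
  induction s using Finset.induction_on with
  | empty => simpa using int1_one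
  | insert a s ha ih =>
    rw [Finset.prod_insert ha]
    exact (hh a (Finset.mem_insert_self a s)).mul
      (ih fun i hi => hh i (Finset.mem_insert_of_mem hi))

theorem wt_alg (D F R : ℝ) (c a k : ℕ) :
    ((D ^ c * F) ^ a * R ^ c) ^ k = F ^ (a * k) * (D ^ a * R) ^ (c * k) := by
  ring

section Conj

variable {K' : IntermediateField ℚ_[p] (PadicAlgCl p)}

theorem up_map_conj {e : ℕ} (x : Fin e → K') (σ : K' →ₐ[ℚ_[p]] PadicAlgCl p) :
    ‖dd e ((mp x).map (σ : K' →+* PadicAlgCl p))‖ = ‖dd e (up x)‖ := by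
  rw [dd_map, up_eq, dd_map]
  exact norm_conj σ _

theorem rr_map_conj {e : ℕ} (x : Fin e → K') (σ : K' →ₐ[ℚ_[p]] PadicAlgCl p) (P : ℤ[X]) :
    ‖rr e ((mp x).map (σ : K' →+* PadicAlgCl p)) (toOm p P)‖ = ‖rr e (up x) (toOm p P)‖ := by
  have h1 : ∀ f : K' →+* PadicAlgCl p, toOm p P = (P.map (Int.castRingHom K')).map f := by
    intro f
    rw [toOm, Polynomial.map_map]
    congr 1
    exact RingHom.ext_int _ _
  have h2 : ∀ f : K' →+* PadicAlgCl p,
      rr e ((mp x).map f) (toOm p P) = f (rr e (mp x) (P.map (Int.castRingHom K'))) := by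
    intro f
    rw [h1 f, rr_map]
    exact natDegree_map_eq_of_injective f.injective _
  rw [h2, up_eq, h2]
  exact norm_conj σ _

theorem int1_conj {e : ℕ} {x : Fin e → K'} (hx : x ∈ closedBall (0 : Fin e → K') 1)
    (σ : K' →ₐ[ℚ_[p]] PadicAlgCl p) : Int1 ((mp x).map (σ : K' →+* PadicAlgCl p)) := by
  rw [mp_map, int1_mp_iff]
  intro i
  have h1 : ‖(σ : K' →+* PadicAlgCl p) (x i)‖ = ‖x i‖ := norm_conj σ _
  rw [h1]
  rw [mem_closedBall, dist_zero_right] at hx
  exact (norm_le_pi_norm x i).trans hx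

/-- The continuous linear map. -/
noncomputable def cL [FiniteDimensional ℚ_[p] K'] (σ : K' →ₐ[ℚ_[p]] PadicAlgCl p) :
    K' →L[ℚ_[p]] PadicAlgCl p := LinearMap.toContinuousLinearMap σ.toLinearMap

theorem cL_apply [FiniteDimensional ℚ_[p] K'] (σ : K' →ₐ[ℚ_[p]] PadicAlgCl p) (u : K') :
    cL σ u = σ u := rfl

theorem continuous_conj_coeff [FiniteDimensional ℚ_[p] K'] {e : ℕ}
    (σ : K' →ₐ[ℚ_[p]] PadicAlgCl p) (i : ℕ) :
    Continuous fun x : Fin e → K' => ((mp x).map (σ : K' →+* PadicAlgCl p)).coeff i := by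
  simp only [coeff_map, mp_coeff']
  have h1 : Continuous fun u : K' => (σ : K' →+* PadicAlgCl p) u := (cL σ).continuous
  refine h1.comp (continuous_const.add ?_)
  split_ifs with h
  · exact continuous_apply _
  · exact continuous_const

end Conj

theorem prod_conj {K K' : IntermediateField ℚ_[p] (PadicAlgCl p)} (hK : K ≤ K')
    {θ : PadicAlgCl p} (hθ : θ ∈ K') {S : Finset (K' →ₐ[ℚ_[p]] PadicAlgCl p)}
    (hS1 : ∀ σ ∈ S, ∀ u : K, σ (IntermediateField.inclusion hK u) = u)
    (hSi : ∀ σ ∈ S, ∀ τ ∈ S, σ ⟨θ, hθ⟩ = τ ⟨θ, hθ⟩ → σ = τ)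
    {g : K[X]} (hg : g.Monic) (hgθ : aeval θ g = 0) (hc : S.card = g.natDegree) :
    g.map (algebraMap K (PadicAlgCl p)) = ∏ σ ∈ S, (X - C (σ ⟨θ, hθ⟩)) := by
  refine eq_of_monic_of_dvd_of_natDegree_le (monic_prod_of_monic _ _ fun σ _ => monic_X_sub_C _)
    (hg.map _) ?_ ?_
  · refine Finset.prod_dvd_of_coprime ?_ ?_
    · intro σ hσ τ hτ hne
      refine isCoprime_X_sub_C_of_isUnit_sub (isUnit_iff_ne_zero.mpr (sub_ne_zero.mpr ?_))
      exact fun h => hne (hSi σ hσ τ hτ h)
    · intro σ hσ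
      rw [dvd_iff_isRoot, IsRoot, eval_map]
      have h1 : (g.eval₂ ((IntermediateField.inclusion hK : K →ₐ[ℚ_[p]] K') : K →+* K')
          (⟨θ, hθ⟩ : K')) = 0 := by
        apply Subtype.ext
        have h2 := hom_eval₂ g ((IntermediateField.inclusion hK : K →ₐ[ℚ_[p]] K') : K →+* K')
          (algebraMap K' (PadicAlgCl p)) (⟨θ, hθ⟩ : K')
        have h3 : (algebraMap K' (PadicAlgCl p)) (⟨θ, hθ⟩ : K') = θ := rfl
        rw [h3] at h2
        change (algebraMap K' (PadicAlgCl p)) _ = 0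
        rw [h2]
        exact hgθ
      have h2 := hom_eval₂ g ((IntermediateField.inclusion hK : K →ₐ[ℚ_[p]] K') : K →+* K')
          (σ : K' →+* PadicAlgCl p) (⟨θ, hθ⟩ : K')
      rw [h1, map_zero] at h2
      have h3 : (σ : K' →+* PadicAlgCl p).comp
          ((IntermediateField.inclusion hK : K →ₐ[ℚ_[p]] K') : K →+* K') =
          algebraMap K (PadicAlgCl p) := by
        ext u
        exact hS1 σ hσ u
      rw [h3] at h2
      exact h2.symm
  · rw [natDegree_map, natDegree_prod_of_monic _ _ fun σ _ => monic_X_sub_C _]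
    simp [hc]

theorem lg_pow {K : IntermediateField ℚ_[p] (PadicAlgCl p)} [FiniteDimensional ℚ_[p] K]
    {a n e : ℕ} {P : ℤ[X]} {g : K[X]} (hg : g.Monic) (hirr : Irreducible g)
    (hgood : Good p A a P e) {z0 : Fin n → K} (hz0i : z0 ∈ closedBall (0 : Fin n → K) 1)
    (he : 0 < e) (hz0 : mp z0 = g ^ e) : LG p A (wt a K n (toOm p P)) z0 := by
  classical
  obtain ⟨θ, hθ0⟩ := IsAlgClosed.exists_aeval_eq_zero (PadicAlgCl p) g hirr.degree_pos.ne'
  have hmin : g = minpoly K θ := minpoly.eq_of_irreducible_of_monic hirr hθ0 hg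
  obtain ⟨K', hfd, hK, hθ, S, N, hS1, hN, hfin, hNd, hSi, hScard⟩ := exists_ext K θ
  have hSc : S.card = g.natDegree := by rw [hScard, ← hmin]
  have hn : n = S.card * e := by
    have h1 := congrArg natDegree hz0
    rw [mp_natDegree, hg.natDegree_pow, ← hSc, mul_comm] at h1
    exact h1
  subst hn
  have hSne : 0 < S.card := by
    rw [hSc]
    exact hirr.natDegree_pos
  set θ' : K' := ⟨θ, hθ⟩ with hθ'
  have hprod := prod_conj hK hθ hS1 hSi hg hθ0 hSc
  obtain ⟨x0, hx0, -⟩ := exists_mp (n := e) ((monic_X_sub_C θ').pow e) (by simp)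
  -- the conjugates of `x0`
  have hx0σ : ∀ σ : K' →ₐ[ℚ_[p]] PadicAlgCl p,
      (mp x0).map (σ : K' →+* PadicAlgCl p) = (X - C (σ θ')) ^ e := by
    intro σ
    rw [hx0, Polynomial.map_pow, Polynomial.map_sub, map_X, map_C]
    rfl
  have hcop : ∀ σ ∈ S, ∀ τ ∈ S, σ ≠ τ → IsCoprime ((mp x0).map (σ : K' →+* PadicAlgCl p))
      ((mp x0).map (τ : K' →+* PadicAlgCl p)) := by
    intro σ hσ τ hτ hne
    rw [hx0σ, hx0σ]
    refine IsCoprime.pow (isCoprime_X_sub_C_of_isUnit_sub (isUnit_iff_ne_zero.mpr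
      (sub_ne_zero.mpr fun h => hne (hSi σ hσ τ hτ h))))
  have hz0g : up z0 = (g.map (algebraMap K (PadicAlgCl p))) ^ e := by
    rw [up_eq, hz0, Polynomial.map_pow]
  have hx0i : x0 ∈ closedBall (0 : Fin e → K') 1 := by
    have h1 := int1_up.mpr hz0i
    have h2 : (up z0).IsRoot θ := by
      rw [hz0g, IsRoot, eval_pow, eval_map, ← aeval_def, hθ0, zero_pow he.ne']
    have h3 := h1.root (up_monic z0) h2
    rw [← int1_up, up_eq, hx0, Polynomial.map_pow, Polynomial.map_sub, map_X, map_C]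
    exact (int1_X_sub_C h3).pow e
  -- the values determine the polynomial
  have hvals : ∀ (x : Fin e → K') (y : Fin (S.card * e) → K),
      (∀ j : Fin (S.card * e), (mp y).eval ((j : ℕ) : K) = N ((mp x).eval ((j : ℕ) : K'))) →
      up y = ∏ σ ∈ S, (mp x).map (σ : K' →+* PadicAlgCl p) := by
    intro x y hy
    refine mp_of_values (monic_prod_of_monic _ _ fun σ _ => (mp_monic x).map _) ?_ fun j => ?_
    · rw [natDegree_prod_of_monic _ _ fun σ _ => (mp_monic x).map _]
      simp [mp_natDegree]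
    · have h1 := congrArg (algebraMap K (PadicAlgCl p)) (hy j)
      rw [← eval_natCast_map, ← up_eq] at h1
      rw [eval_prod]
      change (up y).eval _ = _
      rw [h1]
      change ((N _ : K) : PadicAlgCl p) = _
      rw [hN]
      refine Finset.prod_congr rfl fun σ _ => ?_
      rw [eval_natCast_map]
      rfl
  have hNinj : ∀ u v : K, (u : PadicAlgCl p) = v → u = v := fun u v h => Subtype.ext h
  set f : (Fin e → K') → PadicAlgCl p := fun x => ∏ ij ∈ S.offDiag,
    rr e ((mp x).map (ij.1 : K' →+* PadicAlgCl p)) ((mp x).map (ij.2 : K' →+* PadicAlgCl p))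
    with hf
  have hfc : Continuous f := by
    rw [hf]
    refine continuous_finsetProd _ fun ij _ => ?_
    simp only [rr, natDegree_map, mp_natDegree]
    exact continuous_resultant (continuous_conj_coeff ij.1) (continuous_conj_coeff ij.2) e e
  have hf0 : f x0 ≠ 0 := by
    refine Finset.prod_ne_zero_iff.mpr fun ij hij => ?_
    rw [Finset.mem_offDiag] at hij
    exact rr_ne_zero (by rw [natDegree_map, mp_natDegree]) (hcop _ hij.1 _ hij.2.1 hij.2.2)
  have hf1 : ‖f x0‖ ≤ 1 := by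
    rw [hf]
    simp only
    rw [norm_prod]
    exact Finset.prod_le_one (fun _ _ => norm_nonneg _) fun ij _ =>
      norm_rr_le (int1_conj hx0i _) (int1_conj hx0i _) e
  set U : Set (Fin e → K') := closedBall 0 1 ∩ {x | ‖f x‖ = ‖f x0‖} with hU
  have hUn : U ∈ 𝓝 x0 := inter_mem
    ((IsUltrametricDist.isOpen_closedBall _ one_ne_zero).mem_nhds hx0i)
    (norm_eventually hfc.continuousAt hf0)
  choose N' hN' using fun j : Fin (S.card * e) => hNd ((mp x0).eval ((j : ℕ) : K'))
  set v' : (Fin e → K') →L[ℚ_[p]] (Fin (S.card * e) → K) :=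
    ContinuousLinearMap.pi fun j => N' j ∘L evL e ((j : ℕ) : K') with hv'
  have hadmP : ∀ (L : IntermediateField ℚ_[p] (PadicAlgCl p)) [FiniteDimensional ℚ_[p] L]
      (m : ℕ), Adm p (wt a L m (toOm p P)) (closedBall 0 1) := fun L _ m => adm_wt a L m P
  refine lg_values (K := K) (n := S.card * e) (E := Fin e → K')
    (v := fun x j => N ((mp x).eval ((j : ℕ) : K'))) (v' := v')
    (x0 := x0) (w' := wt a K' e (toOm p P))
    (κ := ‖f x0‖ ^ (a * Module.finrank ℚ_[p] K)) ?_ ?_ ?_ ?_ ?_ ?_ hUn ?_ (hadmP K _) ?_ ?_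
  · rw [hasStrictFDerivAt_pi']
    intro j
    exact (hN' j).comp x0 (strict_eval e ((j : ℕ) : K') x0)
  · intro h hh
    have h1 : ∀ j : Fin (S.card * e), ∀ u : K', ((N' j u : K) : PadicAlgCl p) =
        ∑ σ ∈ S, (∏ τ ∈ S.erase σ, τ ((mp x0).eval ((j : ℕ) : K'))) * σ u := by
      intro j u
      have e1 : HasFDerivAt (fun u : K' => ((N u : K) : PadicAlgCl p))
          ((LinearMap.toContinuousLinearMap K.val.toLinearMap) ∘L N' j)
          ((mp x0).eval ((j : ℕ) : K')) :=
        ((LinearMap.toContinuousLinearMap K.val.toLinearMap).hasStrictFDerivAt.comp _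
          (hN' j)).hasFDerivAt
      have e2 : HasFDerivAt (fun u : K' => ∏ σ ∈ S, σ u)
          (∑ σ ∈ S, (∏ τ ∈ S.erase σ, τ ((mp x0).eval ((j : ℕ) : K'))) • cL σ)
          ((mp x0).eval ((j : ℕ) : K')) :=
        (HasStrictFDerivAt.finsetProd (fun σ _ => (cL σ).hasStrictFDerivAt)).hasFDerivAt
      have e3 : (fun u : K' => ((N u : K) : PadicAlgCl p)) = fun u => ∏ σ ∈ S, σ u :=
        funext hN
      rw [e3] at e1
      have e4 := DFunLike.congr_fun (e1.unique e2) u
      simp only [_root_.sum_apply, _root_.smul_apply, cL_apply,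
        smul_eq_mul] at e4
      exact e4
    set Q : (PadicAlgCl p)[X] := ∑ σ ∈ S, (∏ τ ∈ S.erase σ,
      (mp x0).map (τ : K' →+* PadicAlgCl p)) * (lp h).map (σ : K' →+* PadicAlgCl p) with hQ
    have hdeg : ∀ σ ∈ S, ((∏ τ ∈ S.erase σ, (mp x0).map (τ : K' →+* PadicAlgCl p)) *
        (lp h).map (σ : K' →+* PadicAlgCl p)).degree < ((S.card * e : ℕ) : WithBot ℕ) := by
      intro σ hσ
      have h3 : (∏ τ ∈ S.erase σ, (mp x0).map (τ : K' →+* PadicAlgCl p)).Monic :=
        monic_prod_of_monic _ _ fun τ _ => (mp_monic x0).map _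
      have h4 : (∏ τ ∈ S.erase σ, (mp x0).map (τ : K' →+* PadicAlgCl p)).natDegree =
          (S.card - 1) * e := by
        rw [natDegree_prod_of_monic _ _ fun τ _ => (mp_monic x0).map _]
        simp [mp_natDegree, Finset.card_erase_of_mem hσ]
      have h5 : ((S.card * e : ℕ) : WithBot ℕ) = (((S.card - 1) * e : ℕ) : WithBot ℕ) +
          ((e : ℕ) : WithBot ℕ) := by
        rw [← Nat.cast_add]
        congr 1
        obtain ⟨c, hc⟩ : ∃ c, S.card = c + 1 := ⟨S.card - 1, by omega⟩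
        rw [hc, Nat.add_sub_cancel]
        ring
      rw [degree_mul, degree_eq_natDegree h3.ne_zero, h4, h5]
      refine WithBot.add_lt_add_of_le_of_lt (WithBot.natCast_ne_bot _) le_rfl ?_
      rw [lp_map]
      exact lp_degree _
    have hQ0 : Q = 0 := by
      refine eq_of_values (n := S.card * e) ?_ fun j => ?_
      · rw [sub_zero]
        have h3 : Q ∈ degreeLT (PadicAlgCl p) (S.card * e) :=
          Submodule.sum_mem _ fun σ hσ => mem_degreeLT.mpr (hdeg σ hσ)
        exact mem_degreeLT.mp h3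
      · rw [eval_zero, hQ, eval_finsetSum]
        have h2 := h1 j ((lp h).eval ((j : ℕ) : K'))
        have h3 : N' j ((lp h).eval ((j : ℕ) : K')) = 0 := congrFun hh j
        rw [h3] at h2
        have h4 : (((0 : K) : PadicAlgCl p)) = 0 := rfl
        rw [h4] at h2
        rw [h2]
        refine Finset.sum_congr rfl fun σ _ => ?_
        rw [eval_mul, eval_prod, eval_natCast_map]
        congr 1
        refine Finset.prod_congr rfl fun τ _ => ?_
        rw [eval_natCast_map]
        rfl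
    obtain ⟨σ, hσ⟩ := Finset.card_pos.mp hSne
    have hdvd : (mp x0).map (σ : K' →+* PadicAlgCl p) ∣ (∏ τ ∈ S.erase σ,
        (mp x0).map (τ : K' →+* PadicAlgCl p)) * (lp h).map (σ : K' →+* PadicAlgCl p) := by
      have h3 := Finset.add_sum_erase S (fun σ => (∏ τ ∈ S.erase σ,
        (mp x0).map (τ : K' →+* PadicAlgCl p)) * (lp h).map (σ : K' →+* PadicAlgCl p)) hσ
      rw [← hQ, hQ0] at h3
      rw [eq_neg_of_add_eq_zero_left h3, dvd_neg]
      refine Finset.dvd_sum fun τ hτ => ?_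
      have h7 := Finset.dvd_prod_of_mem (fun τ : K' →ₐ[ℚ_[p]] PadicAlgCl p =>
        (mp x0).map (τ : K' →+* PadicAlgCl p)) (Finset.mem_erase.mpr
          ⟨(Finset.ne_of_mem_erase hτ).symm, hσ⟩)
      exact h7.mul_right _
    have hcop2 : IsCoprime ((mp x0).map (σ : K' →+* PadicAlgCl p))
        (∏ τ ∈ S.erase σ, (mp x0).map (τ : K' →+* PadicAlgCl p)) :=
      IsCoprime.prod_right fun τ hτ => hcop σ hσ τ (Finset.mem_of_mem_erase hτ)
        (Finset.ne_of_mem_erase hτ).symm
    have hdvd2 := hcop2.dvd_of_dvd_mul_left hdvd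
    rw [mp_map, lp_map] at hdvd2
    have h5 := eq_zero_of_dvd_lp hdvd2
    funext i
    have h6 := congrFun h5 i
    exact (map_eq_zero (σ : K' →+* PadicAlgCl p)).mp h6
  · simp only [Module.finrank_pi_fintype, Finset.sum_const, Finset.card_univ, Fintype.card_fin,
      smul_eq_mul]
    rw [← hfin]
    ring
  · intro j
    apply hNinj
    change algebraMap K (PadicAlgCl p) _ = _
    rw [← eval_natCast_map, ← up_eq, hz0g, hprod, hN, eval_pow, eval_prod, ← Finset.prod_pow]
    refine Finset.prod_congr rfl fun σ _ => ?_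
    have h1 := hx0σ σ
    have h2 := congrArg (eval ((j : ℕ) : PadicAlgCl p)) h1
    rw [eval_natCast_map, eval_pow] at h2
    exact h2.symm
  · exact pow_pos (norm_pos_iff.mpr hf0) _
  · exact pow_le_one₀ (norm_nonneg _) hf1
  · intro x hx y hy
    have h2 := hvals x y hy
    have hmon : ∀ σ ∈ S, ((mp x).map (σ : K' →+* PadicAlgCl p)).Monic := fun σ _ =>
      (mp_monic x).map _
    have hnat : ∀ σ ∈ S, ((mp x).map (σ : K' →+* PadicAlgCl p)).natDegree = e := fun σ _ => by
      rw [natDegree_map, mp_natDegree]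
    refine ⟨?_, ?_⟩
    · have h3 : ‖f x‖ = ‖f x0‖ := hx.2
      have h4 : ‖∏ ij ∈ S.offDiag, rr e ((mp x).map (ij.1 : K' →+* PadicAlgCl p))
          ((mp x).map (ij.2 : K' →+* PadicAlgCl p))‖ = ‖f x0‖ := h3
      have h5 : ‖∏ σ ∈ S, dd e ((mp x).map (σ : K' →+* PadicAlgCl p))‖ =
          ‖dd e (up x)‖ ^ S.card := by
        rw [norm_prod, Finset.prod_congr rfl fun σ _ => up_map_conj x σ, Finset.prod_const]
      have h6 : ‖∏ σ ∈ S, rr e ((mp x).map (σ : K' →+* PadicAlgCl p)) (toOm p P)‖ =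
          ‖rr e (up x) (toOm p P)‖ ^ S.card := by
        rw [norm_prod, Finset.prod_congr rfl fun σ _ => rr_map_conj x σ P, Finset.prod_const]
      rw [wt, h2, dd_prod S _ e hmon hnat, rr_prod S _ _ e hmon hnat, norm_mul, h4, h5, h6, wt,
        ← hfin]
      exact wt_alg _ _ _ _ _ _
    · rw [← int1_up, h2]
      exact int1_prod fun σ _ => int1_conj hx.1 σ
  · exact (hadmP K' e).mono inter_subset_left
  · intro V hVU hV
    exact hgood K' V (hVU.trans inter_subset_left) hV

end Pool.Agent.H942.DP
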