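import Pool.Agent.H942.DP.Beta

set_option autoImplicit false

/-! Scaling and translation of the roots. -/

namespace Pool.Agent.H942.DP

open MeasureTheory Metric Set Polynomial Topology Filter

section Alg

variable {k : Type*} [Field k] {n : ℕ}

theorem lp_of_coeff {q : k[X]} (hq : q.degree < n) : lp (fun i : Fin n => q.coeff i) = q := by
  ext i
  rw [lp_coeff']
  split_ifs with h
  · rfl
  · exact (coeff_eq_zero_of_degree_lt (hq.trans_le (by exact_mod_cast not_lt.mp h))).symm

theorem degree_comp_lt {q : k[X]} (hq : q.degree < n) (c : k) :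
    (q.comp (X - C c)).degree < n := by
  by_cases h0 : q = 0
  · rw [h0, zero_comp, degree_zero]
    exact WithBot.bot_lt_coe n
  · have h1 : q.comp (X - C c) ≠ 0 := by
      intro h
      apply h0
      have h2 := congrArg (fun r : k[X] => r.comp (X + C c)) h
      simp only [comp_assoc, sub_comp, X_comp, C_comp, add_sub_cancel_right, comp_X,
        zero_comp] at h2
      exact h2
    rw [degree_eq_natDegree h1, natDegree_comp, natDegree_X_sub_C, mul_one]
    rw [degree_eq_natDegree h0] at hq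
    exact hq

/-- The linear part of the translation of the roots by `c`. -/
noncomputable def sh (c : k) (x : Fin n → k) : Fin n → k := fun i =>
  ((lp x).comp (X - C c)).coeff i

theorem lp_sh (c : k) (x : Fin n → k) : lp (sh c x) = (lp x).comp (X - C c) :=
  lp_of_coeff (degree_comp_lt (lp_degree x) c)

theorem sh_sh (c : k) (x : Fin n → k) : sh (-c) (sh c x) = x := by
  have h : lp (sh (-c) (sh c x) - x) = 0 := by
    have h1 : lp (sh (-c) (sh c x) - x) = lp (sh (-c) (sh c x)) - lp x := by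
      rw [← mp_sub, mp_eq, mp_eq]
      ring
    rw [h1, lp_sh, lp_sh, comp_assoc]
    simp
  exact sub_eq_zero.mp (lp_eq_zero h)

theorem sh_add (c : k) (x y : Fin n → k) : sh c (x + y) = sh c x + sh c y := by
  funext i
  have h1 : lp (x + y) = lp x + lp y := by
    simp only [lp, Pi.add_apply, C_add, add_mul, Finset.sum_add_distrib]
  rw [sh, h1, add_comp, coeff_add]
  rfl

/-- The linear part of the translation of the roots by `c`. -/
noncomputable def shE (c : k) : (Fin n → k) ≃+ (Fin n → k) where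
  toFun := sh c
  invFun := sh (-c)
  left_inv := sh_sh c
  right_inv x := by
    have := sh_sh (-c) x
    rwa [neg_neg] at this
  map_add' := sh_add c

/-- The coefficients of `(X - c) ^ n`. -/
noncomputable def t0 (n : ℕ) (c : k) : Fin n → k := fun i => ((X - C c) ^ n).coeff i

theorem mp_t0 (c : k) : mp (t0 n c) = (X - C c) ^ n := by
  obtain ⟨x, hx, hx2⟩ := exists_mp (n := n) ((monic_X_sub_C c).pow n) (by simp)
  have : x = t0 n c := funext hx2
  rw [← this, hx]

/-- The translation of the roots by `c`. -/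
noncomputable def tr (c : k) (x : Fin n → k) : Fin n → k := t0 n c + sh c x

theorem mp_tr (c : k) (x : Fin n → k) : mp (tr c x) = (mp x).comp (X - C c) := by
  have h1 : mp (tr c x) = mp (t0 n c) + lp (sh c x) := by
    have h2 := mp_sub (tr c x) (t0 n c)
    have h3 : tr c x - t0 n c = sh c x := by
      rw [tr]
      abel
    rw [h3] at h2
    rw [← h2]
    ring
  rw [h1, mp_t0, lp_sh, mp_eq, add_comp, pow_comp, X_comp]

theorem tr_injective (c : k) : Function.Injective (tr c : (Fin n → k) → (Fin n → k)) := by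
  intro x y h
  have h1 : sh c x = sh c y := by
    simp only [tr] at h
    exact add_left_cancel h
  exact (shE c).injective h1

end Alg

section Norm

variable {k : Type*} [NormedField k] [IsUltrametricDist k] {n : ℕ}

theorem norm_sh_le {c : k} (hc : ‖c‖ ≤ 1) (x : Fin n → k) : ‖sh c x‖ ≤ ‖x‖ := by
  rw [pi_norm_le_iff_of_nonneg (norm_nonneg x)]
  intro i
  have h1 : sh c x i = ∑ j : Fin n, x j * ((X - C c) ^ (j : ℕ)).coeff i := by
    rw [sh, lp, Polynomial.sum_comp, finsetSum_coeff]
    refine Finset.sum_congr rfl fun j _ => ?_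
    rw [mul_comp, C_comp, pow_comp, X_comp, coeff_C_mul]
  rw [h1]
  refine IsUltrametricDist.norm_sum_le_of_forall_le_of_nonneg (norm_nonneg x) fun j _ => ?_
  rw [norm_mul]
  calc ‖x j‖ * ‖((X - C c) ^ (j : ℕ)).coeff i‖ ≤ ‖x‖ * 1 :=
        mul_le_mul (norm_le_pi_norm x j) ((int1_X_sub_C hc).pow j i) (norm_nonneg _) (norm_nonneg _)
    _ = ‖x‖ := mul_one _

theorem norm_t0_le {c : k} (hc : ‖c‖ ≤ 1) : t0 n c ∈ closedBall (0 : Fin n → k) 1 := by
  rw [mem_closedBall, dist_zero_right, pi_norm_le_iff_of_nonneg zero_le_one]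
  exact fun i => (int1_X_sub_C hc).pow n i

theorem shE_image {c : k} (hc : ‖c‖ ≤ 1) :
    (shE c : (Fin n → k) ≃+ (Fin n → k)) '' closedBall 0 1 = closedBall 0 1 := by
  apply Subset.antisymm
  · rintro _ ⟨x, hx, rfl⟩
    rw [mem_closedBall, dist_zero_right] at hx ⊢
    exact (norm_sh_le hc x).trans hx
  · intro x hx
    refine ⟨sh (-c) x, ?_, (shE c).right_inv x⟩
    rw [mem_closedBall, dist_zero_right] at hx ⊢
    exact (norm_sh_le (by rwa [norm_neg]) x).trans hx

theorem tr_mem {c : k} (hc : ‖c‖ ≤ 1) {x : Fin n → k} (hx : x ∈ closedBall (0 : Fin n → k) 1) :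
    tr c x ∈ closedBall (0 : Fin n → k) 1 := by
  have h1 := norm_t0_le (n := n) hc
  rw [mem_closedBall, dist_zero_right] at hx h1 ⊢
  exact (IsUltrametricDist.norm_add_le_max _ _).trans (max_le h1 ((norm_sh_le hc x).trans hx))

theorem continuous_sh (c : k) : Continuous (sh c : (Fin n → k) → (Fin n → k)) := by
  refine continuous_pi fun i => ?_
  have h1 : (fun x : Fin n → k => sh c x i) = fun x => ∑ j : Fin n,
      x j * ((X - C c) ^ (j : ℕ)).coeff i := by
    funext x
    rw [sh, lp, Polynomial.sum_comp, finsetSum_coeff]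
    refine Finset.sum_congr rfl fun j _ => ?_
    rw [mul_comp, C_comp, pow_comp, X_comp, coeff_C_mul]
  rw [h1]
  exact continuous_finsetSum _ fun j _ => (continuous_apply j).mul continuous_const

omit [IsUltrametricDist k] in
theorem tr_image (c : k) (V : Set (Fin n → k)) :
    tr c '' V = (fun y => t0 n c + y) '' ((shE c : (Fin n → k) ≃+ (Fin n → k)) '' V) := by
  rw [image_image]
  rfl

variable [ProperSpace k] [MeasurableSpace k] [BorelSpace k]

theorem vol_tr {c : k} (hc : ‖c‖ ≤ 1) (V : Set (Fin n → k)) : vol (tr c '' V) = vol V := by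
  obtain ⟨d, hd0, hd⟩ := exists_vol_image (E := Fin n → k) (F := Fin n → k) (shE c)
    (continuous_sh c) (continuous_sh (-c))
  have h1 := hd (closedBall 0 1)
  rw [shE_image hc] at h1
  have h2 : 0 < vol (closedBall (0 : Fin n → k) 1) :=
    vol_pos (ko_ball _ one_pos) ⟨0, mem_closedBall_self zero_le_one⟩
  have h3 : d = 1 := by
    have h4 : (d - 1) * vol (closedBall (0 : Fin n → k) 1) = 0 := by linear_combination -h1
    rcases mul_eq_zero.mp h4 with h5 | h5
    · linarith
    · exact absurd h5 h2.ne'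
  rw [tr_image, vol_translate, hd, h3, one_mul]

theorem ko_tr (c : k) {V : Set (Fin n → k)} (hV : KO V) : KO (tr c '' V) := by
  let T : (Fin n → k) ≃ₜ (Fin n → k) :=
    { (shE c).toEquiv with
      continuous_toFun := continuous_sh c
      continuous_invFun := continuous_sh (-c) }
  rw [tr_image]
  have h1 : KO ((shE c : (Fin n → k) ≃+ (Fin n → k)) '' V) :=
    ⟨hV.1.image (continuous_sh c), T.isOpenMap _ hV.2⟩
  exact ⟨h1.1.image (continuous_const_add _), (Homeomorph.addLeft _).isOpenMap _ h1.2⟩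

end Norm

section Box

variable {p : ℕ} [hp : Fact p.Prime] {K : IntermediateField ℚ_[p] (PadicAlgCl p)} {n : ℕ}

theorem norm_pp (K : IntermediateField ℚ_[p] (PadicAlgCl p)) (j : ℕ) :
    ‖((p : K) ^ j)‖ = ((p : ℝ) ^ j)⁻¹ := by
  have h : ((p : ℕ) : K) = algebraMap ℚ_[p] K p := by simp
  rw [h, norm_pow, norm_algebraMap', Padic.norm_p, inv_pow]

theorem pp_ne_zero (K : IntermediateField ℚ_[p] (PadicAlgCl p)) (j : ℕ) : ((p : K) ^ j) ≠ 0 := by
  rw [← norm_ne_zero_iff, norm_pp]
  have hp0 : (0 : ℝ) < p := by exact_mod_cast hp.out.pos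
  positivity

/-- The polynomials whose roots are divisible by `p ^ k`. -/
def box (K : IntermediateField ℚ_[p] (PadicAlgCl p)) (n k : ℕ) : Set (Fin n → K) :=
  {x | ∀ i, ‖x i‖ ≤ ((p : ℝ) ^ (k * (n - i)))⁻¹}

/-- Scaling of the roots by `p ^ k`. -/
noncomputable def sc (K : IntermediateField ℚ_[p] (PadicAlgCl p)) (n k : ℕ) :
    (Fin n → K) ≃+ (Fin n → K) where
  toFun x i := (p : K) ^ (k * (n - i)) * x i
  invFun x i := ((p : K) ^ (k * (n - i)))⁻¹ * x i
  left_inv x := by
    funext i
    simp only [← mul_assoc, inv_mul_cancel₀ (pp_ne_zero K _), one_mul]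
  right_inv x := by
    funext i
    simp only [← mul_assoc, mul_inv_cancel₀ (pp_ne_zero K _), one_mul]
  map_add' x y := by
    funext i
    simp only [Pi.add_apply]
    ring

theorem sc_apply (k : ℕ) (x : Fin n → K) (i : Fin n) :
    sc K n k x i = (p : K) ^ (k * (n - i)) * x i := rfl

theorem sc_image (k : ℕ) : sc K n k '' closedBall 0 1 = box K n k := by
  have hp0 : (0 : ℝ) < p := by exact_mod_cast hp.out.pos
  ext y
  constructor
  · rintro ⟨x, hx, rfl⟩ i
    rw [mem_closedBall, dist_zero_right] at hx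
    rw [sc_apply, norm_mul, norm_pp]
    exact mul_le_of_le_one_right (by positivity) ((norm_le_pi_norm x i).trans hx)
  · intro hy
    refine ⟨(sc K n k).symm y, ?_, (sc K n k).apply_symm_apply y⟩
    rw [mem_closedBall, dist_zero_right, pi_norm_le_iff_of_nonneg zero_le_one]
    intro i
    change ‖((p : K) ^ (k * (n - i)))⁻¹ * y i‖ ≤ 1
    rw [norm_mul, norm_inv, norm_pp, inv_inv]
    have := hy i
    rwa [← le_inv_mul_iff₀ (by positivity), mul_one]

theorem up_sc (k : ℕ) (x : Fin n → K) :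
    up (sc K n k x) = (up x).scaleRoots ((p : PadicAlgCl p) ^ k) := by
  ext i
  rw [coeff_scaleRoots, up_natDegree, up, up, mp_coeff', mp_coeff']
  rcases lt_trichotomy i n with h | h | h
  · rw [if_neg h.ne, dif_pos h, dif_pos h, zero_add, zero_add, sc_apply, ← pow_mul]
    push_cast
    rw [mul_comm]
  · rw [if_pos h, dif_neg h.not_lt, dif_neg h.not_lt, h]
    simp
  · rw [if_neg h.ne', dif_neg (by omega), dif_neg (by omega)]
    simp

theorem ko_closedBall [FiniteDimensional ℚ_[p] K] (x : Fin n → K) {r : ℝ} (hr : 0 < r) :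
    KO (closedBall x r) := ko_ball x hr

theorem continuous_sc (k : ℕ) : Continuous (sc K n k) := by
  refine continuous_pi fun i => ?_
  exact continuous_const.mul (continuous_apply i)

theorem continuous_sc_symm (k : ℕ) : Continuous (sc K n k).symm := by
  refine continuous_pi fun i => ?_
  exact continuous_const.mul (continuous_apply i)

theorem ko_sc [FiniteDimensional ℚ_[p] K] (k : ℕ) {V : Set (Fin n → K)} (hV : KO V) :
    KO (sc K n k '' V) := by
  let T : (Fin n → K) ≃ₜ (Fin n → K) :=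
    { (sc K n k).toEquiv with
      continuous_toFun := continuous_sc k
      continuous_invFun := continuous_sc_symm k }
  exact ⟨hV.1.image (continuous_sc k), T.isOpenMap _ hV.2⟩

theorem ko_box [FiniteDimensional ℚ_[p] K] (k : ℕ) : KO (box K n k) := by
  rw [← sc_image]
  exact ko_sc k (ko_ball _ one_pos)

theorem vol_sc [FiniteDimensional ℚ_[p] K] (k : ℕ) (V : Set (Fin n → K)) :
    vol (sc K n k '' V) =
      ((p : ℝ) ^ (Module.finrank ℚ_[p] K * ∑ i : Fin n, k * (n - i)))⁻¹ * vol V := by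
  obtain ⟨d, hd0, hd⟩ := exists_vol_image (E := Fin n → K) (F := Fin n → K) (sc K n k)
    (continuous_sc k) (continuous_sc_symm k)
  have h1 := hd (closedBall 0 1)
  rw [sc_image] at h1
  have h2 : 0 < vol (closedBall (0 : Fin n → K) 1) :=
    vol_pos (ko_ball _ one_pos) ⟨0, mem_closedBall_self zero_le_one⟩
  have h3 := vol_box (p := p) (K := K) (fun i : Fin n => k * (n - i))
  have h4 : box K n k = {x : Fin n → K | ∀ i, ‖x i‖ ≤ ((p : ℝ) ^ (k * (n - i)))⁻¹} := rfl
  rw [h4, h3] at h1
  rw [hd, mul_right_cancel₀ h2.ne' h1]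

theorem root_box {k : ℕ} {x : Fin n → K} (hx : x ∈ box K n k) {z : PadicAlgCl p}
    (hz : (up x).IsRoot z) : ‖z‖ ≤ ((p : ℝ) ^ k)⁻¹ := by
  have hp0 : (0 : ℝ) < p := by exact_mod_cast hp.out.pos
  rw [← sc_image] at hx
  obtain ⟨y, hy, rfl⟩ := hx
  have hr : ((p : PadicAlgCl p) ^ k) ≠ 0 := by
    have := pp_ne_zero (⊤ : IntermediateField ℚ_[p] (PadicAlgCl p)) k
    intro h
    apply this
    apply Subtype.ext
    push_cast
    exact h
  have hn : ‖((p : PadicAlgCl p) ^ k)‖ = ((p : ℝ) ^ k)⁻¹ := by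
    have h := norm_pp (⊤ : IntermediateField ℚ_[p] (PadicAlgCl p)) k
    rw [← h]
    rfl
  have h1 := scaleRoots_eval_mul (up y) (z / (p : PadicAlgCl p) ^ k) ((p : PadicAlgCl p) ^ k)
  rw [up_sc, IsRoot] at hz
  rw [mul_div_cancel₀ _ hr, hz] at h1
  have h2 : (up y).IsRoot (z / (p : PadicAlgCl p) ^ k) := by
    rcases mul_eq_zero.mp h1.symm with h3 | h3
    · exact absurd h3 (pow_ne_zero _ hr)
    · exact h3
  have h3 := (int1_up.mpr hy).root (up_monic y) h2
  rw [norm_div, hn, div_le_one (by positivity)] at h3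
  exact h3

theorem t0_mem_box {k : ℕ} {c : K} (hc : ‖c‖ ≤ ((p : ℝ) ^ k)⁻¹) : t0 n c ∈ box K n k := by
  have hp0 : (0 : ℝ) < p := by exact_mod_cast hp.out.pos
  intro i
  rw [t0, sub_eq_add_neg, ← C_neg, coeff_X_add_C_pow, norm_mul, norm_pow, norm_neg]
  have h1 : ‖((n.choose i : ℕ) : K)‖ ≤ 1 := by
    have h2 := int1_int (k := K) (C ((n.choose i : ℕ) : ℤ)) 0
    simpa using h2
  calc ‖c‖ ^ (n - (i : ℕ)) * ‖((n.choose i : ℕ) : K)‖ ≤ (((p : ℝ) ^ k)⁻¹) ^ (n - (i : ℕ)) * 1 :=
        mul_le_mul (pow_le_pow_left₀ (norm_nonneg _) hc _) h1 (norm_nonneg _) (by positivity)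
    _ = ((p : ℝ) ^ (k * (n - i)))⁻¹ := by rw [mul_one, inv_pow, ← pow_mul]

theorem box_subset (k : ℕ) : box K n k ⊆ closedBall 0 (((p : ℝ) ^ k)⁻¹) := by
  have hp1 : (1 : ℝ) ≤ p := by exact_mod_cast hp.out.one_lt.le
  intro x hx
  rw [mem_closedBall, dist_zero_right, pi_norm_le_iff_of_nonneg (by positivity)]
  intro i
  refine (hx i).trans (inv_anti₀ (by positivity) (pow_le_pow_right₀ hp1 ?_))
  have : 1 ≤ n - (i : ℕ) := by have := i.2; omega
  nlinarith

end Box

end Pool.Agent.H942.DP
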