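import Pool.Agent.H942.DP.Fields

set_option autoImplicit false

/-! Charts of the space of monic polynomials given by the values at `0, …, n - 1`. -/

namespace Pool.Agent.H942.DP

open MeasureTheory Metric Set Polynomial Topology Filter

section LG

variable {p : ℕ} {A : ℕ → ℕ → Prop} {E : Type*} [NormedAddCommGroup E] [IsUltrametricDist E]
  [ProperSpace E] [MeasurableSpace E] [BorelSpace E]

/-- Good near a point. -/
def LG (p : ℕ) (A : ℕ → ℕ → Prop) (w : E → ℝ) (z0 : E) : Prop :=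
  ∃ ρ > 0, ∀ s : ℝ, 0 < s → s ≤ ρ → Rat p A (ser p w (closedBall z0 s))

theorem rat_of_LG (hp : 1 < p) {V : Set E} (hV : KO V) {w : E → ℝ} (hw : Adm p w V)
    (h : ∀ x ∈ V, LG p A w x) : Rat p A (ser p w V) := by
  refine rat_of_balls hp hV hw fun x hx => ?_
  obtain ⟨ρ, hρ, h1⟩ := h x hx
  obtain ⟨r, hr, h2⟩ := hV.exists_ball hx
  refine ⟨min ρ r, lt_min hρ hr, ?_, h1 _ (lt_min hρ hr) (min_le_left _ _)⟩
  exact (closedBall_subset_closedBall (min_le_right _ _)).trans h2

omit [IsUltrametricDist E] in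
theorem LG_of_rat {w : E → ℝ} {V : Set E} {z0 : E} (hV : V ∈ 𝓝 z0)
    (h : ∀ s : ℝ, 0 < s → closedBall z0 s ⊆ V → Rat p A (ser p w (closedBall z0 s))) :
    LG p A w z0 := by
  obtain ⟨r, hr, h1⟩ := Metric.nhds_basis_closedBall.mem_iff.mp hV
  exact ⟨r, hr, fun s hs hsr => h s hs ((closedBall_subset_closedBall hsr).trans h1)⟩

end LG

section Chart

variable {k : Type*} [NontriviallyNormedField k] {E F : Type*} [NormedAddCommGroup E]
  [NormedSpace k E] [IsUltrametricDist E] [ProperSpace E] [MeasurableSpace E] [BorelSpace E]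
  [NormedAddCommGroup F] [NormedSpace k F] [IsUltrametricDist F] [ProperSpace F]
  [MeasurableSpace F] [BorelSpace F] {p : ℕ} {A : ℕ → ℕ → Prop}

theorem lg_chart (hp : 1 < p) {φ : E → F} {B : E ≃L[k] F} {x0 : E}
    (h : HasStrictFDerivAt φ (B : E →L[k] F) x0) {w : F → ℝ} {w' : E → ℝ} {κ : ℝ} (hκ : 0 < κ)
    (hκ1 : κ ≤ 1) {U : Set E} (hU : U ∈ 𝓝 x0) (hw : ∀ x ∈ U, w (φ x) = κ * w' x)
    (hadm : Adm p (fun x => κ * w' x) U) (hw' : Adm p w' U)
    (hR : ∀ V ⊆ U, KO V → Rat p A (ser p w' V)) : LG p A w (φ x0) := by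
  obtain ⟨r, hr, c, hinj, hcont, hV⟩ := ift h
  obtain ⟨r1, hr1, h1⟩ := Metric.nhds_basis_closedBall.mem_iff.mp hU
  set D : Set E := closedBall x0 (min r r1) with hD
  have hr2 : 0 < min r r1 := lt_min hr hr1
  have hDr : D ⊆ closedBall x0 r := closedBall_subset_closedBall (min_le_left _ _)
  have hDU : D ⊆ U := (closedBall_subset_closedBall (min_le_right _ _)).trans h1
  have hDK : KO D := ko_ball x0 hr2
  obtain ⟨ρ, hρ, h2⟩ := (hV D hDr hDK).1.exists_ball ⟨x0, mem_closedBall_self hr2.le, rfl⟩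
  refine ⟨ρ, hρ, fun s hs hsρ => ?_⟩
  set V : Set E := D ∩ φ ⁻¹' closedBall (φ x0) s with hVdef
  have hcD : ContinuousOn φ D := hcont.mono hDr
  have hVK : KO V := by
    refine ⟨?_, ?_⟩
    · exact hDK.1.of_isClosed_subset (hcD.preimage_isClosed_of_isClosed hDK.1.isClosed
        isClosed_closedBall) inter_subset_left
    · exact hcD.isOpen_inter_preimage hDK.2 (IsUltrametricDist.isOpen_closedBall _ hs.ne')
  have hVD : V ⊆ D := inter_subset_left
  have himg : φ '' V = closedBall (φ x0) s := by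
    rw [hVdef, image_inter_preimage]
    exact inter_eq_self_of_subset_right ((closedBall_subset_closedBall hsρ).trans h2)
  rw [← himg, ser_image hp hVK (hadm.mono (hVD.trans hDU)) (fun W hW hWK =>
    (hV W (hW.trans (hVD.trans hDr)) hWK).2) (fun x hx => hw x (hDU (hVD hx)))]
  obtain ⟨j, hj⟩ := ser_const_mul hp (hadm.mono (hVD.trans hDU)) (hw'.mono (hVD.trans hDU)) hκ hκ1
    (fun x _ => rfl)
  rw [hj]
  exact (rat_C c).mul ((rat_X_pow j).mul (hR V (hVD.trans hDU) hVK))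

end Chart

section Values

variable {p : ℕ} [hp : Fact p.Prime] {A : ℕ → ℕ → Prop}
  {K : IntermediateField ℚ_[p] (PadicAlgCl p)}

/-- The value of the polynomial of degree less than `n` at a point. -/
noncomputable def lpL (n : ℕ) (t : K) : (Fin n → K) →ₗ[ℚ_[p]] K where
  toFun x := (lp x).eval t
  map_add' x y := by
    rw [lp_eval, lp_eval, lp_eval, ← Finset.sum_add_distrib]
    exact Finset.sum_congr rfl fun i _ => by rw [Pi.add_apply]; ring
  map_smul' c x := by
    rw [lp_eval, lp_eval, RingHom.id_apply, Finset.smul_sum]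
    exact Finset.sum_congr rfl fun i _ => by rw [Pi.smul_apply, smul_mul_assoc]

/-- The value of the polynomial of degree less than `n` at a point. -/
noncomputable def evL [FiniteDimensional ℚ_[p] K] (n : ℕ) (t : K) : (Fin n → K) →L[ℚ_[p]] K :=
  LinearMap.toContinuousLinearMap (lpL n t)

theorem evL_apply [FiniteDimensional ℚ_[p] K] (n : ℕ) (t : K) (x : Fin n → K) :
    evL n t x = (lp x).eval t := rfl

theorem strict_eval [FiniteDimensional ℚ_[p] K] (n : ℕ) (t : K) (x0 : Fin n → K) :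
    HasStrictFDerivAt (fun x : Fin n → K => (mp x).eval t) (evL n t) x0 := by
  have h : (fun x : Fin n → K => (mp x).eval t) = fun x => t ^ n + evL n t x := by
    funext x
    rw [mp_eval, evL_apply]
  rw [h]
  exact (evL n t).hasStrictFDerivAt.const_add (t ^ n)

/-- The values at `0, …, n - 1`. -/
noncomputable def valL (K : IntermediateField ℚ_[p] (PadicAlgCl p)) (n : ℕ) :
    (Fin n → K) →ₗ[ℚ_[p]] (Fin n → K) :=
  LinearMap.pi fun j => lpL n ((j : ℕ) : K)

theorem valL_injective (n : ℕ) : Function.Injective (valL K n) := by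
  rw [← LinearMap.ker_eq_bot, LinearMap.ker_eq_bot']
  intro x hx
  apply lp_eq_zero
  refine eq_of_values (n := n) (by rw [sub_zero]; exact lp_degree x) fun j => ?_
  rw [eval_zero]
  exact congrFun hx j

/-- The values at `0, …, n - 1`. -/
noncomputable def valE (K : IntermediateField ℚ_[p] (PadicAlgCl p)) [FiniteDimensional ℚ_[p] K]
    (n : ℕ) : (Fin n → K) ≃L[ℚ_[p]] (Fin n → K) :=
  (LinearEquiv.ofInjectiveEndo (valL K n) (valL_injective n)).toContinuousLinearEquiv

theorem valE_apply [FiniteDimensional ℚ_[p] K] {n : ℕ} (x : Fin n → K) (j : Fin n) :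
    valE K n x j = (lp x).eval ((j : ℕ) : K) := rfl

theorem eq_of_mp_values {n : ℕ} {x y : Fin n → K}
    (h : ∀ j : Fin n, (mp x).eval ((j : ℕ) : K) = (mp y).eval ((j : ℕ) : K)) : x = y := by
  apply mp_injective
  refine eq_of_values (n := n) ?_ h
  rw [mp_sub]
  exact lp_degree _

variable [FiniteDimensional ℚ_[p] K] {n : ℕ} {E : Type*} [NormedAddCommGroup E]
  [NormedSpace ℚ_[p] E] [FiniteDimensional ℚ_[p] E] [IsUltrametricDist E] [ProperSpace E]
  [MeasurableSpace E] [BorelSpace E]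

/-- A chart given by the values. -/
theorem lg_values {v : E → Fin n → K} {v' : E →L[ℚ_[p]] (Fin n → K)} {x0 : E}
    (hv : HasStrictFDerivAt v v' x0) (hinj : ∀ h, v' h = 0 → h = 0)
    (hdim : Module.finrank ℚ_[p] E = Module.finrank ℚ_[p] (Fin n → K)) {z0 : Fin n → K}
    (hz0 : ∀ j : Fin n, (mp z0).eval ((j : ℕ) : K) = v x0 j)
    {w : (Fin n → K) → ℝ} {w' : E → ℝ} {κ : ℝ} (hκ : 0 < κ) (hκ1 : κ ≤ 1) {U : Set E}
    (hU : U ∈ 𝓝 x0)
    (hw : ∀ x ∈ U, ∀ y : Fin n → K, (∀ j : Fin n, (mp y).eval ((j : ℕ) : K) = v x j) →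
      w y = κ * w' x ∧ y ∈ closedBall (0 : Fin n → K) 1)
    (hadm : Adm p w (closedBall 0 1)) (hw' : Adm p w' U)
    (hR : ∀ V ⊆ U, KO V → Rat p A (ser p w' V)) : LG p A w z0 := by
  set t : Fin n → K := fun j => ((j : ℕ) : K) ^ n with ht
  set φ : E → Fin n → K := fun x => (valE K n).symm (v x - t) with hφ
  have hφv : ∀ x, ∀ j : Fin n, (mp (φ x)).eval ((j : ℕ) : K) = v x j := by
    intro x j
    rw [mp_eval, ← valE_apply, hφ]
    simp only [ContinuousLinearEquiv.apply_symm_apply, Pi.sub_apply, ht]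
    ring
  have hφ0 : φ x0 = z0 := eq_of_mp_values fun j => by rw [hφv, hz0]
  have hinj' : Function.Injective (v' : E →ₗ[ℚ_[p]] (Fin n → K)) := by
    rw [← LinearMap.ker_eq_bot, LinearMap.ker_eq_bot']
    exact fun h hh => hinj h hh
  let B0 : E ≃L[ℚ_[p]] (Fin n → K) :=
    (LinearEquiv.ofInjectiveOfFinrankEq (v' : E →ₗ[ℚ_[p]] (Fin n → K)) hinj'
      hdim).toContinuousLinearEquiv
  have hB0 : (B0 : E →L[ℚ_[p]] (Fin n → K)) = v' := by
    ext x
    rfl
  have hd : HasStrictFDerivAt φ ((B0.trans (valE K n).symm : E ≃L[ℚ_[p]] (Fin n → K)) :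
      E →L[ℚ_[p]] (Fin n → K)) x0 := by
    have h1 := ((valE K n).symm : (Fin n → K) →L[ℚ_[p]] (Fin n → K)).hasStrictFDerivAt.comp x0
      (hv.sub_const t)
    have h2 : ((B0.trans (valE K n).symm : E ≃L[ℚ_[p]] (Fin n → K)) :
      E →L[ℚ_[p]] (Fin n → K)) = ((valE K n).symm : (Fin n → K) →L[ℚ_[p]] (Fin n → K)) ∘L v' := by
      rw [← hB0]
      rfl
    rw [h2]
    exact h1
  rw [← hφ0]
  refine lg_chart hp.out.one_lt hd hκ hκ1 hU (fun x hx => (hw x hx (φ x) (hφv x)).1) ?_ hw' hR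
  refine ⟨continuous_const.mul hw'.1, fun x hx => ?_⟩
  obtain ⟨h1, h2⟩ := hw x hx (φ x) (hφv x)
  simp only
  rw [← h1]
  exact hadm.2 _ h2

end Values

/-- The norm of a continuous function is locally constant where it is not zero. -/
theorem norm_eventually {E k : Type*} [TopologicalSpace E] [NormedField k] [IsUltrametricDist k]
    {f : E → k} {x0 : E} (hf : ContinuousAt f x0) (h0 : f x0 ≠ 0) :
    ∀ᶠ x in 𝓝 x0, ‖f x‖ = ‖f x0‖ := by
  have h1 : ∀ᶠ x in 𝓝 x0, ‖f x - f x0‖ < ‖f x0‖ := by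
    have h2 := (tendsto_iff_norm_sub_tendsto_zero.mp hf)
    exact h2.eventually (gt_mem_nhds (norm_pos_iff.mpr h0))
  filter_upwards [h1] with x hx
  have h3 := IsUltrametricDist.norm_add_eq_max_of_norm_ne_norm hx.ne
  rw [sub_add_cancel] at h3
  rw [h3, max_eq_right hx.le]

end Pool.Agent.H942.DP
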