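import Pool.Agent.H942.DP.Alpha

set_option autoImplicit false

/-! Simple extensions of the finite extensions of `ℚ_p`, and their norms. -/

namespace Pool.Agent.H942.DP

open MeasureTheory Metric Set Polynomial Topology Filter

variable {p : ℕ} [hp : Fact p.Prime] {K : IntermediateField ℚ_[p] (PadicAlgCl p)}

section SD

variable {V : Type*} [NormedAddCommGroup V] [NormedSpace ℚ_[p] V]

/-- Strictly differentiable at a point. -/
def SD (f : V → K) (u0 : V) : Prop := ∃ f' : V →L[ℚ_[p]] K, HasStrictFDerivAt f f' u0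

theorem SD.sum {ι : Type*} (s : Finset ι) {f : ι → V → K} {u0 : V} (h : ∀ i ∈ s, SD (f i) u0) :
    SD (fun u => ∑ i ∈ s, f i u) u0 := by
  classical
  induction s using Finset.induction_on with
  | empty =>
    simp only [Finset.sum_empty]
    exact ⟨0, hasStrictFDerivAt_const _ _⟩
  | insert a s ha ih =>
    obtain ⟨f1, h1⟩ := h a (Finset.mem_insert_self a s)
    obtain ⟨f2, h2⟩ := ih fun i hi => h i (Finset.mem_insert_of_mem hi)
    simp only [Finset.sum_insert ha]
    exact ⟨_, h1.add h2⟩

theorem SD.prod {ι : Type*} (s : Finset ι) {f : ι → V → K} {u0 : V} (h : ∀ i ∈ s, SD (f i) u0) :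
    SD (fun u => ∏ i ∈ s, f i u) u0 := by
  classical
  induction s using Finset.induction_on with
  | empty =>
    simp only [Finset.prod_empty]
    exact ⟨0, hasStrictFDerivAt_const _ _⟩
  | insert a s ha ih =>
    obtain ⟨f1, h1⟩ := h a (Finset.mem_insert_self a s)
    obtain ⟨f2, h2⟩ := ih fun i hi => h i (Finset.mem_insert_of_mem hi)
    simp only [Finset.prod_insert ha]
    exact ⟨_, h1.mul h2⟩

theorem SD.const_mul {f : V → K} {u0 : V} (c : K) (h : SD f u0) : SD (fun u => c * f u) u0 := by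
  obtain ⟨f1, h1⟩ := h
  exact ⟨_, (hasStrictFDerivAt_const c u0).mul h1⟩

theorem sd_linear [FiniteDimensional ℚ_[p] V] (M : V →ₗ[ℚ_[p]] K) (u0 : V) :
    SD (fun u => M u) u0 :=
  ⟨LinearMap.toContinuousLinearMap M, (LinearMap.toContinuousLinearMap M).hasStrictFDerivAt⟩

theorem sd_det [FiniteDimensional ℚ_[p] V] {ι : Type*} [Fintype ι] [DecidableEq ι]
    (M : ι → ι → V →ₗ[ℚ_[p]] K) (u0 : V) :
    SD (fun u => (Matrix.of fun i j => M i j u).det) u0 := by
  simp only [Matrix.det_apply', Matrix.of_apply]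
  exact SD.sum _ fun σ _ => SD.const_mul _ (SD.prod _ fun i _ => sd_linear _ _)

end SD

theorem exists_ext (K : IntermediateField ℚ_[p] (PadicAlgCl p)) [FiniteDimensional ℚ_[p] K]
    (θ : PadicAlgCl p) :
    ∃ (K' : IntermediateField ℚ_[p] (PadicAlgCl p)) (_ : FiniteDimensional ℚ_[p] K')
      (hK : K ≤ K') (hθ : θ ∈ K') (S : Finset (K' →ₐ[ℚ_[p]] PadicAlgCl p)) (N : K' → K),
      (∀ σ ∈ S, ∀ u : K, σ (IntermediateField.inclusion hK u) = u) ∧
      (∀ u : K', ((N u : K) : PadicAlgCl p) = ∏ σ ∈ S, σ u) ∧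
      S.card * Module.finrank ℚ_[p] K = Module.finrank ℚ_[p] K' ∧
      (∀ u0 : K', SD N u0) ∧
      (∀ σ ∈ S, ∀ τ ∈ S, σ ⟨θ, hθ⟩ = τ ⟨θ, hθ⟩ → σ = τ) ∧
      S.card = (minpoly K θ).natDegree := by
  classical
  have : Algebra.IsAlgebraic K (PadicAlgCl p) := Algebra.IsAlgebraic.tower_top (K := ℚ_[p]) K
  have hint : IsIntegral K θ := Algebra.IsIntegral.isIntegral θ
  have hfd : FiniteDimensional K (IntermediateField.adjoin K {θ}) :=
    IntermediateField.adjoin.finiteDimensional hint
  have hfd2 : FiniteDimensional ℚ_[p] (IntermediateField.adjoin K {θ}) :=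
    FiniteDimensional.trans ℚ_[p] K (IntermediateField.adjoin K {θ})
  set L : IntermediateField K (PadicAlgCl p) := IntermediateField.adjoin K {θ} with hL
  have hfin := IntermediateField.adjoin.finrank hint
  let K' : IntermediateField ℚ_[p] (PadicAlgCl p) := L.restrictScalars ℚ_[p]
  have hfd3 : FiniteDimensional ℚ_[p] K' := hfd2
  have hK : K ≤ K' := fun x hx => L.algebraMap_mem ⟨x, hx⟩
  have hθ : θ ∈ K' := IntermediateField.mem_adjoin_simple_self K θ
  let T : (L →ₐ[K] PadicAlgCl p) → (K' →ₐ[ℚ_[p]] PadicAlgCl p) := fun σ =>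
    σ.restrictScalars ℚ_[p]
  have hTi : Function.Injective T := by
    intro σ τ h
    ext x
    exact DFunLike.congr_fun h x
  have hsep : Algebra.IsSeparable K L := inferInstance
  let N : K' → K := fun u => Algebra.norm K (S := L) u
  refine ⟨K', hfd3, hK, hθ, Finset.univ.image T, N, ?_, ?_, ?_, ?_, ?_, ?_⟩
  · intro σ hσ u
    obtain ⟨σ, -, rfl⟩ := Finset.mem_image.mp hσ
    exact σ.commutes u
  · intro u
    rw [Finset.prod_image fun x _ y _ h => hTi h]
    exact Algebra.norm_eq_prod_embeddings K (PadicAlgCl p) (L := L) u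
  · rw [Finset.card_image_of_injective _ hTi, Finset.card_univ, AlgHom.card K L (PadicAlgCl p),
      mul_comm]
    exact Module.finrank_mul_finrank ℚ_[p] K L
  · intro u0
    let b := Module.finBasis K L
    let M0 : Fin (Module.finrank K L) → Fin (Module.finrank K L) → L →ₗ[K] K := fun i j =>
      { toFun := fun u => Algebra.leftMulMatrix b u i j
        map_add' := fun x y => by rw [map_add, Matrix.add_apply]
        map_smul' := fun c x => by rw [map_smul, Matrix.smul_apply, RingHom.id_apply] }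
    let M1 : Fin (Module.finrank K L) → Fin (Module.finrank K L) → L →ₗ[ℚ_[p]] K := fun i j =>
      (M0 i j).restrictScalars ℚ_[p]
    let M : Fin (Module.finrank K L) → Fin (Module.finrank K L) → K' →ₗ[ℚ_[p]] K := M1
    have h1 := sd_det M u0
    have h2 : (fun u : K' => (Matrix.of fun i j => M i j u).det) = N := by
      funext u
      exact (Algebra.norm_eq_matrix_det b (u : L)).symm
    rwa [h2] at h1
  · intro σ hσ τ hτ h
    obtain ⟨σ, -, rfl⟩ := Finset.mem_image.mp hσ
    obtain ⟨τ, -, rfl⟩ := Finset.mem_image.mp hτ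
    congr 1
    refine IntermediateField.adjoin_algHom_ext K ?_
    rintro x hx
    have hx' : x = θ := hx
    subst hx'
    exact h
  · rw [Finset.card_image_of_injective _ hTi, Finset.card_univ, AlgHom.card K L (PadicAlgCl p),
      hfin]

end Pool.Agent.H942.DP
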