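import Mathlib

set_option autoImplicit false

/-! Monic polynomials given by their coefficients; resultants; norms. -/

namespace Pool.Agent.H942.DP

open Polynomial

section Ring

variable {R S : Type*} [CommRing R] [CommRing S] {n : ℕ}

/-- The monic polynomial with the given coefficients. -/
noncomputable def mp (x : Fin n → R) : R[X] := X ^ n + ∑ i : Fin n, C (x i) * X ^ (i : ℕ)

/-- The polynomial of degree less than `n` with the given coefficients. -/
noncomputable def lp (x : Fin n → R) : R[X] := ∑ i : Fin n, C (x i) * X ^ (i : ℕ)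

theorem mp_eq (x : Fin n → R) : mp x = X ^ n + lp x := rfl

theorem lp_degree (x : Fin n → R) : (lp x).degree < n := degree_sum_fin_lt x

theorem lp_coeff (x : Fin n → R) (i : Fin n) : (lp x).coeff i = x i := by
  rw [lp, finsetSum_coeff, Finset.sum_eq_single i]
  · simp
  · intro j _ hj
    rw [coeff_C_mul_X_pow, if_neg]
    exact fun h => hj (Fin.ext h.symm)
  · simp

theorem lp_coeff' (x : Fin n → R) (i : ℕ) :
    (lp x).coeff i = if h : i < n then x ⟨i, h⟩ else 0 := by
  split_ifs with h
  · exact lp_coeff x ⟨i, h⟩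
  · exact coeff_eq_zero_of_degree_lt ((lp_degree x).trans_le (by exact_mod_cast not_lt.mp h))

theorem mp_monic (x : Fin n → R) : (mp x).Monic := monic_X_pow_add (lp_degree x)

theorem mp_natDegree [Nontrivial R] (x : Fin n → R) : (mp x).natDegree = n := by
  rw [mp_eq, natDegree_add_eq_left_of_degree_lt, natDegree_X_pow]
  rw [degree_X_pow]
  exact lp_degree x

theorem mp_coeff (x : Fin n → R) (i : Fin n) : (mp x).coeff i = x i := by
  rw [mp_eq, coeff_add, lp_coeff, coeff_X_pow, if_neg i.2.ne, zero_add]

theorem mp_coeff' (x : Fin n → R) (i : ℕ) :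
    (mp x).coeff i = (if i = n then 1 else 0) + if h : i < n then x ⟨i, h⟩ else 0 := by
  rw [mp_eq, coeff_add, lp_coeff', coeff_X_pow]

theorem mp_map (f : R →+* S) (x : Fin n → R) : (mp x).map f = mp fun i => f (x i) := by
  simp [mp, Polynomial.map_sum]

theorem lp_map (f : R →+* S) (x : Fin n → R) : (lp x).map f = lp fun i => f (x i) := by
  simp [lp, Polynomial.map_sum]

theorem exists_mp [Nontrivial R] {h : R[X]} (hm : h.Monic) (hn : h.natDegree = n) :
    ∃ x : Fin n → R, mp x = h ∧ ∀ i : Fin n, x i = h.coeff i := by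
  refine ⟨fun i => h.coeff i, ?_, fun i => rfl⟩
  ext i
  rw [mp_coeff']
  rcases lt_trichotomy i n with h1 | h1 | h1
  · rw [if_neg h1.ne, dif_pos h1, zero_add]
  · rw [if_pos h1, dif_neg h1.not_lt, add_zero, h1, ← hn]
    exact hm.symm
  · rw [if_neg h1.ne', dif_neg (not_lt.mpr h1.le), add_zero, coeff_eq_zero_of_natDegree_lt]
    rwa [hn]

theorem mp_injective {x y : Fin n → R} (h : mp x = mp y) : x = y := by
  ext i
  rw [← mp_coeff x i, h, mp_coeff]

theorem lp_eq_zero {x : Fin n → R} (h : lp x = 0) : x = 0 := by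
  ext i
  rw [← lp_coeff x i, h, coeff_zero]
  rfl

theorem mp_sub (x y : Fin n → R) : mp x - mp y = lp (x - y) := by
  simp only [mp, lp, Pi.sub_apply, C_sub, sub_mul, Finset.sum_sub_distrib]
  ring

theorem mp_eval (x : Fin n → R) (t : R) : (mp x).eval t = t ^ n + (lp x).eval t := by
  rw [mp_eq, eval_add, eval_pow, eval_X]

theorem lp_eval (x : Fin n → R) (t : R) : (lp x).eval t = ∑ i : Fin n, x i * t ^ (i : ℕ) := by
  simp [lp, eval_finsetSum]

/-- The resultant of a monic polynomial with its derivative. -/
noncomputable def dd (n : ℕ) (h : R[X]) : R := resultant h (derivative h) n (n - 1)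

/-- The resultant with a fixed polynomial. -/
noncomputable def rr (n : ℕ) (h g : R[X]) : R := resultant h g n g.natDegree

theorem dd_map (f : R →+* S) (n : ℕ) (h : R[X]) : dd n (h.map f) = f (dd n h) := by
  rw [dd, derivative_map, resultant_map_map, dd]

theorem rr_map (f : R →+* S) (n : ℕ) (h g : R[X]) (hg : (g.map f).natDegree = g.natDegree) :
    rr n (h.map f) (g.map f) = f (rr n h g) := by
  rw [rr, resultant_map_map, hg, rr]

end Ring

section Field

variable {k : Type*} [Field k]

/-- Two polynomials of degree less than `n` which agree at `0, …, n - 1`. -/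
theorem eq_of_values [CharZero k] {n : ℕ} {f g : k[X]} (hf : (f - g).degree < n)
    (h : ∀ j : Fin n, f.eval ((j : ℕ) : k) = g.eval ((j : ℕ) : k)) : f = g := by
  classical
  rw [← sub_eq_zero]
  have hinj : Function.Injective fun j : Fin n => ((j : ℕ) : k) := fun i j hij =>
    Fin.ext (Nat.cast_injective hij)
  refine eq_zero_of_degree_lt_of_eval_finset_eq_zero (Finset.univ.image fun j : Fin n =>
    ((j : ℕ) : k)) ?_ ?_
  · rwa [Finset.card_image_of_injective _ hinj, Finset.card_univ, Fintype.card_fin]
  · intro x hx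
    obtain ⟨j, -, rfl⟩ := Finset.mem_image.mp hx
    rw [eval_sub, h j, sub_self]

variable [IsAlgClosed k]

theorem dd_eq {n : ℕ} {h : k[X]} (hm : h.Monic) (hn : h.natDegree = n) :
    dd n h = (h.roots.map fun z => (derivative h).eval z).prod := by
  rw [dd, ← hn, resultant_eq_prod_eval h _ _ (natDegree_derivative_le h) (IsAlgClosed.splits h),
    hm.leadingCoeff, one_pow, one_mul]

theorem rr_eq {n : ℕ} {h g : k[X]} (hm : h.Monic) (hn : h.natDegree = n) :
    rr n h g = (h.roots.map fun z => g.eval z).prod := by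
  rw [rr, ← hn, resultant_eq_prod_eval h _ _ le_rfl (IsAlgClosed.splits h),
    hm.leadingCoeff, one_pow, one_mul]

theorem rr_mul {a b : ℕ} {f h g : k[X]} (hf : f.Monic) (hh : h.Monic) (ha : f.natDegree = a)
    (hb : h.natDegree = b) : rr (a + b) (f * h) g = rr a f g * rr b h g := by
  rw [rr_eq (hf.mul hh) (by rw [hf.natDegree_mul hh, ha, hb]), rr_eq hf ha, rr_eq hh hb,
    roots_mul (mul_ne_zero hf.ne_zero hh.ne_zero), Multiset.map_add, Multiset.prod_add]

theorem dd_mul {a b : ℕ} {f h : k[X]} (hf : f.Monic) (hh : h.Monic) (ha : f.natDegree = a)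
    (hb : h.natDegree = b) :
    dd (a + b) (f * h) = (dd a f * dd b h) * (rr a f h * rr b h f) := by
  rw [dd_eq (hf.mul hh) (by rw [hf.natDegree_mul hh, ha, hb]), dd_eq hf ha, dd_eq hh hb,
    rr_eq hf ha, rr_eq hh hb, roots_mul (mul_ne_zero hf.ne_zero hh.ne_zero), Multiset.map_add,
    Multiset.prod_add]
  have h1 : (f.roots.map fun z => (derivative (f * h)).eval z) =
      f.roots.map fun z => (derivative f).eval z * h.eval z := by
    refine Multiset.map_congr rfl fun z hz => ?_
    rw [derivative_mul, eval_add, eval_mul, eval_mul, (mem_roots'.mp hz).2, zero_mul, add_zero]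
  have h2 : (h.roots.map fun z => (derivative (f * h)).eval z) =
      h.roots.map fun z => (derivative h).eval z * f.eval z := by
    refine Multiset.map_congr rfl fun z hz => ?_
    rw [derivative_mul, eval_add, eval_mul, eval_mul, (mem_roots'.mp hz).2, mul_zero, zero_add,
      mul_comm]
  rw [h1, h2, Multiset.prod_map_mul, Multiset.prod_map_mul]
  ring

theorem rr_one {g : k[X]} : rr 0 (1 : k[X]) g = 1 := by
  rw [rr_eq monic_one natDegree_one]
  simp

theorem dd_one : dd 0 (1 : k[X]) = 1 := by
  rw [dd_eq monic_one natDegree_one]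
  simp

/-- A translation of the roots. -/
theorem roots_shift {h : k[X]} (hm : h.Monic) (c : k) :
    (h.comp (X - C c)).roots = h.roots.map fun z => z + c := by
  have h1 := (IsAlgClosed.splits h).eq_prod_roots_of_monic hm
  conv_lhs => rw [h1]
  rw [multiset_prod_comp, Multiset.map_map]
  have h2 : (h.roots.map ((fun q : k[X] => q.comp (X - C c)) ∘ fun a => X - C a)) =
      (h.roots.map fun z => z + c).map fun a => X - C a := by
    rw [Multiset.map_map]
    refine Multiset.map_congr rfl fun z _ => ?_
    simp only [Function.comp_apply, sub_comp, X_comp, C_comp, C_add]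
    ring
  rw [h2, roots_multiset_prod_X_sub_C]

omit [IsAlgClosed k] in
theorem monic_shift {h : k[X]} (hm : h.Monic) (c : k) : (h.comp (X - C c)).Monic :=
  hm.comp (monic_X_sub_C c) (by simp)

omit [IsAlgClosed k] in
theorem natDegree_shift (h : k[X]) (c : k) : (h.comp (X - C c)).natDegree = h.natDegree := by
  rw [natDegree_comp, natDegree_X_sub_C, mul_one]

theorem dd_shift {n : ℕ} {h : k[X]} (hm : h.Monic) (hn : h.natDegree = n) (c : k) :
    dd n (h.comp (X - C c)) = dd n h := by
  rw [dd_eq (monic_shift hm c) (by rw [natDegree_shift, hn]), dd_eq hm hn, roots_shift hm,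
    Multiset.map_map]
  congr 1
  refine Multiset.map_congr rfl fun z _ => ?_
  simp [derivative_comp, eval_comp]

theorem rr_shift {n : ℕ} {h : k[X]} (hm : h.Monic) (hn : h.natDegree = n) (c : k) (g : k[X]) :
    rr n (h.comp (X - C c)) g = rr n h (g.comp (X + C c)) := by
  rw [rr_eq (monic_shift hm c) (by rw [natDegree_shift, hn]), rr_eq hm hn, roots_shift hm,
    Multiset.map_map]
  congr 1
  refine Multiset.map_congr rfl fun z _ => ?_
  simp [eval_comp]

theorem rr_mul_right {n : ℕ} {h : k[X]} (hm : h.Monic) (hn : h.natDegree = n) (f g : k[X]) :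
    rr n h (f * g) = rr n h f * rr n h g := by
  rw [rr_eq hm hn, rr_eq hm hn, rr_eq hm hn, ← Multiset.prod_map_mul]
  simp only [eval_mul]

theorem rr_one_right {n : ℕ} {h : k[X]} (hm : h.Monic) (hn : h.natDegree = n) :
    rr n h 1 = 1 := by
  rw [rr_eq hm hn]
  simp

theorem rr_X_sub_C_pow {n : ℕ} (c : k) (g : k[X]) :
    rr n ((X - C c) ^ n) g = g.eval c ^ n := by
  rw [rr_eq ((monic_X_sub_C c).pow n) (by simp), roots_pow, roots_X_sub_C,
    Multiset.map_nsmul, Multiset.prod_nsmul]
  simp

omit [IsAlgClosed k] in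
theorem rr_ne_zero {n : ℕ} {h g : k[X]} (hn : h.natDegree = n)
    (hc : IsCoprime h g) : rr n h g ≠ 0 := by
  rw [rr, ← hn]
  exact resultant_ne_zero h g hc

theorem rr_prod {ι : Type*} (s : Finset ι) (h : ι → k[X]) (g : k[X]) (e : ℕ)
    (hm : ∀ i ∈ s, (h i).Monic) (hd : ∀ i ∈ s, (h i).natDegree = e) :
    rr (s.card * e) (∏ i ∈ s, h i) g = ∏ i ∈ s, rr e (h i) g := by
  classical
  induction s using Finset.induction_on with
  | empty => simpa using rr_one
  | insert a s ha ih =>
    have h1 : ∀ i ∈ s, (h i).Monic := fun i hi => hm i (Finset.mem_insert_of_mem hi)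
    have h2 : ∀ i ∈ s, (h i).natDegree = e := fun i hi => hd i (Finset.mem_insert_of_mem hi)
    rw [Finset.prod_insert ha, Finset.prod_insert ha, Finset.card_insert_of_notMem ha,
      add_comm s.card 1, add_mul, one_mul, rr_mul (hm a (Finset.mem_insert_self a s))
        (monic_prod_of_monic s h h1) (hd a (Finset.mem_insert_self a s)) (by
          rw [natDegree_prod_of_monic s h h1, Finset.sum_congr rfl h2, Finset.sum_const,
            smul_eq_mul]), ih h1 h2]

theorem rr_prod_right {n : ℕ} {ι : Type*} (s : Finset ι) (f : k[X]) (hf : f.Monic)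
    (hn : f.natDegree = n) (h : ι → k[X]) :
    rr n f (∏ i ∈ s, h i) = ∏ i ∈ s, rr n f (h i) := by
  classical
  induction s using Finset.induction_on with
  | empty =>
    rw [Finset.prod_empty, Finset.prod_empty, rr_eq hf hn]
    simp
  | insert a s ha ih =>
    rw [Finset.prod_insert ha, Finset.prod_insert ha, ← ih, rr_eq hf hn, rr_eq hf hn,
      rr_eq hf hn]
    simp only [eval_mul, Multiset.prod_map_mul]

/-- The discriminant of a product. -/
theorem dd_prod {ι : Type*} [DecidableEq ι] (s : Finset ι) (h : ι → k[X]) (e : ℕ)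
    (hm : ∀ i ∈ s, (h i).Monic) (hd : ∀ i ∈ s, (h i).natDegree = e) :
    dd (s.card * e) (∏ i ∈ s, h i) =
      (∏ i ∈ s, dd e (h i)) * ∏ ij ∈ s.offDiag, rr e (h ij.1) (h ij.2) := by
  induction s using Finset.induction_on with
  | empty => simpa using dd_one
  | insert a s ha ih =>
    have h1 : ∀ i ∈ s, (h i).Monic := fun i hi => hm i (Finset.mem_insert_of_mem hi)
    have h2 : ∀ i ∈ s, (h i).natDegree = e := fun i hi => hd i (Finset.mem_insert_of_mem hi)
    have h3 : (∏ i ∈ s, h i).natDegree = s.card * e := by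
      rw [natDegree_prod_of_monic s h h1, Finset.sum_congr rfl h2, Finset.sum_const, smul_eq_mul]
    rw [Finset.prod_insert ha, Finset.prod_insert ha, Finset.card_insert_of_notMem ha,
      add_comm s.card 1, add_mul, one_mul, dd_mul (hm a (Finset.mem_insert_self a s))
        (monic_prod_of_monic s h h1) (hd a (Finset.mem_insert_self a s)) h3, ih h1 h2,
      rr_prod_right s _ (hm a (Finset.mem_insert_self a s)) (hd a (Finset.mem_insert_self a s)),
      rr_prod s h _ e h1 h2, Finset.offDiag_insert]
    rw [Finset.prod_union, Finset.prod_union]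
    · rw [Finset.prod_product, Finset.prod_product_right]
      simp only [Finset.prod_singleton]
      ring
    · rw [Finset.disjoint_left]
      rintro ⟨i, j⟩ hij hij'
      simp only [Finset.mem_offDiag, Finset.mem_product, Finset.mem_singleton] at hij hij'
      exact ha (hij'.1 ▸ hij.1)
    · rw [Finset.disjoint_left]
      rintro ⟨i, j⟩ hij hij'
      simp only [Finset.mem_union, Finset.mem_offDiag, Finset.mem_product,
        Finset.mem_singleton] at hij hij'
      rcases hij with h4 | h4
      · exact ha (hij'.2 ▸ h4.2.1)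
      · exact ha (h4.1 ▸ hij'.1)
    exact ha

end Field

end Pool.Agent.H942.DP
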