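import Pool.Agent.H942.DP.Scale
import Pool.Agent.H942.DP.Poly

set_option autoImplicit false

/-! Integral polynomials over an ultrametric field, the finite extensions of `ℚ_p` in a fixed
algebraic closure, and the weight function on the space of monic polynomials. -/

namespace Pool.Agent.H942.DP

open MeasureTheory Metric Set Polynomial

section Int1

variable {k : Type*} [NormedField k] [IsUltrametricDist k]

/-- All coefficients have norm at most one. -/
def Int1 (h : k[X]) : Prop := ∀ i, ‖h.coeff i‖ ≤ 1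

variable (k) in
/-- The elements of norm at most one. -/
def ring1 : Subring k where
  carrier := {x | ‖x‖ ≤ 1}
  mul_mem' := fun {x y} hx hy => by
    have hx' : ‖x‖ ≤ 1 := hx
    have hy' : ‖y‖ ≤ 1 := hy
    change ‖x * y‖ ≤ 1
    rw [norm_mul]
    exact mul_le_one₀ hx' (norm_nonneg y) hy'
  one_mem' := by
    change ‖(1 : k)‖ ≤ 1
    rw [norm_one]
  add_mem' := fun {x y} hx hy => (IsUltrametricDist.norm_add_le_max x y).trans (max_le hx hy)
  zero_mem' := by
    change ‖(0 : k)‖ ≤ 1
    rw [norm_zero]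
    exact zero_le_one
  neg_mem' := fun {x} hx => by
    change ‖-x‖ ≤ 1
    rw [norm_neg]
    exact hx

theorem Int1.exists_lift {h : k[X]} (hh : Int1 h) :
    ∃ h' : (ring1 k)[X], h'.map (ring1 k).subtype = h := by
  have h1 : h ∈ lifts (ring1 k).subtype := by
    rw [lifts_iff_coeff_lifts]
    intro i
    exact ⟨⟨h.coeff i, hh i⟩, rfl⟩
  exact mem_lifts h |>.mp h1

theorem int1_of_lift (h' : (ring1 k)[X]) : Int1 (h'.map (ring1 k).subtype) := by
  intro i
  rw [coeff_map]
  exact (h'.coeff i).2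

theorem Int1.mul {f g : k[X]} (hf : Int1 f) (hg : Int1 g) : Int1 (f * g) := by
  obtain ⟨f', rfl⟩ := hf.exists_lift
  obtain ⟨g', rfl⟩ := hg.exists_lift
  rw [← Polynomial.map_mul]
  exact int1_of_lift _

theorem Int1.comp {f g : k[X]} (hf : Int1 f) (hg : Int1 g) : Int1 (f.comp g) := by
  obtain ⟨f', rfl⟩ := hf.exists_lift
  obtain ⟨g', rfl⟩ := hg.exists_lift
  rw [← Polynomial.map_comp]
  exact int1_of_lift _

theorem int1_one : Int1 (1 : k[X]) := by
  have := int1_of_lift (1 : (ring1 k)[X])
  simpa using this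

theorem int1_X_sub_C {c : k} (hc : ‖c‖ ≤ 1) : Int1 (X - C c) := by
  have := int1_of_lift (X - C (⟨c, hc⟩ : ring1 k))
  simpa using this

theorem int1_X_add_C {c : k} (hc : ‖c‖ ≤ 1) : Int1 (X + C c) := by
  have := int1_of_lift (X + C (⟨c, hc⟩ : ring1 k))
  simpa using this

theorem Int1.pow {f : k[X]} (hf : Int1 f) (m : ℕ) : Int1 (f ^ m) := by
  induction m with
  | zero => simpa using int1_one
  | succ m ih =>
    rw [pow_succ]
    exact ih.mul hf

theorem int1_mp {n : ℕ} {x : Fin n → k} (hx : ∀ i, ‖x i‖ ≤ 1) : Int1 (mp x) := by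
  have h1 := int1_of_lift (mp fun i => (⟨x i, hx i⟩ : ring1 k))
  rw [mp_map] at h1
  exact h1

theorem int1_mp_iff {n : ℕ} {x : Fin n → k} : Int1 (mp x) ↔ ∀ i, ‖x i‖ ≤ 1 := by
  refine ⟨fun h i => ?_, int1_mp⟩
  have := h i
  rwa [mp_coeff] at this

theorem int1_int (P : ℤ[X]) : Int1 (P.map (Int.castRingHom k)) := by
  have := int1_of_lift (P.map (Int.castRingHom (ring1 k)))
  rw [Polynomial.map_map] at this
  have e : (ring1 k).subtype.comp (Int.castRingHom (ring1 k)) = Int.castRingHom k :=
    RingHom.ext_int _ _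
  rwa [e] at this

theorem norm_dd_le {h : k[X]} (hh : Int1 h) (n : ℕ) : ‖dd n h‖ ≤ 1 := by
  obtain ⟨h', rfl⟩ := hh.exists_lift
  rw [dd_map]
  exact (dd n h').2

theorem norm_rr_le {h g : k[X]} (hh : Int1 h) (hg : Int1 g) (n : ℕ) : ‖rr n h g‖ ≤ 1 := by
  obtain ⟨h', rfl⟩ := hh.exists_lift
  obtain ⟨g', rfl⟩ := hg.exists_lift
  rw [rr, resultant_map_map]
  exact (resultant h' g' n _).2

theorem Int1.of_mul_left {f g : k[X]} (hf : f.Monic) (hg : g.Monic) (h : Int1 (f * g)) :
    Int1 f := by
  have hna : IsNonarchimedean (NormedField.toAbsoluteValue k : k → ℝ) := fun x y =>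
    IsUltrametricDist.norm_add_le_max x y
  have h1 := gaussNorm_mul (v := NormedField.toAbsoluteValue k) hna one_pos f g
  have h2 : ∀ {q : k[X]}, q.Monic → 1 ≤ q.gaussNorm (NormedField.toAbsoluteValue k) 1 := by
    intro q hq
    have := le_gaussNorm (NormedField.toAbsoluteValue k) q zero_le_one q.natDegree
    rw [one_pow, mul_one, hq.coeff_natDegree] at this
    simpa using this
  obtain ⟨i, hi⟩ := exists_eq_gaussNorm (NormedField.toAbsoluteValue k) 1 (f * g)
  rw [one_pow, mul_one] at hi
  have h3 : (f * g).gaussNorm (NormedField.toAbsoluteValue k) 1 ≤ 1 := by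
    rw [hi]
    exact h i
  rw [h1] at h3
  have h4 : f.gaussNorm (NormedField.toAbsoluteValue k) 1 ≤ 1 := by
    have h5 := h2 hf
    have h6 := h2 hg
    nlinarith
  intro j
  have h7 := le_gaussNorm (NormedField.toAbsoluteValue k) f zero_le_one j
  rw [one_pow, mul_one] at h7
  exact h7.trans h4

theorem Int1.of_mul_right {f g : k[X]} (hf : f.Monic) (hg : g.Monic) (h : Int1 (f * g)) :
    Int1 g := by
  rw [mul_comm] at h
  exact h.of_mul_left hg hf

/-- The roots of an integral monic polynomial. -/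
theorem Int1.root {f : k[X]} (hf : f.Monic) (h : Int1 f) {z : k} (hz : f.IsRoot z) : ‖z‖ ≤ 1 := by
  obtain ⟨g, hg⟩ := dvd_iff_isRoot.mpr hz
  have hgm : g.Monic := (monic_X_sub_C z).of_mul_monic_left (hg ▸ hf)
  rw [hg] at h
  have h1 := h.of_mul_left (monic_X_sub_C z) hgm 0
  simpa using h1

end Int1

section Om

variable (p : ℕ) [hp : Fact p.Prime]

noncomputable scoped instance instMeasOm : MeasurableSpace (PadicAlgCl p) := borel _

scoped instance instBorelOm : BorelSpace (PadicAlgCl p) := ⟨rfl⟩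

scoped instance instProperK (K : IntermediateField ℚ_[p] (PadicAlgCl p))
    [FiniteDimensional ℚ_[p] K] : ProperSpace K := FiniteDimensional.proper ℚ_[p] K

variable {p}

/-- The conjugates have the same norm. -/
theorem norm_conj {K : IntermediateField ℚ_[p] (PadicAlgCl p)} (σ : K →ₐ[ℚ_[p]] PadicAlgCl p)
    (u : K) : ‖σ u‖ = ‖u‖ := by
  have h1 : ‖u‖ = ‖((u : K) : PadicAlgCl p)‖ := rfl
  rw [h1, ← PadicAlgCl.spectralNorm_eq, ← PadicAlgCl.spectralNorm_eq, spectralNorm, spectralNorm,
    minpoly.algHom_eq σ σ.injective u]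
  congr 1
  exact (minpoly.algHom_eq K.val K.val.injective u).symm

theorem norm_pow_finrank {K : IntermediateField ℚ_[p] (PadicAlgCl p)} [FiniteDimensional ℚ_[p] K]
    (u : K) : ‖u‖ ^ Module.finrank ℚ_[p] K = ‖Algebra.norm ℚ_[p] u‖ := by
  have h1 := Algebra.norm_eq_prod_embeddings ℚ_[p] (PadicAlgCl p) u
  have h2 := congrArg norm h1
  rw [norm_prod, Finset.prod_congr rfl fun σ _ => norm_conj σ u, Finset.prod_const,
    Finset.card_univ, AlgHom.card ℚ_[p] K (PadicAlgCl p), norm_algebraMap'] at h2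
  exact h2.symm

theorem norm_pow_finrank_eq {K : IntermediateField ℚ_[p] (PadicAlgCl p)}
    [FiniteDimensional ℚ_[p] K] (u : K) (hu : ‖u‖ ≤ 1) :
    ‖u‖ ^ Module.finrank ℚ_[p] K = 0 ∨
      ∃ k : ℕ, ‖u‖ ^ Module.finrank ℚ_[p] K = ((p : ℝ) ^ k)⁻¹ := by
  have h1 := norm_pow_finrank u
  have h2 : ‖Algebra.norm ℚ_[p] u‖ ≤ 1 := by
    rw [← h1]
    exact pow_le_one₀ (norm_nonneg _) hu
  by_cases h0 : Algebra.norm ℚ_[p] u = 0
  · left
    rw [h1, h0, norm_zero]
  · right
    let q : ℤ_[p] := ⟨Algebra.norm ℚ_[p] u, h2⟩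
    have hq : q ≠ 0 := by
      intro hq
      apply h0
      exact congrArg (fun x : ℤ_[p] => (x : ℚ_[p])) hq
    refine ⟨q.valuation, ?_⟩
    have h3 := PadicInt.norm_eq_zpow_neg_valuation hq
    rw [zpow_neg, zpow_natCast] at h3
    rw [h1, ← h3]
    rfl

/-- The polynomial over the algebraic closure. -/
noncomputable def up {K : IntermediateField ℚ_[p] (PadicAlgCl p)} {n : ℕ} (x : Fin n → K) :
    (PadicAlgCl p)[X] := mp fun i => (x i : PadicAlgCl p)

theorem up_eq {K : IntermediateField ℚ_[p] (PadicAlgCl p)} {n : ℕ} (x : Fin n → K) :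
    up x = (mp x).map (algebraMap K (PadicAlgCl p)) := by
  rw [mp_map]
  rfl

theorem up_monic {K : IntermediateField ℚ_[p] (PadicAlgCl p)} {n : ℕ} (x : Fin n → K) :
    (up x).Monic := mp_monic _

theorem up_natDegree {K : IntermediateField ℚ_[p] (PadicAlgCl p)} {n : ℕ} (x : Fin n → K) :
    (up x).natDegree = n := mp_natDegree _

theorem int1_up {K : IntermediateField ℚ_[p] (PadicAlgCl p)} {n : ℕ} {x : Fin n → K}  :
    Int1 (up x) ↔ x ∈ closedBall (0 : Fin n → K) 1 := by
  rw [up, int1_mp_iff, mem_closedBall, dist_zero_right, pi_norm_le_iff_of_nonneg zero_le_one]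
  rfl

/-- The weight. -/
noncomputable def wt (a : ℕ) (K : IntermediateField ℚ_[p] (PadicAlgCl p)) (n : ℕ)
    (H : (PadicAlgCl p)[X]) (x : Fin n → K) : ℝ :=
  (‖dd n (up x)‖ ^ a * ‖rr n (up x) H‖) ^ Module.finrank ℚ_[p] K

theorem continuous_coeff {K : IntermediateField ℚ_[p] (PadicAlgCl p)} {n : ℕ} (i : ℕ) :
    Continuous fun x : Fin n → K => (up x).coeff i := by
  simp only [up, mp_coeff']
  refine continuous_const.add ?_
  split_ifs with h
  · exact continuous_subtype_val.comp (continuous_apply _)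
  · exact continuous_const

theorem continuous_dd {K : IntermediateField ℚ_[p] (PadicAlgCl p)} {n : ℕ} :
    Continuous fun x : Fin n → K => dd n (up x) := by
  unfold dd resultant
  refine Continuous.matrix_det (continuous_matrix fun i j => ?_)
  induction j using Fin.addCases with
  | left j =>
    simp only [sylvester, Matrix.of_apply, Fin.addCases_left, coeff_derivative]
    split_ifs
    · exact (continuous_coeff _).mul continuous_const
    · exact continuous_const
  | right j =>
    simp only [sylvester, Matrix.of_apply, Fin.addCases_right]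
    split_ifs
    · exact continuous_coeff _
    · exact continuous_const

theorem continuous_rr {K : IntermediateField ℚ_[p] (PadicAlgCl p)} {n : ℕ}
    (H : (PadicAlgCl p)[X]) : Continuous fun x : Fin n → K => rr n (up x) H := by
  unfold rr resultant
  refine Continuous.matrix_det (continuous_matrix fun i j => ?_)
  induction j using Fin.addCases with
  | left j =>
    simp only [sylvester, Matrix.of_apply, Fin.addCases_left]
    exact continuous_const
  | right j =>
    simp only [sylvester, Matrix.of_apply, Fin.addCases_right]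
    split_ifs
    · exact continuous_coeff _
    · exact continuous_const

theorem continuous_wt (a : ℕ) (K : IntermediateField ℚ_[p] (PadicAlgCl p)) (n : ℕ)
    (H : (PadicAlgCl p)[X]) : Continuous (wt a K n H) := by
  unfold wt
  exact ((continuous_dd.norm.pow a).mul (continuous_rr H).norm).pow _

theorem adm_wt (a : ℕ) (K : IntermediateField ℚ_[p] (PadicAlgCl p)) [FiniteDimensional ℚ_[p] K]
    (n : ℕ) (P : ℤ[X]) :
    Adm p (wt a K n (P.map (Int.castRingHom (PadicAlgCl p)))) (closedBall 0 1) := by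
  refine ⟨continuous_wt a K n _, fun x hx => ?_⟩
  have h1 := int1_up.mpr hx
  set u : K := dd n (mp x) ^ a * rr n (mp x) (P.map (Int.castRingHom K)) with hu
  have e2 : ((P.map (Int.castRingHom K)).map (algebraMap K (PadicAlgCl p))) =
      P.map (Int.castRingHom (PadicAlgCl p)) := by
    rw [Polynomial.map_map]
    congr 1
  have h2 : wt a K n (P.map (Int.castRingHom (PadicAlgCl p))) x =
      ‖u‖ ^ Module.finrank ℚ_[p] K := by
    have e1 : ‖u‖ = ‖algebraMap K (PadicAlgCl p) u‖ := rfl
    rw [wt, e1, hu, map_mul, map_pow, ← dd_map, ← rr_map, e2, norm_mul, norm_pow, ← up_eq]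
    exact natDegree_map_eq_of_injective (algebraMap K (PadicAlgCl p)).injective _
  rw [h2]
  refine norm_pow_finrank_eq u ?_
  have e1 : ‖u‖ = ‖algebraMap K (PadicAlgCl p) u‖ := rfl
  rw [e1, hu, map_mul, map_pow, ← dd_map, ← rr_map, e2, norm_mul, norm_pow, ← up_eq]
  · exact mul_le_one₀ (pow_le_one₀ (norm_nonneg _) (norm_dd_le h1 n)) (norm_nonneg _)
      (norm_rr_le h1 (int1_int P) n)
  · exact natDegree_map_eq_of_injective (algebraMap K (PadicAlgCl p)).injective _

end Om

end Pool.Agent.H942.DP
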