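import Pool.Agent.H942.DP.Link2

set_option autoImplicit false

/-! The poles of the Poincaré series of the polynomials `disc ^ a * Res(h, G)`. -/

namespace Pool.Agent.H942.DP

open Polynomial
open Pool.Agent.K3h15.DM (IsDisc hz)
open Pool.Agent.H628R4.TP (IsBFunction)
open Pool.Agent.W206.CU (poincare IsPoleOfOrder)

theorem disc_ne_zero {n : ℕ} {Fd : MvPolynomial (Fin n) ℂ} (hFd : IsDisc n Fd) : Fd ≠ 0 := by
  rintro rfl
  have h1 := hFd fun i => ((i : ℕ) : ℂ)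
  rw [map_zero] at h1
  have h2 : ∏ i : Fin n, ∏ j ∈ Finset.Ioi i, ((((j : ℕ) : ℂ)) - ((i : ℕ) : ℂ)) ^ 2 ≠ 0 := by
    refine Finset.prod_ne_zero_iff.mpr fun i _ => Finset.prod_ne_zero_iff.mpr fun j hj => ?_
    refine pow_ne_zero _ (sub_ne_zero.mpr fun h => ?_)
    have h3 : (j : ℕ) = i := by exact_mod_cast h
    rw [Finset.mem_Ioi] at hj
    exact hj.ne' (Fin.ext h3)
  exact h2 h1.symm

theorem hz_ne_zero {n : ℕ} (z : ℂ) : hz n z ≠ 0 := by
  intro h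
  have h1 := eval_hz z (t0 n (z - 1))
  rw [h, map_zero, mp_t0, eval_pow] at h1
  simp at h1

theorem polyDR_ne_zero {n : ℕ} (hn : 1 ≤ n) (a : ℕ) {G : ℤ[X]} (hG : G ≠ 0) :
    polyDR n a G ≠ 0 := by
  obtain ⟨Fd, hFd, -⟩ := Pool.Agent.K3h15.DM.disc_unique n
  obtain ⟨c, r, z, b, hc, -, -, h, -⟩ := complex_factor hn a hG hFd
  intro h0
  rw [h0, map_zero] at h
  refine absurd h.symm (mul_ne_zero ?_ (mul_ne_zero (pow_ne_zero _ (disc_ne_zero hFd))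
    (Finset.prod_ne_zero_iff.mpr fun j _ => pow_ne_zero _ (hz_ne_zero _))))
  rwa [Ne, MvPolynomial.C_eq_zero]

/-- The allowed denominators. -/
def AA (a n0 : ℕ) (G : ℤ[X]) (ν N : ℕ) : Prop :=
  (∃ m, 2 ≤ m ∧ m ≤ n0 ∧ ν * (2 * a * m) = N * (m + 2)) ∨
  ∃ (m : ℕ) (w : ℂ), 1 ≤ m ∧ m ≤ n0 ∧ 1 ≤ (G.map (Int.castRingHom ℂ)).rootMultiplicity w ∧
    ν * (2 * (a * (m - 1) + (G.map (Int.castRingHom ℂ)).rootMultiplicity w)) = N * (m + 1)

theorem two_sum (n : ℕ) : 2 * ∑ i : Fin n, (n - (i : ℕ)) = n * (n + 1) := by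
  have h1 : ∑ i : Fin n, (n - (i : ℕ)) = ∑ i ∈ Finset.range n, (n - i) :=
    Fin.sum_univ_eq_sum_range (fun i => n - i) n
  have h2 : ∑ i ∈ Finset.range n, (n - i) = ∑ i ∈ Finset.range n, (i + 1) := by
    rw [← Finset.sum_range_reflect (fun i => i + 1) n]
    refine Finset.sum_congr rfl fun i hi => ?_
    rw [Finset.mem_range] at hi
    omega
  rw [h1, h2, Finset.sum_add_distrib, Finset.sum_const, Finset.card_range, smul_eq_mul, mul_one,
    mul_add, mul_comm 2 (∑ i ∈ Finset.range n, i), Finset.sum_range_id_mul_two]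
  rcases n with _ | n
  · rfl
  · simp only [Nat.add_sub_cancel]
    ring

theorem adm2_AA {p : ℕ} [Fact p.Prime] {a n0 : ℕ} {G : ℤ[X]} (hG : G ≠ 0) :
    Adm2 p (AA a n0 G) a n0 {b | ∃ r : PadicAlgCl p, b = (toOm p G).rootMultiplicity r} := by
  constructor
  · intro n hn hn0 K _
    left
    refine ⟨n, hn, hn0, ?_⟩
    have h1 := two_sum n
    have h2 : 2 * (∑ i : Fin n, (n - (i : ℕ)) - 1) = (n - 1) * (n + 2) := by
      obtain ⟨m, rfl⟩ : ∃ m, n = m + 1 := ⟨n - 1, by omega⟩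
      rw [Nat.mul_sub, h1, Nat.add_sub_cancel]
      have : (m + 1) * (m + 1 + 1) = m * (m + 1 + 2) + 2 * 1 := by ring
      omega
    rw [NN]
    calc Module.finrank ℚ_[p] K * (∑ i : Fin n, (n - (i : ℕ)) - 1) * (2 * a * n)
        = Module.finrank ℚ_[p] K * (2 * (∑ i : Fin n, (n - (i : ℕ)) - 1)) * (a * n) := by ring
      _ = (a * (n * (n - 1)) + n * 0) * Module.finrank ℚ_[p] K * (n + 2) := by
          rw [h2]
          ring
  · rintro n b hn hn0 hb ⟨r, rfl⟩ K _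
    right
    obtain ⟨w, hw⟩ := mult_transfer (L := PadicAlgCl p) hG hb
    have hw' : (G.map (Int.castRingHom ℂ)).rootMultiplicity w =
      (toOm p G).rootMultiplicity r := hw
    refine ⟨n, w, hn, hn0, by rw [hw']; exact hb, ?_⟩
    rw [hw', NN]
    have h1 := two_sum n
    generalize (toOm p G).rootMultiplicity r = b
    calc Module.finrank ℚ_[p] K * (∑ i : Fin n, (n - (i : ℕ))) * (2 * (a * (n - 1) + b))
        = Module.finrank ℚ_[p] K * (2 * ∑ i : Fin n, (n - (i : ℕ))) * (a * (n - 1) + b) := by ring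
      _ = (a * (n * (n - 1)) + n * b) * Module.finrank ℚ_[p] K * (n + 1) := by
          rw [h1]
          ring

theorem ratio {ν N u v : ℕ} (hN : 0 < N) (hu : 0 < u) (h : ν * u = N * v) :
    (ν : ℝ) / N = (v : ℝ) / u := by
  have h1 : (ν : ℝ) * u = N * v := by exact_mod_cast h
  have hN' : (N : ℝ) ≠ 0 := by exact_mod_cast hN.ne'
  have hu' : (u : ℝ) ≠ 0 := by exact_mod_cast hu.ne'
  field_simp
  linarith

theorem pole_list {n a : ℕ} (hn : 1 ≤ n) (ha : 1 ≤ a) {G : ℤ[X]} (hG : G ≠ 0) {p : ℕ}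
    (hp : p.Prime) {T₀ : ℂ} {μ : ℕ} (hμ : 0 < μ)
    (hT : IsPoleOfOrder (poincare p (polyDR n a G)) T₀ μ) :
    (∃ m : ℕ, 2 ≤ m ∧ m ≤ n ∧
      -Real.log ‖T₀‖ / Real.log p = -(((m : ℝ) + 2) / (2 * a * m))) ∨
    ∃ (m : ℕ) (w : ℂ), 1 ≤ m ∧ m ≤ n ∧
      1 ≤ (G.map (Int.castRingHom ℂ)).rootMultiplicity w ∧
      -Real.log ‖T₀‖ / Real.log p = -(((m : ℝ) + 1) /
        (2 * (a * ((m : ℝ) - 1) + (G.map (Int.castRingHom ℂ)).rootMultiplicity w))) := by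
  have : Fact p.Prime := ⟨hp⟩
  have hR := good_all (p := p) ha hG (adm2_AA hG) n hn le_rfl (Qb p)
    (Metric.closedBall 0 1) (Set.Subset.refl _) (ko_ball _ one_pos)
  obtain ⟨ν, N, hN, hA, hTN⟩ := pole_den (polyDR_ne_zero hn a hG) (wt_em hn a G) hR hμ hT
  rw [log_of_pow hN hTN]
  rcases hA with ⟨m, hm, hmn, h⟩ | ⟨m, w, hm, hmn, hw, h⟩
  · left
    refine ⟨m, hm, hmn, ?_⟩
    rw [ratio hN (Nat.mul_pos (Nat.mul_pos two_pos ha) (by omega)) h]
    push_cast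
    rfl
  · right
    refine ⟨m, w, hm, hmn, hw, ?_⟩
    rw [ratio hN (Nat.mul_pos two_pos (by omega)) h]
    push_cast [Nat.cast_sub hm]
    rfl

theorem pole_root {n a : ℕ} (hn : 1 ≤ n) (ha : 1 ≤ a) {G : ℤ[X]} (hG : G ≠ 0) {p : ℕ}
    (hp : p.Prime) {T₀ : ℂ} {μ : ℕ} (hμ : 0 < μ)
    (hT : IsPoleOfOrder (poincare p (polyDR n a G)) T₀ μ) {b : Polynomial ℂ}
    (hb : IsBFunction (MvPolynomial.map (Int.castRingHom ℂ) (polyDR n a G)) b) :
    b.eval ((-Real.log ‖T₀‖ / Real.log p : ℝ) : ℂ) = 0 := by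
  obtain ⟨Fd, hFd, -⟩ := Pool.Agent.K3h15.DM.disc_unique n
  obtain ⟨c, r, z, β, hc, hzi, hβ, h, hmult⟩ := complex_factor hn a hG hFd
  have hb2 : IsBFunction (Fd ^ a * ∏ j, hz n (z j) ^ β j) b := by
    have h1 := Pool.Agent.W206.CU.isBFunction_smul (inv_ne_zero hc) hb
    rw [h, ← mul_assoc, ← map_mul, inv_mul_cancel₀ hc, map_one, one_mul] at h1
    exact h1
  obtain ⟨h1, h2, -⟩ := (Pool.Agent.Results.MP_a2a574_ag.DiscriminantPowers.result n).2 Fd hFd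
    a r z β ha hzi hβ b hb2
  rcases pole_list hn ha hG hp hμ hT with ⟨m, hm, hmn, ht⟩ | ⟨m, w, hm, hmn, hw, ht⟩
  · have h3 := h1 m 0 hm hmn (by omega)
    rw [ht]
    have ha0 : (a : ℂ) ≠ 0 := by
      have : a ≠ 0 := by omega
      exact_mod_cast this
    have hm0 : (m : ℂ) ≠ 0 := by
      have : m ≠ 0 := by omega
      exact_mod_cast this
    have h4 : ((-(((m : ℝ) + 2) / (2 * a * m)) : ℝ) : ℂ) =
        -(1 / 2 + 1 / (m : ℂ) + ((0 : ℕ) : ℂ)) / a := by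
      push_cast
      field_simp
      ring
    rw [h4]
    exact h3
  · obtain ⟨j, hj⟩ := hmult w hw
    have h3 := h2 j m 0 0 hm hmn (by omega) (by omega) (Or.inl (by rw [hj]; omega))
    rw [ht]
    have h4 : ((-(((m : ℝ) + 1) / (2 * (a * ((m : ℝ) - 1) +
        (G.map (Int.castRingHom ℂ)).rootMultiplicity w))) : ℝ) : ℂ) =
        -(((m : ℂ) + 1) / 2 + ((0 : ℕ) : ℂ) * (m - 1) + ((0 : ℕ) : ℂ)) / (a * (m - 1) + β j) := by
      rw [hj]
      push_cast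
      rw [zero_mul, add_zero, add_zero, neg_div, div_div]
    rw [h4]
    exact h3

end Pool.Agent.H942.DP
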