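import Pool.Agent.H942.DP.Induct

set_option autoImplicit false

/-! The points `(X - c) ^ n` and the end of the induction. -/

namespace Pool.Agent.H942.DP

open MeasureTheory Metric Set Polynomial Topology Filter

variable {p : ℕ} [hp : Fact p.Prime] {A : ℕ → ℕ → Prop}

section K

variable {K : IntermediateField ℚ_[p] (PadicAlgCl p)} {n : ℕ}

/-- Not a power of a polynomial of degree one. -/
def NF (z : Fin n → K) : Prop := ∀ c : K, mp z ≠ (X - C c) ^ n

theorem exists_pow_lt (r : ℝ) (hr : 0 < r) : ∃ k : ℕ, ((p : ℝ) ^ k)⁻¹ ≤ r := by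
  have hp1 : (1 : ℝ) < p := by exact_mod_cast hp.out.one_lt
  obtain ⟨k, hk⟩ := exists_pow_lt_of_lt_one hr (inv_lt_one_of_one_lt₀ hp1)
  exact ⟨k, by rw [← inv_pow]; exact hk.le⟩

theorem up_tr (c : K) (x : Fin n → K) : up (tr c x) = (up x).comp (X - C (c : PadicAlgCl p)) := by
  rw [up_eq, up_eq, mp_tr, Polynomial.map_comp, Polynomial.map_sub, map_X, map_C]
  rfl

theorem sh_zero (c : K) : sh c (0 : Fin n → K) = 0 := (shE c).map_zero

theorem tr_box_dist {k : ℕ} {c : K} (hc : ‖c‖ ≤ 1) {y : Fin n → K}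
    (hy : y ∈ tr c '' box K n k) : dist y (t0 n c) ≤ ((p : ℝ) ^ k)⁻¹ := by
  obtain ⟨x, hx, rfl⟩ := hy
  have h1 := box_subset k hx
  rw [mem_closedBall, dist_zero_right] at h1
  rw [dist_eq_norm, tr, add_sub_cancel_left]
  exact (norm_sh_le hc x).trans h1

variable [FiniteDimensional ℚ_[p] K]

theorem exists_decomp (hn : 1 ≤ n) (k : ℕ) : ∃ F : Finset K, (∀ c ∈ F, ‖c‖ ≤ 1) ∧
    F.card = p ^ (k * Module.finrank ℚ_[p] K) ∧
    ((F : Set K).PairwiseDisjoint fun c => tr c '' box K n k) ∧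
    ∀ z : Fin n → K, z ∈ closedBall (0 : Fin n → K) 1 → ¬ NF z →
      ∃ c ∈ F, z ∈ tr c '' box K n k := by
  obtain ⟨F, h1, h2, h3, h4⟩ := exists_reps (p := p) (K := K) k
  refine ⟨F, h1, h4, ?_, ?_⟩
  · intro c hc c' hc' hne
    rw [Function.onFun, Set.disjoint_left]
    rintro y ⟨x, hx, rfl⟩ ⟨x', hx', hxx⟩
    have h5 : (up (tr c x)).natDegree ≠ 0 := by
      rw [up_natDegree]
      omega
    obtain ⟨z, hz⟩ := IsAlgClosed.exists_root (up (tr c x)) (by
      rw [degree_eq_natDegree (up_monic _).ne_zero]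
      exact_mod_cast h5)
    have h6 : ∀ {c : K} {x : Fin n → K}, x ∈ box K n k → (up (tr c x)).IsRoot z →
        ‖z - (c : PadicAlgCl p)‖ ≤ ((p : ℝ) ^ k)⁻¹ := by
      intro c x hx hz
      rw [up_tr, IsRoot, eval_comp] at hz
      simp only [eval_sub, eval_X, eval_C] at hz
      exact root_box hx hz
    have h7 := h6 hx hz
    rw [← hxx] at hz
    have h8 := h6 hx' hz
    have h9 : ‖c - c'‖ ≤ ((p : ℝ) ^ k)⁻¹ := by
      have e1 : ‖c - c'‖ = ‖(c : PadicAlgCl p) - (c' : PadicAlgCl p)‖ := rfl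
      have e2 : (c : PadicAlgCl p) - c' = -(z - c) + (z - c') := by ring
      rw [e1, e2]
      refine (IsUltrametricDist.norm_add_le_max _ _).trans (max_le ?_ h8)
      rwa [norm_neg]
    have h10 := h3 hc hc' hne
    rw [Function.onFun, Set.disjoint_left] at h10
    have hp0 : (0 : ℝ) < p := by exact_mod_cast hp.out.pos
    exact h10 (mem_closedBall_self (by positivity)) (by rwa [mem_closedBall, dist_eq_norm])
  · intro z hz hnf
    rw [NF] at hnf
    push Not at hnf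
    obtain ⟨u, hu⟩ := hnf
    have hu1 := norm_fold hn hz hu
    have hu2 : u ∈ closedBall (0 : K) 1 := by rwa [mem_closedBall, dist_zero_right]
    rw [h2] at hu2
    obtain ⟨c, hc, huc⟩ := mem_iUnion₂.mp hu2
    rw [mem_closedBall, dist_eq_norm] at huc
    refine ⟨c, hc, t0 n (u - c), t0_mem_box huc, ?_⟩
    apply mp_injective
    rw [mp_tr, mp_t0, hu, pow_comp, sub_comp, X_comp, C_comp, C_sub]
    congr 1
    ring

omit [FiniteDimensional ℚ_[p] K] in
theorem tr_box_sub {k : ℕ} {c : K} (hc : ‖c‖ ≤ 1) : tr c '' box K n k ⊆ closedBall 0 1 := by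
  rintro _ ⟨x, hx, rfl⟩
  exact tr_mem hc (box_sub k hx)

theorem ser_tr_box {a : ℕ} {c : K} (hc : ‖c‖ ≤ 1) (k : ℕ) :
    ser p (wt a K n (toOm p (X ^ 0))) (tr c '' box K n k) =
      ser p (wt a K n (toOm p (X ^ 0))) (box K n k) := by
  have h := ser_image (w := wt a K n (toOm p (X ^ 0))) (w' := wt a K n (toOm p (X ^ 0)))
    (φ := tr c) (c := 1) hp.out.one_lt (ko_box (K := K) (n := n) k) (adm_P (X ^ 0) (box_sub k))
    (fun W _ _ => by rw [vol_tr hc, one_mul]) (fun x _ => wt_tr x)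
  rw [h, map_one, one_mul]

theorem decomp {a : ℕ} (hn : 1 ≤ n) {V : Set (Fin n → K)} (hVO : V ⊆ closedBall 0 1) (hV : KO V)
    (k : ℕ) (hk : ∀ x ∈ V, closedBall x (((p : ℝ) ^ k)⁻¹) ⊆ V) :
    ∃ (m : ℕ) (V1 : Set (Fin n → K)), V1 ⊆ closedBall 0 1 ∧ KO V1 ∧ (∀ z ∈ V1, NF z) ∧
      ser p (wt a K n (toOm p (X ^ 0))) V = ser p (wt a K n (toOm p (X ^ 0))) V1 +
        PowerSeries.C (m : ℝ) * ser p (wt a K n (toOm p (X ^ 0))) (box K n k) ∧
      (V = closedBall 0 1 → m = p ^ (k * Module.finrank ℚ_[p] K)) := by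
  classical
  obtain ⟨F, h1, h2, h3, h4⟩ := exists_decomp (K := K) hn k
  set F' := F.filter fun c => t0 n c ∈ V with hF'
  set V2 : Set (Fin n → K) := ⋃ c ∈ F', tr c '' box K n k with hV2
  have hFF : ∀ c ∈ F', c ∈ F := fun c hc => (Finset.mem_filter.mp hc).1
  have hV2V : V2 ⊆ V := by
    intro y hy
    obtain ⟨c, hc, hy⟩ := mem_iUnion₂.mp hy
    have h5 := Finset.mem_filter.mp hc
    exact hk _ h5.2 (mem_closedBall.mpr (tr_box_dist (h1 c h5.1) hy))
  have hKO : ∀ c ∈ F', KO (tr c '' box K n k) := fun c _ => ko_tr c (ko_box k)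
  have hV2K : KO V2 := KO.biUnion hKO
  refine ⟨F'.card, V \ V2, sdiff_subset.trans hVO, hV.diff hV2K, ?_, ?_, ?_⟩
  · intro z hz
    by_contra hnf
    obtain ⟨c, hc, hzc⟩ := h4 z (hVO hz.1) hnf
    apply hz.2
    refine mem_iUnion₂.mpr ⟨c, Finset.mem_filter.mpr ⟨hc, ?_⟩, hzc⟩
    refine hk z hz.1 ?_
    rw [mem_closedBall, dist_comm]
    exact tr_box_dist (h1 c hc) hzc
  · have h5 : V = (V \ V2) ∪ V2 := (sdiff_union_of_subset hV2V).symm
    have h6 : ser p (wt a K n (toOm p (X ^ 0))) V2 =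
        PowerSeries.C (F'.card : ℝ) * ser p (wt a K n (toOm p (X ^ 0))) (box K n k) := by
      rw [hV2, ser_biUnion hp.out.one_lt F' _ _ hKO
        (fun c hc => adm_P (X ^ 0) (tr_box_sub (h1 c (hFF c hc))))
        (h3.subset (by exact_mod_cast Finset.filter_subset _ _)),
        Finset.sum_congr rfl fun c hc => ser_tr_box (h1 c (hFF c hc)) k, Finset.sum_const,
        nsmul_eq_mul, map_natCast]
    conv_lhs => rw [h5]
    rw [ser_union hp.out.one_lt (hV.diff hV2K) hV2K (adm_P (X ^ 0) (sdiff_subset.trans hVO))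
      (adm_P (X ^ 0) (hV2V.trans hVO)) disjoint_sdiff_left, h6]
  · intro hVe
    rw [← h2]
    congr 1
    refine Finset.filter_true_of_mem fun c hc => ?_
    rw [hVe]
    exact norm_t0_le (h1 c hc)

theorem rat_NF {a : ℕ} {P : ℤ[X]} (hn : 1 ≤ n) (hind : ∀ m, 1 ≤ m → m < n → Good p A a P m)
    {V : Set (Fin n → K)} (hVO : V ⊆ closedBall 0 1) (hV : KO V) (h : ∀ z ∈ V, NF z) :
    Rat p A (ser p (wt a K n (toOm p P)) V) :=
  rat_of_LG hp.out.one_lt hV (adm_P P hVO) fun z hz => lg_nonfold hn hind (hVO hz) (h z hz)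

omit [FiniteDimensional ℚ_[p] K] in
theorem wt_one {a : ℕ} (x : Fin 1 → K) : wt a K 1 (toOm p (X ^ 0)) x = 1 := by
  have h1 : derivative (up x) = 1 := by
    have h2 := (up_monic x).eq_X_add_C (up_natDegree x)
    rw [h2]
    simp
  rw [wt, toOm_X_pow, pow_zero, rr_one_right (up_monic x) (up_natDegree x),
    dd_eq (up_monic x) (up_natDegree x), h1]
  simp

theorem sum_box (n k : ℕ) : ∑ i : Fin n, k * (n - (i : ℕ)) = k * ∑ i : Fin n, (n - (i : ℕ)) :=
  (Finset.mul_sum _ _ _).symm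

theorem sum_pos {n : ℕ} (hn : 1 ≤ n) : 1 ≤ ∑ i : Fin n, (n - (i : ℕ)) := by
  have h := Finset.single_le_sum (f := fun i : Fin n => n - (i : ℕ)) (fun _ _ => Nat.zero_le _)
    (Finset.mem_univ (⟨0, by omega⟩ : Fin n))
  have h2 : n - ((⟨0, by omega⟩ : Fin n) : ℕ) = n := by simp
  omega

theorem rat_Z0 {a : ℕ} (ha : 1 ≤ a) (hn : 2 ≤ n)
    (hind : ∀ m, 1 ≤ m → m < n → Good p A a (X ^ 0) m)
    (hA : A (Module.finrank ℚ_[p] K * (∑ i : Fin n, (n - (i : ℕ)) - 1)) (NN K a n 0)) :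
    Rat p A (ser p (wt a K n (toOm p (X ^ 0))) (closedBall 0 1)) := by
  have hp0 : (0 : ℝ) < p := by exact_mod_cast hp.out.pos
  have hp1 : (1 : ℝ) ≤ p := by exact_mod_cast hp.out.one_lt.le
  obtain ⟨m, V1, h1, h2, h3, h4, h5⟩ := decomp (a := a) (n := n) (K := K) (by omega)
    (Subset.refl (closedBall 0 1)) (ko_ball _ one_pos) 1 (fun x hx => by
      rw [IsUltrametricDist.closedBall_eq_of_mem hx]
      exact closedBall_subset_closedBall (inv_le_one_of_one_le₀ (one_le_pow₀ hp1)))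
  have h6 := h5 rfl
  have hY := rat_NF (by omega) hind h1 h2 h3
  have hd : 0 < Module.finrank ℚ_[p] K := Module.finrank_pos
  refine Rat.solve _ _ ?_ hA hY ?_
  · rw [NN]
    refine Nat.mul_pos ?_ hd
    have : 0 < a * (n * (n - 1)) := Nat.mul_pos ha (Nat.mul_pos (by omega) (by omega))
    omega
  · have hs := sum_pos (n := n) (by omega)
    conv_lhs => rw [h4]
    rw [ser_box, one_mul, sum_box, one_mul, h6, one_mul, ← mul_assoc, ← mul_assoc,
      ← map_mul PowerSeries.C]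
    have h7 : ((p ^ Module.finrank ℚ_[p] K : ℕ) : ℝ) *
        ((p : ℝ) ^ (Module.finrank ℚ_[p] K * ∑ i : Fin n, (n - (i : ℕ))))⁻¹ =
        ((p : ℝ) ^ (Module.finrank ℚ_[p] K * (∑ i : Fin n, (n - (i : ℕ)) - 1)))⁻¹ := by
      obtain ⟨s, hs'⟩ : ∃ s, ∑ i : Fin n, (n - (i : ℕ)) = s + 1 :=
        ⟨∑ i : Fin n, (n - (i : ℕ)) - 1, by omega⟩
      rw [hs', Nat.add_sub_cancel, mul_add, mul_one, pow_add]
      push_cast
      field_simp
    rw [h7]
    ring

theorem good_X0 {a : ℕ} (ha : 1 ≤ a) (hn : 1 ≤ n)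
    (hind : ∀ m, 1 ≤ m → m < n → Good p A a (X ^ 0) m)
    (hA : 2 ≤ n → ∀ (K : IntermediateField ℚ_[p] (PadicAlgCl p)) [FiniteDimensional ℚ_[p] K],
      A (Module.finrank ℚ_[p] K * (∑ i : Fin n, (n - (i : ℕ)) - 1)) (NN K a n 0)) :
    Good p A a (X ^ 0) n := by
  intro K _ V hVO hV
  rcases Nat.lt_or_ge n 2 with h | h
  · obtain rfl : n = 1 := by omega
    rw [ser_one hp.out.one_lt fun x _ => wt_one x]
    exact rat_C _
  · have hZ := rat_Z0 ha h hind (hA h K)
    obtain ⟨δ, hδ, hthick⟩ := hV.1.exists_thickening_subset_open hV.2 (Subset.refl V)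
    obtain ⟨k, hk⟩ := exists_pow_lt (p := p) (δ / 2) (by positivity)
    obtain ⟨m, V1, h1, h2, h3, h4, -⟩ := decomp (a := a) hn hVO hV k (fun x hx y hy => by
      apply hthick
      rw [mem_thickening_iff]
      refine ⟨x, hx, ?_⟩
      rw [mem_closedBall] at hy
      linarith)
    rw [h4]
    exact (rat_NF hn hind h1 h2 h3).add ((rat_C _).mul (rat_box k 0 hZ))

omit [FiniteDimensional ℚ_[p] K] in
theorem zero_of_mp {x : Fin n → K} (h : mp x = (X - C 0) ^ n) : x = 0 := by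
  rw [C_0, sub_zero, mp_eq] at h
  exact lp_eq_zero (by linear_combination h)

/-- The weight with a power of `X`, away from zero. -/
theorem lg_Xb {a b : ℕ} (hn : 1 ≤ n) (hind : ∀ m, 1 ≤ m → m < n → Good p A a (X ^ b) m)
    (h0 : Good p A a (X ^ 0) n) {z0 : Fin n → K} (hz0 : z0 ∈ closedBall (0 : Fin n → K) 1)
    (hne : z0 ≠ 0) : LG p A (wt a K n (toOm p (X ^ b))) z0 := by
  by_cases hnf : NF z0
  · exact lg_nonfold hn hind hz0 hnf
  · rw [NF] at hnf
    push Not at hnf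
    obtain ⟨c, hc⟩ := hnf
    have hc0 : c ≠ 0 := by
      rintro rfl
      exact hne (zero_of_mp hc)
    have hc1 : (c : PadicAlgCl p) ≠ 0 := fun h => hc0 (Subtype.ext h)
    have h1 : (toOm p (X ^ b)).rootMultiplicity (c : PadicAlgCl p) = 0 := by
      apply rootMultiplicity_eq_zero
      rw [toOm_X_pow, IsRoot, eval_pow, eval_X]
      exact pow_ne_zero b hc1
    refine lg_shift (pow_ne_zero b X_ne_zero) (norm_fold hn hz0 hc) (fun V hVO hV => ?_) hc
    rw [h1]
    exact h0 K V hVO hV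

theorem good_Xb {a b : ℕ} (hn : 1 ≤ n) (hb : 1 ≤ b)
    (hind : ∀ m, 1 ≤ m → m < n → Good p A a (X ^ b) m) (h0 : Good p A a (X ^ 0) n)
    (hA : ∀ (K : IntermediateField ℚ_[p] (PadicAlgCl p)) [FiniteDimensional ℚ_[p] K],
      A (Module.finrank ℚ_[p] K * (∑ i : Fin n, (n - (i : ℕ)))) (NN K a n b)) :
    Good p A a (X ^ b) n := by
  have hp0 : (0 : ℝ) < p := by exact_mod_cast hp.out.pos
  have hzb : ∀ (K : IntermediateField ℚ_[p] (PadicAlgCl p)) (k : ℕ),
      (0 : Fin n → K) ∈ box K n k := by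
    intro K k i
    rw [Pi.zero_apply, norm_zero]
    positivity
  have hZ : ∀ (K : IntermediateField ℚ_[p] (PadicAlgCl p)) [FiniteDimensional ℚ_[p] K],
      Rat p A (ser p (wt a K n (toOm p (X ^ b))) (closedBall 0 1)) := by
    intro K _
    have hd : 0 < Module.finrank ℚ_[p] K := Module.finrank_pos
    have hO : KO (closedBall (0 : Fin n → K) 1) := ko_ball _ one_pos
    have hD : KO (closedBall (0 : Fin n → K) 1 \ box K n 1) := hO.diff (ko_box 1)
    have hY : Rat p A (ser p (wt a K n (toOm p (X ^ b))) (closedBall 0 1 \ box K n 1)) := by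
      refine rat_of_LG hp.out.one_lt hD (adm_P (X ^ b) sdiff_subset) fun z hz => ?_
      refine lg_Xb hn hind h0 hz.1 ?_
      rintro rfl
      exact hz.2 (hzb K 1)
    refine Rat.solve _ _ ?_ (hA K) hY ?_
    · rw [NN]
      refine Nat.mul_pos ?_ hd
      have : 0 < n * b := Nat.mul_pos (by omega) (by omega)
      omega
    · have h5 : closedBall (0 : Fin n → K) 1 = (closedBall 0 1 \ box K n 1) ∪ box K n 1 :=
        (sdiff_union_of_subset (box_sub 1)).symm
      conv_lhs => rw [h5]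
      rw [ser_union hp.out.one_lt hD (ko_box 1) (adm_P (X ^ b) sdiff_subset)
        (adm_P (X ^ b) (box_sub 1)) disjoint_sdiff_left, ser_box, one_mul, sum_box, one_mul]
      ring
  intro K _ V hVO hV
  refine rat_of_LG hp.out.one_lt hV (adm_P (X ^ b) hVO) fun z hz => ?_
  by_cases hz0 : z = 0
  · subst hz0
    refine ⟨1, one_pos, fun s hs hs1 => ?_⟩
    obtain ⟨k, hk⟩ := exists_pow_lt (p := p) s hs
    have hsub : box K n k ⊆ closedBall 0 s :=
      (box_subset k).trans (closedBall_subset_closedBall hk)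
    have hsO : closedBall (0 : Fin n → K) s ⊆ closedBall 0 1 := closedBall_subset_closedBall hs1
    have hD : KO (closedBall (0 : Fin n → K) s \ box K n k) := (ko_ball _ hs).diff (ko_box k)
    have h5 : closedBall (0 : Fin n → K) s = (closedBall 0 s \ box K n k) ∪ box K n k :=
      (sdiff_union_of_subset hsub).symm
    rw [h5, ser_union hp.out.one_lt hD (ko_box k) (adm_P (X ^ b) (sdiff_subset.trans hsO))
        (adm_P (X ^ b) (box_sub k)) disjoint_sdiff_left]
    refine Rat.add ?_ (rat_box k b (hZ K))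
    refine rat_of_LG hp.out.one_lt hD (adm_P (X ^ b) (sdiff_subset.trans hsO)) fun z hz => ?_
    refine lg_Xb hn hind h0 (hsO hz.1) ?_
    rintro rfl
    exact hz.2 (hzb K k)
  · exact lg_Xb hn hind h0 (hVO hz) hz0

theorem good_P {a : ℕ} {P : ℤ[X]} (hP : P ≠ 0) (hn : 1 ≤ n)
    (hind : ∀ m, 1 ≤ m → m < n → Good p A a P m)
    (hX : ∀ r : PadicAlgCl p, Good p A a (X ^ (toOm p P).rootMultiplicity r) n) :
    Good p A a P n := by
  intro K _ V hVO hV
  refine rat_of_LG hp.out.one_lt hV (adm_P P hVO) fun z hz => ?_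
  by_cases hnf : NF z
  · exact lg_nonfold hn hind (hVO hz) hnf
  · rw [NF] at hnf
    push Not at hnf
    obtain ⟨c, hc⟩ := hnf
    exact lg_shift hP (norm_fold hn (hVO hz) hc) (fun V hVO hV => hX _ K V hVO hV) hc

end K

/-- The conditions on the denominators. -/
def Adm2 (p : ℕ) [Fact p.Prime] (A : ℕ → ℕ → Prop) (a n0 : ℕ) (Bs : Set ℕ) : Prop :=
  (∀ n, 2 ≤ n → n ≤ n0 → ∀ (K : IntermediateField ℚ_[p] (PadicAlgCl p))
    [FiniteDimensional ℚ_[p] K],
    A (Module.finrank ℚ_[p] K * (∑ i : Fin n, (n - (i : ℕ)) - 1)) (NN K a n 0)) ∧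
  ∀ n b, 1 ≤ n → n ≤ n0 → 1 ≤ b → b ∈ Bs → ∀ (K : IntermediateField ℚ_[p] (PadicAlgCl p))
    [FiniteDimensional ℚ_[p] K],
    A (Module.finrank ℚ_[p] K * (∑ i : Fin n, (n - (i : ℕ)))) (NN K a n b)

theorem good_all {a n0 : ℕ} (ha : 1 ≤ a) {P : ℤ[X]} (hP : P ≠ 0)
    (hA : Adm2 p A a n0 {b | ∃ r : PadicAlgCl p, b = (toOm p P).rootMultiplicity r}) :
    ∀ n, 1 ≤ n → n ≤ n0 → Good p A a P n := by
  obtain ⟨hA1, hA2⟩ := hA
  have h0 : ∀ n, 1 ≤ n → n ≤ n0 → Good p A a (X ^ 0) n := by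
    intro n
    induction n using Nat.strong_induction_on with
    | _ n ih =>
      intro hn hn0
      exact good_X0 ha hn (fun m hm hmn => ih m hmn hm (by omega)) fun h2 => hA1 n h2 hn0
  have hb : ∀ r : PadicAlgCl p, ∀ n, 1 ≤ n → n ≤ n0 →
      Good p A a (X ^ (toOm p P).rootMultiplicity r) n := by
    intro r n
    rcases Nat.eq_zero_or_pos ((toOm p P).rootMultiplicity r) with h | h
    · rw [h]
      exact h0 n
    · induction n using Nat.strong_induction_on with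
      | _ n ih =>
        intro hn hn0
        exact good_Xb hn h (fun m hm hmn => ih m hmn hm (by omega)) (h0 n hn hn0)
          (hA2 n _ hn hn0 h ⟨r, rfl⟩)
  intro n
  induction n using Nat.strong_induction_on with
  | _ n ih =>
    intro hn hn0
    exact good_P hP hn (fun m hm hmn => ih m hmn hm (by omega)) fun r => hb r n hn hn0

end Pool.Agent.H942.DP
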