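import Pool.Agent.H942.DP.Ser

set_option autoImplicit false

/-! The inverse function theorem over `ℚ_p`, with volumes. -/

namespace Pool.Agent.H942.DP

open MeasureTheory Metric Set

section Base

variable {E : Type*} [NormedAddCommGroup E] [IsUltrametricDist E] {ψ : E → E} {x0 : E} {r : ℝ}

/-- Close to the identity. -/
def Near (ψ : E → E) (x0 : E) (r : ℝ) : Prop :=
  ∀ x ∈ closedBall x0 r, ∀ y ∈ closedBall x0 r, ‖ψ x - ψ y - (x - y)‖ ≤ (1 / 2) * ‖x - y‖

theorem Near.isometry (h : Near ψ x0 r) {x y : E} (hx : x ∈ closedBall x0 r)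
    (hy : y ∈ closedBall x0 r) : ‖ψ x - ψ y‖ = ‖x - y‖ := by
  by_cases hxy : ‖x - y‖ = 0
  · rw [norm_eq_zero, sub_eq_zero] at hxy
    rw [hxy, sub_self, sub_self]
  · have h0 : 0 < ‖x - y‖ := lt_of_le_of_ne (norm_nonneg _) (Ne.symm hxy)
    have h1 := h x hx y hy
    have h2 : ‖ψ x - ψ y - (x - y)‖ < ‖x - y‖ := by linarith
    have h3 := IsUltrametricDist.norm_add_eq_max_of_norm_ne_norm h2.ne
    rw [sub_add_cancel] at h3
    rw [h3, max_eq_right h2.le]

theorem Near.injOn (h : Near ψ x0 r) : InjOn ψ (closedBall x0 r) := by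
  intro x hx y hy hxy
  have := h.isometry hx hy
  rw [hxy, sub_self, norm_zero] at this
  exact sub_eq_zero.mp (norm_eq_zero.mp this.symm)

theorem Near.image_ball [ProperSpace E] (h : Near ψ x0 r) {x : E} {s : ℝ}
    (hs : closedBall x s ⊆ closedBall x0 r) (hs0 : 0 ≤ s) :
    ψ '' closedBall x s = closedBall (ψ x) s := by
  have hx : x ∈ closedBall x0 r := hs (mem_closedBall_self hs0)
  apply Subset.antisymm
  · rintro _ ⟨z, hz, rfl⟩
    rw [mem_closedBall, dist_eq_norm, h.isometry (hs hz) hx, ← dist_eq_norm]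
    exact hz
  · intro y hy
    set g : E → E := fun z => z - ψ z + y with hg
    have hmap : MapsTo g (closedBall x s) (closedBall x s) := by
      intro z hz
      rw [mem_closedBall, dist_eq_norm]
      have e : g z - x = -(ψ z - ψ x - (z - x)) + (y - ψ x) := by
        change z - ψ z + y - x = _
        abel
      rw [e]
      refine (IsUltrametricDist.norm_add_le_max _ _).trans (max_le ?_ ?_)
      · rw [norm_neg]
        refine (h z (hs hz) x hx).trans ?_
        rw [mem_closedBall, dist_eq_norm] at hz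
        linarith [norm_nonneg (z - x)]
      · rw [← dist_eq_norm]
        exact hy
    have hcon : ContractingWith (1 / 2 : NNReal) (hmap.restrict g (closedBall x s) (closedBall x s)) := by
      refine ⟨by
        rw [← NNReal.coe_lt_coe]
        norm_num, LipschitzWith.of_dist_le_mul fun a b => ?_⟩
      have e : g a - g b = -(ψ a - ψ b - ((a : E) - b)) := by
        rw [hg]
        simp only
        abel
      change dist (g a) (g b) ≤ _ * dist (a : E) b
      rw [dist_eq_norm, e, norm_neg, dist_eq_norm]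
      refine (h a (hs a.2) b (hs b.2)).trans (le_of_eq ?_)
      norm_num
    obtain ⟨z, hz, hfix, -⟩ := hcon.exists_fixedPoint' (isCompact_closedBall x s).isComplete hmap
      (mem_closedBall_self hs0) (edist_ne_top _ _)
    refine ⟨z, hz, ?_⟩
    have h1 : z - ψ z + y = z := hfix
    have h2 : y - ψ z = 0 := by
      have : z - ψ z + y - z = 0 := sub_eq_zero.mpr h1
      rw [← this]
      abel
    exact (sub_eq_zero.mp h2).symm

theorem Near.image_ko [ProperSpace E] [MeasurableSpace E] [BorelSpace E] (h : Near ψ x0 r)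
    {V : Set E} (hV : KO V) (hVs : V ⊆ closedBall x0 r) :
    KO (ψ '' V) ∧ vol (ψ '' V) = vol V := by
  have hb : ∀ x ∈ V, ∃ r > 0, closedBall x r ⊆ V := fun x hx => hV.exists_ball hx
  choose! ρ hρ h1 using hb
  obtain ⟨F, hF, hVF, hd⟩ := exists_balls hV.1 ρ hρ h1
  have h2 : ∀ x ∈ F, ψ '' closedBall x (ρ x) = closedBall (ψ x) (ρ x) := fun x hx =>
    h.image_ball ((h1 x (hF x hx)).trans hVs) (hρ x (hF x hx)).le
  have h3 : ψ '' V = ⋃ x ∈ F, closedBall (ψ x) (ρ x) := by
    conv_lhs => rw [hVF]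
    rw [image_iUnion₂]
    exact iUnion₂_congr h2
  have h4 : ∀ x ∈ F, KO (closedBall (ψ x) (ρ x)) := fun x hx => ko_ball _ (hρ x (hF x hx))
  refine ⟨by
    rw [h3]
    exact KO.biUnion h4, ?_⟩
  have h5 : (F : Set E).PairwiseDisjoint fun x => closedBall (ψ x) (ρ x) := by
    intro x hx y hy hxy
    rw [Function.onFun, ← h2 x hx, ← h2 y hy]
    rw [Set.disjoint_left]
    rintro _ ⟨a, ha, rfl⟩ ⟨b, hb, hab⟩
    have h6 := h.injOn (hVs (h1 y (hF y hy) hb)) (hVs (h1 x (hF x hx) ha)) hab
    rw [h6] at hb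
    exact Set.disjoint_left.mp (hd hx hy hxy) ha hb
  rw [h3, vol_biUnion F _ h4 h5]
  conv_rhs => rw [hVF]
  rw [vol_biUnion F _ (fun x hx => ko_ball _ (hρ x (hF x hx))) hd]
  exact Finset.sum_congr rfl fun x _ => vol_ball _ _ _

end Base

section Ift

variable {k : Type*} [NontriviallyNormedField k] {E F : Type*} [NormedAddCommGroup E]
  [NormedSpace k E] [IsUltrametricDist E] [ProperSpace E] [MeasurableSpace E] [BorelSpace E]
  [NormedAddCommGroup F] [NormedSpace k F] [ProperSpace F] [MeasurableSpace F] [BorelSpace F]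

/-- The inverse function theorem with volumes. -/
theorem ift {φ : E → F} {A : E ≃L[k] F} {x0 : E}
    (h : HasStrictFDerivAt φ (A : E →L[k] F) x0) :
    ∃ r > 0, ∃ c : ℝ, InjOn φ (closedBall x0 r) ∧ ContinuousOn φ (closedBall x0 r) ∧
      ∀ V ⊆ closedBall x0 r, KO V → KO (φ '' V) ∧ vol (φ '' V) = c * vol V := by
  set ψ : E → E := fun x => A.symm (φ x) with hψ
  have h1 : HasStrictFDerivAt ψ (ContinuousLinearMap.id k E) x0 := by
    have := (A.symm : F →L[k] E).hasStrictFDerivAt.comp x0 h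
    have e : (A.symm : F →L[k] E) ∘L (A : E →L[k] F) = ContinuousLinearMap.id k E := by
      ext x
      simp
    rw [e] at this
    exact this
  obtain ⟨r, hr, h2⟩ : ∃ r > 0, Near ψ x0 r := by
    have h3 := (h1.isLittleO.def (by norm_num : (0 : ℝ) < 1 / 2))
    rw [nhds_prod_eq] at h3
    obtain ⟨U, hU, h4⟩ := Filter.mem_prod_self_iff.mp h3
    obtain ⟨r, hr, h5⟩ := Metric.mem_nhds_iff.mp hU
    refine ⟨r / 2, by positivity, fun x hx y hy => ?_⟩
    have hb : closedBall x0 (r / 2) ⊆ U := (closedBall_subset_ball (by linarith)).trans h5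
    have h6 := h4 (mk_mem_prod (hb hx) (hb hy))
    simpa using h6
  obtain ⟨c, hc0, hc⟩ := exists_vol_image (E := E) (F := F) A.toLinearEquiv.toAddEquiv
    A.continuous A.symm.continuous
  have hφ : ∀ x, φ x = A (ψ x) := fun x => by rw [hψ]; simp
  refine ⟨r, hr, c, ?_, ?_, fun V hVs hV => ?_⟩
  · intro x hx y hy hxy
    exact h2.injOn hx hy (by rw [hψ]; simp only; rw [hxy])
  · have h3 : ContinuousOn ψ (closedBall x0 r) := by
      intro x hx
      rw [Metric.continuousWithinAt_iff]
      intro ε hε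
      refine ⟨ε, hε, fun y hy hd => ?_⟩
      rw [dist_eq_norm, h2.isometry hy hx, ← dist_eq_norm]
      exact hd
    exact (A.continuous.comp_continuousOn h3).congr fun x _ => hφ x
  · have h3 : φ '' V = A.toLinearEquiv.toAddEquiv '' (ψ '' V) := by
      rw [image_image]
      exact image_congr fun x _ => hφ x
    obtain ⟨h4, h5⟩ := h2.image_ko hV hVs
    rw [h3, hc, h5]
    refine ⟨⟨h4.1.image A.continuous, ?_⟩, rfl⟩
    exact A.toHomeomorph.isOpenMap _ h4.2

end Ift

end Pool.Agent.H942.DP
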