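import Pool.Agent.H942.DP.Main

set_option autoImplicit false

/-! The induction on the degree. -/

namespace Pool.Agent.H942.DP

open MeasureTheory Metric Set Polynomial Topology Filter

variable {p : ℕ} [hp : Fact p.Prime] {A : ℕ → ℕ → Prop}
  {K : IntermediateField ℚ_[p] (PadicAlgCl p)} [FiniteDimensional ℚ_[p] K]

omit [FiniteDimensional ℚ_[p] K] in
theorem int1_up_of_eq {n m : ℕ} {z : Fin n → K} {x : Fin m → K} {g : K[X]}
    (hz : z ∈ closedBall (0 : Fin n → K) 1) (h : mp z = mp x * g) (hg : g.Monic) :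
    x ∈ closedBall (0 : Fin m → K) 1 := by
  rw [← int1_up] at hz ⊢
  have h1 : up z = up x * g.map (algebraMap K (PadicAlgCl p)) := by
    rw [up_eq, h, Polynomial.map_mul, ← up_eq]
  rw [h1] at hz
  exact hz.of_mul_left (up_monic x) (hg.map _)

theorem lg_mul' {a m l n : ℕ} (hn : n = m + l) {P : ℤ[X]} (hm : Good p A a P m)
    (hl : Good p A a P l) {x0 : Fin m → K} {y0 : Fin l → K}
    (hx0 : x0 ∈ closedBall (0 : Fin m → K) 1) (hy0 : y0 ∈ closedBall (0 : Fin l → K) 1)
    (hc : IsCoprime (mp x0) (mp y0)) {z0 : Fin n → K} (hz0 : mp z0 = mp x0 * mp y0) :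
    LG p A (wt a K n (toOm p P)) z0 := by
  subst hn
  exact lg_mul hm hl hx0 hy0 hc hz0

/-- The points which are not of the form `(X - c) ^ n`. -/
theorem lg_nonfold {a n : ℕ} {P : ℤ[X]} (hn : 1 ≤ n)
    (hind : ∀ m, 1 ≤ m → m < n → Good p A a P m) {z0 : Fin n → K}
    (hz0 : z0 ∈ closedBall (0 : Fin n → K) 1) (hnf : ∀ c : K, mp z0 ≠ (X - C c) ^ n) :
    LG p A (wt a K n (toOm p P)) z0 := by
  have hm := mp_monic z0
  have hnu : ¬ IsUnit (mp z0) := by
    intro h
    have h1 := natDegree_eq_zero_of_isUnit h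
    rw [mp_natDegree] at h1
    omega
  obtain ⟨g, hg, hirr, hdvd⟩ := exists_monic_irreducible_factor (mp z0) hnu
  have hfin := finiteMultiplicity_of_degree_pos_of_monic hirr.degree_pos hg hm.ne_zero
  obtain ⟨B, hB, hnd⟩ := hfin.exists_eq_pow_mul_and_not_dvd
  set e := multiplicity g (mp z0) with he
  have hge : (g ^ e).Monic := hg.pow e
  have hBm : B.Monic := hge.of_mul_monic_left (hB ▸ hm)
  have he1 : 1 ≤ e := by
    rcases Nat.eq_zero_or_pos e with h | h
    · rw [h, pow_zero, one_mul] at hB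
      exact absurd (hB ▸ hdvd) hnd
    · exact h
  have hdeg : n = e * g.natDegree + B.natDegree := by
    have h1 := congrArg natDegree hB
    rw [mp_natDegree, hge.natDegree_mul hBm, hg.natDegree_pow] at h1
    exact h1
  rcases Nat.eq_zero_or_pos B.natDegree with hB0 | hB0
  · have hB1 : B = 1 := eq_one_of_monic_natDegree_zero hBm hB0
    rw [hB1, mul_one] at hB
    have hg2 : 2 ≤ g.natDegree := by
      have h1 := hirr.natDegree_pos
      rcases Nat.lt_or_ge g.natDegree 2 with h | h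
      · exfalso
        have h2 : g.natDegree = 1 := by omega
        have h3 := hg.eq_X_add_C h2
        have h4 : n = e := by rw [hdeg, hB0, h2]; ring
        apply hnf (-g.coeff 0)
        rw [hB, C_neg, sub_neg_eq_add, ← h3, h4]
      · exact h
    refine lg_pow hg hirr (hind e he1 ?_) hz0 he1 hB
    rw [hdeg, hB0]
    nlinarith
  · obtain ⟨x0, hx0, -⟩ := exists_mp (n := e * g.natDegree) hge (by rw [hg.natDegree_pow])
    obtain ⟨y0, hy0, -⟩ := exists_mp (n := B.natDegree) hBm rfl
    have hg1 := hirr.natDegree_pos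
    have hm1 : 1 ≤ e * g.natDegree := Nat.mul_pos he1 hg1
    have hcop : IsCoprime (mp x0) (mp y0) := by
      rw [hx0, hy0]
      exact IsCoprime.pow_left ((hirr.coprime_iff_not_dvd).mpr hnd)
    have hz : mp z0 = mp x0 * mp y0 := by rw [hx0, hy0]; exact hB
    have hx1 : x0 ∈ closedBall (0 : Fin (e * g.natDegree) → K) 1 :=
      int1_up_of_eq hz0 hz (mp_monic y0)
    have hy1 : y0 ∈ closedBall (0 : Fin B.natDegree → K) 1 :=
      int1_up_of_eq hz0 (by rw [hz, mul_comm]) (mp_monic x0)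
    have h1 := hind (e * g.natDegree) hm1 (by omega)
    have h2 := hind B.natDegree hB0 (by omega)
    exact lg_mul' hdeg h1 h2 hx1 hy1 hcop hz

/-- A nonzero polynomial moved by a root. -/
theorem exists_shift {k : Type*} [Field k] {H : k[X]} (hH : H ≠ 0) (c : k) :
    ∃ G : k[X], H.comp (X + C c) = X ^ H.rootMultiplicity c * G ∧ G.eval 0 ≠ 0 := by
  obtain ⟨q, hq, hnd⟩ := exists_eq_pow_rootMultiplicity_mul_and_not_dvd H hH c
  refine ⟨q.comp (X + C c), ?_, ?_⟩
  · conv_lhs => rw [hq]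
    rw [mul_comp, pow_comp, sub_comp, X_comp, C_comp, add_sub_cancel_right]
  · rw [eval_comp]
    simp only [eval_add, eval_X, eval_C, zero_add]
    intro h
    exact hnd (dvd_iff_isRoot.mpr h)

omit hp in
theorem wt_alg3 (D R S : ℝ) (a k : ℕ) : (D ^ a * (R * S)) ^ k = S ^ k * (D ^ a * R) ^ k := by
  ring

theorem lg_shift {a n : ℕ} {P : ℤ[X]} (hP : P ≠ 0) {c : K} (hc : ‖c‖ ≤ 1)
    (hgood : ∀ V ⊆ closedBall (0 : Fin n → K) 1, KO V →
      Rat p A (ser p (wt a K n
        (toOm p (X ^ (toOm p P).rootMultiplicity (c : PadicAlgCl p)))) V))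
    {z0 : Fin n → K} (hz0 : mp z0 = (X - C c) ^ n) : LG p A (wt a K n (toOm p P)) z0 := by
  set b := (toOm p P).rootMultiplicity (c : PadicAlgCl p) with hb
  have hP0 : toOm p P ≠ 0 := by
    rw [toOm, Ne, Polynomial.map_eq_zero_iff (RingHom.injective_int _)]
    exact hP
  obtain ⟨G, hG, hG0⟩ := exists_shift hP0 (c : PadicAlgCl p)
  rw [← hb] at hG
  have hcO : ‖(c : PadicAlgCl p)‖ ≤ 1 := hc
  have hGi : Int1 G := by
    have h1 : Int1 (X ^ b * G) := by
      rw [← hG]
      exact (int1_int P).comp (int1_X_add_C hcO)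
    intro i
    have h2 := h1 (i + b)
    rwa [coeff_X_pow_mul] at h2
  set f : (Fin n → K) → PadicAlgCl p := fun x => rr n (up x) G with hf
  have hfc : Continuous f := continuous_rr G
  have hup0 : up (0 : Fin n → K) = (X - C (0 : PadicAlgCl p)) ^ n := by
    rw [up, mp_eq, C_0, sub_zero]
    have h1 : lp (fun i : Fin n => (((0 : Fin n → K) i : K) : PadicAlgCl p)) = 0 := by
      rw [lp]
      refine Finset.sum_eq_zero fun i _ => ?_
      simp
    rw [h1, add_zero]
  have hf0 : f 0 ≠ 0 := by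
    rw [hf]
    simp only
    rw [hup0, rr_X_sub_C_pow]
    exact pow_ne_zero _ hG0
  have h00 : (0 : Fin n → K) ∈ closedBall (0 : Fin n → K) 1 := mem_closedBall_self zero_le_one
  have hf1 : ‖f 0‖ ≤ 1 := norm_rr_le (int1_up.mpr h00) hGi n
  set U : Set (Fin n → K) := closedBall 0 1 ∩ {x | ‖f x‖ = ‖f 0‖} with hU
  have hUn : U ∈ 𝓝 (0 : Fin n → K) := inter_mem
    ((IsUltrametricDist.isOpen_closedBall _ one_ne_zero).mem_nhds h00)
    (norm_eventually hfc.continuousAt hf0)
  set v' : (Fin n → K) →L[ℚ_[p]] (Fin n → K) :=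
    ContinuousLinearMap.pi fun j => evL n (((j : ℕ) : K) - c) with hv'
  refine lg_values (K := K) (n := n) (E := Fin n → K)
    (v := fun x j => (mp x).eval (((j : ℕ) : K) - c)) (v' := v')
    (x0 := 0) (w' := wt a K n (toOm p (X ^ b)))
    (κ := ‖f 0‖ ^ (Module.finrank ℚ_[p] K)) ?_ ?_ rfl ?_ ?_ ?_ hUn ?_
    (adm_P P (Subset.refl _)) (adm_P (X ^ b) inter_subset_left) ?_
  · rw [hasStrictFDerivAt_pi']
    intro j
    exact strict_eval n (((j : ℕ) : K) - c) 0
  · intro h hh
    have h1 : lp (sh c h) = 0 := by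
      rw [lp_sh]
      refine eq_of_values (n := n) ?_ fun j => ?_
      · rw [sub_zero]
        exact degree_comp_lt (lp_degree h) c
      · rw [eval_zero, eval_comp]
        simp only [eval_sub, eval_X, eval_C]
        exact congrFun hh j
    have h2 := lp_eq_zero h1
    have h3 : shE c h = shE c 0 := by
      rw [map_zero]
      exact h2
    exact (shE c).injective h3
  · intro j
    rw [hz0]
    have h1 : mp (0 : Fin n → K) = X ^ n := by
      rw [mp_eq, lp]
      simp
    rw [h1]
    simp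
  · exact pow_pos (norm_pos_iff.mpr hf0) _
  · exact pow_le_one₀ (norm_nonneg _) hf1
  · intro x hx y hy
    have h1 : mp y = (mp x).comp (X - C c) := by
      refine mp_of_values (monic_shift (mp_monic x) c) ?_ fun j => ?_
      · rw [natDegree_shift, mp_natDegree]
      · rw [hy j, eval_comp]
        simp
    have h2 : up y = (up x).comp (X - C (c : PadicAlgCl p)) := by
      rw [up_eq, up_eq, h1, Polynomial.map_comp, Polynomial.map_sub, map_X, map_C]
      rfl
    refine ⟨?_, ?_⟩
    · have h3 : ‖rr n (up x) G‖ = ‖f 0‖ := hx.2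
      rw [wt, wt, h2, dd_shift (up_monic x) (up_natDegree x),
        rr_shift (up_monic x) (up_natDegree x), hG,
        rr_mul_right (up_monic x) (up_natDegree x), norm_mul, h3, toOm_X_pow]
      exact wt_alg3 _ _ _ _ _
    · rw [← int1_up, h2]
      exact (int1_up.mpr hx.1).comp (int1_X_sub_C hcO)
  · intro V hVU hV
    exact hgood V (hVU.trans inter_subset_left) hV

omit [FiniteDimensional ℚ_[p] K] in
/-- The root of an integral point `(X - c) ^ n`. -/
theorem norm_fold {n : ℕ} (hn : 1 ≤ n) {z0 : Fin n → K} (hz : z0 ∈ closedBall (0 : Fin n → K) 1)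
    {c : K} (hz0 : mp z0 = (X - C c) ^ n) : ‖c‖ ≤ 1 := by
  have h1 : (up z0).IsRoot (c : PadicAlgCl p) := by
    rw [up_eq, hz0, Polynomial.map_pow, Polynomial.map_sub, map_X, map_C, IsRoot, eval_pow]
    have h2 : ((X - C (algebraMap K (PadicAlgCl p) c) : (PadicAlgCl p)[X]).eval
      (c : PadicAlgCl p)) = 0 := by
      rw [eval_sub, eval_X, eval_C]
      exact sub_self _
    rw [h2, zero_pow (by omega)]
  exact (int1_up.mpr hz).root (up_monic z0) h1

end Pool.Agent.H942.DP
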