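import Pool.Agent.H942.DP.Fold
import Pool.Graph.R_seed8.W425.PZ.Pole
import Pool.Graph.R_seed8.W195.PZ.Null

set_option autoImplicit false

/-! The Poincaré series and the volumes. -/

namespace Pool.Agent.H942.DP

open MeasureTheory Metric Set Topology Filter
open Pool.Agent.W206.CU

variable {p : ℕ} [hp : Fact p.Prime] {n : ℕ}

/-- The field `ℚ_p`. -/
noncomputable abbrev Qb (p : ℕ) [Fact p.Prime] : IntermediateField ℚ_[p] (PadicAlgCl p) := ⊥

/-- The inclusion. -/
noncomputable def em (p : ℕ) [Fact p.Prime] (n : ℕ) : (Fin n → ℤ_[p]) →+ (Fin n → Qb p) where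
  toFun x i := algebraMap ℚ_[p] (Qb p) (x i : ℚ_[p])
  map_zero' := by
    funext i
    simp
  map_add' x y := by
    funext i
    simp

theorem em_apply (x : Fin n → ℤ_[p]) (i : Fin n) :
    em p n x i = algebraMap ℚ_[p] (Qb p) (x i : ℚ_[p]) := rfl

theorem norm_em (x : Fin n → ℤ_[p]) : ‖em p n x‖ = ‖x‖ := by
  apply le_antisymm
  · rw [pi_norm_le_iff_of_nonneg (norm_nonneg x)]
    intro i
    rw [em_apply, norm_algebraMap']
    exact norm_le_pi_norm x i
  · rw [pi_norm_le_iff_of_nonneg (norm_nonneg _)]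
    intro i
    have := norm_le_pi_norm (em p n x) i
    rw [em_apply, norm_algebraMap'] at this
    exact this

theorem em_isometry : Isometry (em p n) :=
  AddMonoidHomClass.isometry_of_norm (em p n) norm_em

theorem em_range : range (em p n) = closedBall 0 1 := by
  ext y
  constructor
  · rintro ⟨x, rfl⟩
    rw [mem_closedBall, dist_zero_right, norm_em, pi_norm_le_iff_of_nonneg zero_le_one]
    exact fun i => PadicInt.norm_le_one (x i)
  · intro hy
    rw [mem_closedBall, dist_zero_right, pi_norm_le_iff_of_nonneg zero_le_one] at hy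
    have h1 : ∀ i, ∃ q : ℚ_[p], algebraMap ℚ_[p] (Qb p) q = y i := by
      intro i
      obtain ⟨q, hq⟩ := IntermediateField.mem_bot.mp (y i).2
      exact ⟨q, Subtype.ext hq⟩
    choose q hq using h1
    have h2 : ∀ i, ‖q i‖ ≤ 1 := by
      intro i
      have := hy i
      rwa [← hq i, norm_algebraMap'] at this
    refine ⟨fun i => ⟨q i, h2 i⟩, ?_⟩
    funext i
    rw [em_apply]
    exact hq i

theorem em_open : IsOpenEmbedding (em p n) := by
  refine ⟨em_isometry.isEmbedding, ?_⟩
  rw [em_range]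
  exact IsUltrametricDist.isOpen_closedBall _ one_ne_zero

theorem vol_em [MeasurableSpace (Fin n → ℤ_[p])] [BorelSpace (Fin n → ℤ_[p])]
    (S : Set (Fin n → ℤ_[p])) :
    vol (em p n '' S) = vol (closedBall (0 : Fin n → Qb p) 1) * (hm p (Fin n) S).toReal := by
  have h1 : (Measure.comap (em p n) (Measure.addHaar (G := Fin n → Qb p))).IsAddHaarMeasure :=
    Measure.IsAddHaarMeasure.comap (mH := inferInstance)
      (Measure.addHaar (G := Fin n → Qb p)) (f := em p n) em_open
  have h2 := Measure.addHaarMeasure_unique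
    (Measure.comap (em p n) (Measure.addHaar (G := Fin n → Qb p)))
    (⊤ : TopologicalSpace.PositiveCompacts (Fin n → ℤ_[p]))
  have h3 : ∀ S : Set (Fin n → ℤ_[p]),
      Measure.comap (em p n) (Measure.addHaar (G := Fin n → Qb p)) S =
      (Measure.addHaar (G := Fin n → Qb p)) (em p n '' S) := fun S =>
    em_open.measurableEmbedding.comap_apply _ S
  have h4 : ((⊤ : TopologicalSpace.PositiveCompacts (Fin n → ℤ_[p])) : Set (Fin n → ℤ_[p])) =
      univ := rfl
  rw [h3, h4, image_univ, em_range] at h2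
  rw [vol, ← h3, h2, Measure.smul_apply, smul_eq_mul, ENNReal.toReal_mul]
  rfl

theorem toReal_diff [MeasurableSpace (Fin n → ℤ_[p])] [BorelSpace (Fin n → ℤ_[p])]
    (F : MvPolynomial (Fin n) ℤ) (M : ℕ) :
    (hm p (Fin n) (lev F M \ lev F (M + 1))).toReal =
      ((dens p F M - dens p F (M + 1) : ℚ) : ℝ) := by
  have hmono : lev (p := p) F (M + 1) ⊆ lev F M := fun x hx =>
    (pow_dvd_pow _ (Nat.le_succ M)).trans hx
  rw [measure_sdiff hmono (measurableSet_lev F (M + 1)).nullMeasurableSet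
    (measure_ne_top _ _), ENNReal.toReal_sub_of_le (measure_mono hmono) (measure_ne_top _ _),
    measure_sol, measure_sol]
  push_cast
  rfl

theorem coeff_ser {F : MvPolynomial (Fin n) ℤ} {w : (Fin n → Qb p) → ℝ}
    (hw : ∀ x : Fin n → ℤ_[p], w (em p n x) = ‖(MvPolynomial.aeval x F : ℤ_[p])‖) (k : ℕ) :
    PowerSeries.coeff k (ser p w (closedBall 0 1)) =
      vol (closedBall (0 : Fin n → Qb p) 1) * ((dens p F k - dens p F (k + 1) : ℚ) : ℝ) := by
  let _ : MeasurableSpace (Fin n → ℤ_[p]) := borel _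
  have _ : BorelSpace (Fin n → ℤ_[p]) := ⟨rfl⟩
  rw [ser, PowerSeries.coeff_mk, ← toReal_diff, ← vol_em]
  congr 1
  ext y
  simp only [lv, mem_inter_iff, mem_ofPred_eq, mem_image]
  have key : ∀ x : Fin n → ℤ_[p], x ∈ lev (p := p) F k \ lev F (k + 1) ↔
      ‖(MvPolynomial.aeval x F : ℤ_[p])‖ = ((p : ℝ) ^ k)⁻¹ := by
    intro x
    rw [lev_eq, lev_eq, Set.mem_sdiff, mem_ofPred_eq, mem_ofPred_eq]
    have h1 := PadicInt.norm_le_pow_iff_norm_lt_pow_add_one (MvPolynomial.aeval x F : ℤ_[p])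
      (-((k + 1 : ℕ) : ℤ))
    have h2 : (-((k + 1 : ℕ) : ℤ)) + 1 = -(k : ℤ) := by
      push_cast
      ring
    rw [h2] at h1
    rw [h1, not_lt, zpow_neg, zpow_natCast]
    exact ⟨fun h => le_antisymm h.1 h.2, fun h => ⟨h.le, h.ge⟩⟩
  constructor
  · rintro ⟨hy, hyw⟩
    rw [← em_range] at hy
    obtain ⟨x, rfl⟩ := hy
    refine ⟨x, ?_, rfl⟩
    rw [key, ← hw, hyw]
  · rintro ⟨x, hx, rfl⟩
    refine ⟨?_, ?_⟩
    · rw [← em_range]
      exact mem_range_self x
    · rw [hw]
      exact (key x).mp hx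

theorem den_root {A : ℕ → ℕ → Prop} {D : Polynomial ℝ} (hD : D ∈ Den p A) {T : ℂ}
    (h : (D.map Complex.ofRealHom).eval T = 0) :
    ∃ ν N : ℕ, 0 < N ∧ A ν N ∧ T ^ N = (p : ℂ) ^ ν := by
  have hp0 : (p : ℂ) ≠ 0 := by exact_mod_cast hp.out.ne_zero
  induction hD using Submonoid.closure_induction with
  | mem D hD =>
    obtain ⟨ν, N, hN, hA, rfl⟩ := hD
    refine ⟨ν, N, hN, hA, ?_⟩
    simp only [Polynomial.map_sub, Polynomial.map_one, Polynomial.map_mul, Polynomial.map_C,
      Polynomial.map_pow, Polynomial.map_X, Polynomial.eval_sub, Polynomial.eval_one,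
      Polynomial.eval_mul, Polynomial.eval_C, Polynomial.eval_pow, Polynomial.eval_X,
      Complex.ofRealHom_eq_coe] at h
    push_cast at h
    field_simp at h
    linear_combination -h
  | one => simp at h
  | mul D D' _ _ ih ih' =>
    rw [Polynomial.map_mul, Polynomial.eval_mul] at h
    rcases mul_eq_zero.mp h with h | h
    · exact ih h
    · exact ih' h

theorem pole_den {A : ℕ → ℕ → Prop} {F : MvPolynomial (Fin n) ℤ} (hF : F ≠ 0)
    {w : (Fin n → Qb p) → ℝ}
    (hw : ∀ x : Fin n → ℤ_[p], w (em p n x) = ‖(MvPolynomial.aeval x F : ℤ_[p])‖)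
    (hR : Rat p A (ser p w (closedBall 0 1))) {T₀ : ℂ} {r : ℕ} (hr : 0 < r)
    (h : IsPoleOfOrder (poincare p F) T₀ r) :
    ∃ ν N : ℕ, 0 < N ∧ A ν N ∧ T₀ ^ N = (p : ℂ) ^ ν := by
  have hT1 := Pool.Agent.W425.PZ.pole_ne_one p F (Pool.Agent.W195.PZ.null hF) hr h
  obtain ⟨D, hD, P, hP⟩ := hR
  obtain ⟨A', B, hA', hB, hAB⟩ := h
  set c := vol (closedBall (0 : Fin n → Qb p) 1) with hc
  have hc0 : c ≠ 0 := (vol_pos (ko_ball _ one_pos) ⟨0, mem_closedBall_self zero_le_one⟩).ne'
  set S : PowerSeries ℂ := PowerSeries.mk fun k => ((dens p F k - dens p F (k + 1) : ℚ) : ℂ)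
    with hS
  set DC := D.map Complex.ofRealHom with hDC
  set PC := P.map Complex.ofRealHom with hPC
  have h1 : (DC : PowerSeries ℂ) * (PowerSeries.C (c : ℂ) * S) = (PC : PowerSeries ℂ) := by
    have h2 := congrArg (PowerSeries.map Complex.ofRealHom) hP
    rw [map_mul, ← Polynomial.polynomial_map_coe, ← Polynomial.polynomial_map_coe] at h2
    have h3 : PowerSeries.map Complex.ofRealHom (ser p w (closedBall 0 1)) =
        PowerSeries.C (c : ℂ) * S := by
      ext k
      rw [PowerSeries.coeff_map, coeff_ser hw, PowerSeries.coeff_C_mul, hS,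
        PowerSeries.coeff_mk]
      simp only [Complex.ofRealHom_eq_coe]
      push_cast
      rfl
    rw [h3] at h2
    exact h2
  have h2 : (1 - PowerSeries.X) * poincare p F = 1 - PowerSeries.X * S := by
    rw [Pool.Agent.W425.PZ.poincare_eq_mk]
    ext k
    rcases k with _ | k
    · simp [sub_mul, dens_zero]
    · rw [sub_mul, one_mul, map_sub, PowerSeries.coeff_succ_X_mul, PowerSeries.coeff_mk,
        PowerSeries.coeff_mk, map_sub, PowerSeries.coeff_succ_X_mul, hS, PowerSeries.coeff_mk,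
        PowerSeries.coeff_one, if_neg (Nat.succ_ne_zero k)]
      push_cast
      ring
  have h3 : ((DC * Polynomial.C (c : ℂ) * (1 - Polynomial.X) * A' : Polynomial ℂ) :
      PowerSeries ℂ) = (((Polynomial.X - Polynomial.C T₀) ^ r * B *
        (DC * Polynomial.C (c : ℂ) - Polynomial.X * PC) : Polynomial ℂ) : PowerSeries ℂ) := by
    have e1 : ((DC * Polynomial.C (c : ℂ) * (1 - Polynomial.X) * A' : Polynomial ℂ) :
        PowerSeries ℂ) = (DC : PowerSeries ℂ) * PowerSeries.C (c : ℂ) * (1 - PowerSeries.X) *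
          (A' : PowerSeries ℂ) := by
      push_cast
      rfl
    have e2 : (((Polynomial.X - Polynomial.C T₀) ^ r * B *
        (DC * Polynomial.C (c : ℂ) - Polynomial.X * PC) : Polynomial ℂ) : PowerSeries ℂ) =
        (((Polynomial.X - Polynomial.C T₀) ^ r * B : Polynomial ℂ) : PowerSeries ℂ) *
        ((DC : PowerSeries ℂ) * PowerSeries.C (c : ℂ) - PowerSeries.X * (PC : PowerSeries ℂ)) := by
      rw [Polynomial.coe_mul (_ * _)]
      congr 1
      push_cast
      rfl
    rw [e1, e2, ← hAB, ← h1]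
    linear_combination (DC : PowerSeries ℂ) * PowerSeries.C (c : ℂ) *
      (((Polynomial.X - Polynomial.C T₀) ^ r * B : Polynomial ℂ) : PowerSeries ℂ) * h2
  have h4 := Polynomial.coe_injective ℂ h3
  have h5 := congrArg (Polynomial.eval T₀) h4
  simp only [Polynomial.eval_mul, Polynomial.eval_sub, Polynomial.eval_one, Polynomial.eval_X,
    Polynomial.eval_C, Polynomial.eval_pow, sub_self, zero_pow hr.ne', zero_mul] at h5
  have h6 : DC.eval T₀ = 0 := by
    rcases mul_eq_zero.mp h5 with h5 | h5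
    · rcases mul_eq_zero.mp h5 with h5 | h5
      · rcases mul_eq_zero.mp h5 with h5 | h5
        · exact h5
        · exact absurd h5 (by exact_mod_cast hc0)
      · exact absurd (sub_eq_zero.mp h5).symm hT1
    · exact absurd h5 hA'
  exact den_root hD h6

theorem log_of_pow {T : ℂ} {ν N : ℕ} (hN : 0 < N) (h : T ^ N = (p : ℂ) ^ ν) :
    -Real.log ‖T‖ / Real.log p = -((ν : ℝ) / N) := by
  have h1 := congrArg norm h
  rw [norm_pow, norm_pow, Complex.norm_natCast] at h1
  have h2 := congrArg Real.log h1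
  rw [Real.log_pow, Real.log_pow] at h2
  have h3 : 0 < Real.log p := Real.log_pos (by exact_mod_cast hp.out.one_lt)
  have h4 : (N : ℝ) ≠ 0 := by exact_mod_cast hN.ne'
  field_simp
  linarith

end Pool.Agent.H942.DP
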