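import Pool.Agent.H942.DP.Link1
import Pool.Graph.R_pool_sql_team_seeded_5cf16337.Results.MP_a2a574_ag.DiscriminantPowers

set_option autoImplicit false

/-! The polynomial over `ℤ_p` and over `ℂ`. -/

namespace Pool.Agent.H942.DP

open Polynomial
open Pool.Agent.K3h15.DM (IsDisc hz)
open Pool.Agent.H628R4.TP (IsBFunction)

/-- The power of the discriminant, times the resultant with a fixed polynomial. -/
noncomputable def polyDR (n a : ℕ) (G : ℤ[X]) : MvPolynomial (Fin n) ℤ :=
  (freeMonic ℤ n).discr ^ a *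
    resultant (freeMonic ℤ n) (G.map MvPolynomial.C) n G.natDegree

theorem discr_eq_dd {R : Type*} [CommRing R] [Nontrivial R] {n : ℕ} (hn : 1 ≤ n) {f : R[X]}
    (hm : f.Monic) (hd : f.natDegree = n) :
    f.discr = (-1) ^ (n * (n - 1) / 2) * dd n f := by
  have h0 : 0 < f.degree := by
    rw [degree_eq_natDegree hm.ne_zero, hd]
    exact_mod_cast hn
  have h1 := resultant_deriv h0
  rw [hm.leadingCoeff, mul_one, hd] at h1
  rw [dd, h1, ← mul_assoc, ← mul_pow]
  simp

theorem freeMonic_map {R : Type*} [CommRing R] {n : ℕ} (x : Fin n → R) :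
    (freeMonic ℤ n).map (MvPolynomial.aeval x : MvPolynomial (Fin n) ℤ →ₐ[ℤ] R).toRingHom =
      mp x := by
  rw [freeMonic, mp, Polynomial.map_add, Polynomial.map_pow, map_X, Polynomial.map_sum]
  congr 1
  refine Finset.sum_congr rfl fun i _ => ?_
  rw [Polynomial.map_mul, Polynomial.map_pow, map_X, map_C]
  congr 2
  exact MvPolynomial.aeval_X x i

theorem aeval_polyDR {R : Type*} [CommRing R] {n : ℕ} (hn : 1 ≤ n) (a : ℕ) (G : ℤ[X])
    (x : Fin n → R) :
    MvPolynomial.aeval x (polyDR n a G) = ((-1) ^ (n * (n - 1) / 2) * dd n (mp x)) ^ a *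
      resultant (mp x) (G.map (Int.castRingHom R)) n G.natDegree := by
  set φ := (MvPolynomial.aeval x : MvPolynomial (Fin n) ℤ →ₐ[ℤ] R).toRingHom with hφ
  have h1 : MvPolynomial.aeval x (polyDR n a G) = φ (polyDR n a G) := rfl
  have h2 : (G.map MvPolynomial.C).map φ = G.map (Int.castRingHom R) := by
    rw [Polynomial.map_map]
    congr 1
    exact RingHom.ext_int _ _
  rw [h1, polyDR, map_mul, map_pow, ← resultant_map_map, freeMonic_map, h2,
    discr_eq_dd hn (monic_freeMonic ℤ n) (natDegree_freeMonic ℤ n), map_mul, map_pow, ← dd_map,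
    freeMonic_map]
  congr 4
  simp

section Padic

variable {p : ℕ} [hp : Fact p.Prime] {n : ℕ}

theorem wt_em (hn : 1 ≤ n) (a : ℕ) (G : ℤ[X]) (x : Fin n → ℤ_[p]) :
    wt a (Qb p) n (toOm p G) (em p n x) =
      ‖(MvPolynomial.aeval x (polyDR n a G) : ℤ_[p])‖ := by
  set j : ℤ_[p] →+* PadicAlgCl p :=
    (algebraMap ℚ_[p] (PadicAlgCl p)).comp (PadicInt.Coe.ringHom) with hj
  have hjn : ∀ u : ℤ_[p], ‖j u‖ = ‖u‖ := by
    intro u
    change ‖algebraMap ℚ_[p] (PadicAlgCl p) (u : ℚ_[p])‖ = _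
    rw [norm_algebraMap']
    rfl
  have h1 : up (em p n x) = (mp x).map j := by
    rw [mp_map]
    rfl
  have h2 : toOm p G = (G.map (Int.castRingHom ℤ_[p])).map j := by
    rw [Polynomial.map_map, toOm]
    congr 1
  have h3 : rr n (up (em p n x)) (toOm p G) =
      j (resultant (mp x) (G.map (Int.castRingHom ℤ_[p])) n G.natDegree) := by
    have h4 : (toOm p G).natDegree = G.natDegree :=
      natDegree_map_eq_of_injective (RingHom.injective_int _) G
    rw [rr, h4, h1, h2, resultant_map_map]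
  rw [wt, IntermediateField.finrank_bot, pow_one, h3, h1, dd_map, aeval_polyDR hn, hjn, hjn,
    norm_mul, norm_pow, norm_mul, norm_pow, norm_neg, norm_one, one_pow, one_mul]

end Padic

section Complex

variable {n : ℕ}

theorem rr_X_sub_C_one {k : Type*} [Field k] [IsAlgClosed k] (c : k) (g : k[X]) :
    rr 1 (X - C c) g = g.eval c := by
  have := rr_X_sub_C_pow (n := 1) c g
  simpa using this

theorem dd_X_sub_C {k : Type*} [Field k] [IsAlgClosed k] (c : k) : dd 1 (X - C c) = 1 := by
  rw [dd_eq (monic_X_sub_C c) (natDegree_X_sub_C c)]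
  simp

theorem dd_roots : ∃ ε : ℂ, ε ≠ 0 ∧ ∀ y : Fin n → ℂ,
    dd n (∏ i, (X - C (y i))) = ε * ∏ i : Fin n, ∏ j ∈ Finset.Ioi i, (y j - y i) ^ 2 := by
  classical
  set T : Finset (Fin n × Fin n) := Finset.univ.filter fun q => q.1 < q.2 with hT
  refine ⟨(-1) ^ T.card, pow_ne_zero _ (by norm_num), fun y => ?_⟩
  have h1 := dd_prod (Finset.univ : Finset (Fin n)) (fun i => X - C (y i)) 1
    (fun i _ => monic_X_sub_C _) (fun i _ => natDegree_X_sub_C _)
  rw [Finset.card_univ, Fintype.card_fin, mul_one] at h1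
  rw [h1, Finset.prod_congr rfl fun i _ => dd_X_sub_C (y i), Finset.prod_const_one, one_mul]
  have h2 : ∀ q : Fin n × Fin n, rr 1 (X - C (y q.1)) (X - C (y q.2)) = y q.1 - y q.2 := by
    intro q
    rw [rr_X_sub_C_one]
    simp
  simp only [h2]
  have h3 : (Finset.univ : Finset (Fin n)).offDiag = T ∪ T.image Prod.swap := by
    ext q
    simp only [Finset.mem_offDiag, Finset.mem_univ, true_and, hT, Finset.mem_union,
      Finset.mem_filter, Finset.mem_image, Prod.exists, Prod.swap_prod_mk]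
    constructor
    · intro h
      rcases lt_or_gt_of_ne h with h | h
      · exact Or.inl h
      · exact Or.inr ⟨q.2, q.1, h, rfl⟩
    · rintro (h | ⟨i, j, h, rfl⟩)
      · exact h.ne
      · exact h.ne'
  have h4 : Disjoint T (T.image Prod.swap) := by
    rw [Finset.disjoint_left]
    intro q hq hq'
    simp only [hT, Finset.mem_filter, Finset.mem_univ, true_and, Finset.mem_image, Prod.exists,
      Prod.swap_prod_mk] at hq hq'
    obtain ⟨i, j, h, rfl⟩ := hq'
    exact absurd hq h.not_gt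
  rw [h3, Finset.prod_union h4, Finset.prod_image (fun a _ b _ h => Prod.swap_injective h),
    ← Finset.prod_mul_distrib]
  have h5 : ∏ i : Fin n, ∏ j ∈ Finset.Ioi i, (y j - y i) ^ 2 =
      ∏ q ∈ T, (y q.2 - y q.1) ^ 2 := by
    rw [hT, Finset.prod_filter, ← Finset.univ_product_univ, Finset.prod_product]
    refine Finset.prod_congr rfl fun i _ => ?_
    rw [← Finset.prod_filter]
    refine Finset.prod_congr ?_ fun _ _ => rfl
    ext j
    simp
  rw [h5, ← Finset.prod_const, ← Finset.prod_mul_distrib]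
  refine Finset.prod_congr rfl fun q _ => ?_
  simp only [Prod.fst_swap, Prod.snd_swap]
  ring

theorem eval_hz (z : ℂ) (x : Fin n → ℂ) : MvPolynomial.eval x (hz n z) = (mp x).eval z := by
  rw [hz, map_add, map_sum, mp_eval, lp_eval, MvPolynomial.eval_C]
  congr 1
  refine Finset.sum_congr rfl fun j _ => ?_
  rw [map_mul, MvPolynomial.eval_C, MvPolynomial.eval_X, mul_comm]

theorem mp_coeffs (y : Fin n → ℂ) :
    mp (fun j : Fin n => (∏ i, (X - C (y i))).coeff j) = ∏ i, (X - C (y i)) := by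
  obtain ⟨x, hx, hx2⟩ := exists_mp (n := n) (h := ∏ i, (X - C (y i)))
    (monic_prod_of_monic _ _ fun i _ => monic_X_sub_C _) (by
      rw [natDegree_prod_of_monic _ _ fun i _ => monic_X_sub_C _]
      simp)
  rw [← hx]
  congr 1
  funext j
  exact (mp_coeff x j)

/-- The factorization over the complex numbers. -/
theorem complex_factor (hn : 1 ≤ n) (a : ℕ) {G : ℤ[X]} (hG : G ≠ 0)
    {Fd : MvPolynomial (Fin n) ℂ} (hFd : IsDisc n Fd) :
    ∃ (c : ℂ) (r : ℕ) (z : Fin r → ℂ) (b : Fin r → ℕ), c ≠ 0 ∧ Function.Injective z ∧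
      (∀ j, 1 ≤ b j) ∧
      MvPolynomial.map (Int.castRingHom ℂ) (polyDR n a G) =
        MvPolynomial.C c * (Fd ^ a * ∏ j, hz n (z j) ^ b j) ∧
      ∀ w : ℂ, 1 ≤ (G.map (Int.castRingHom ℂ)).rootMultiplicity w →
        ∃ j, b j = (G.map (Int.castRingHom ℂ)).rootMultiplicity w := by
  classical
  set GC := G.map (Int.castRingHom ℂ) with hGC
  have hGC0 : GC ≠ 0 := by
    rw [hGC, Ne, Polynomial.map_eq_zero_iff (RingHom.injective_int _)]
    exact hG
  have hdeg : GC.natDegree = G.natDegree :=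
    natDegree_map_eq_of_injective (RingHom.injective_int _) G
  obtain ⟨ε, hε, hdd⟩ := dd_roots (n := n)
  set R := GC.roots.toFinset with hR
  let ez := R.equivFin.symm
  refine ⟨((-1) ^ (n * (n - 1) / 2) * ε) ^ a * ((-1) ^ (n * G.natDegree) *
    GC.leadingCoeff ^ n), R.card, fun j => (ez j : ℂ), fun j => GC.roots.count (ez j : ℂ),
    ?_, ?_, ?_, ?_, ?_⟩
  · refine mul_ne_zero (pow_ne_zero _ (mul_ne_zero (pow_ne_zero _ (by norm_num)) hε))
      (mul_ne_zero (pow_ne_zero _ (by norm_num)) (pow_ne_zero _ (leadingCoeff_ne_zero.mpr hGC0)))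
  · intro i j h
    exact ez.injective (Subtype.ext h)
  · intro j
    exact Multiset.one_le_count_iff_mem.mpr (Multiset.mem_toFinset.mp (ez j).2)
  · apply MvPolynomial.funext
    intro x
    obtain ⟨y, hy⟩ := Pool.Agent.K3h15.DM.coeffs_surj n x
    have h1 : MvPolynomial.eval x (MvPolynomial.map (Int.castRingHom ℂ) (polyDR n a G)) =
        MvPolynomial.aeval x (polyDR n a G) := by
      rw [MvPolynomial.eval_map]
      rfl
    have hmp : mp x = ∏ i, (X - C (y i)) := by rw [← hy, mp_coeffs]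
    have h2 : MvPolynomial.eval x Fd = ∏ i : Fin n, ∏ j ∈ Finset.Ioi i, (y j - y i) ^ 2 := by
      rw [← hy]
      exact hFd y
    have h3 : resultant (mp x) GC n G.natDegree = (-1) ^ (n * G.natDegree) *
        (GC.leadingCoeff ^ n * ∏ j : Fin R.card, (mp x).eval (ez j : ℂ) ^
          GC.roots.count (ez j : ℂ)) := by
      rw [resultant_comm, ← hdeg]
      congr 1
      have h4 := resultant_eq_prod_eval GC (mp x) n (mp_natDegree x).le (IsAlgClosed.splits GC)
      rw [h4]
      congr 1
      rw [Finset.prod_multiset_map_count]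
      have h5 := Fintype.prod_equiv ez (fun j => (mp x).eval (ez j : ℂ) ^
        GC.roots.count (ez j : ℂ)) (fun w : R => (mp x).eval (w : ℂ) ^ GC.roots.count (w : ℂ))
        (fun j => rfl)
      rw [h5, ← Finset.prod_coe_sort R]
    rw [h1, aeval_polyDR hn, h3, map_mul, MvPolynomial.eval_C, map_mul, map_pow, h2, map_prod,
      hmp, hdd y]
    have h6 : ∀ j : Fin R.card, MvPolynomial.eval x (hz n (ez j : ℂ) ^ GC.roots.count (ez j : ℂ)) =
        (∏ i, (X - C (y i))).eval (ez j : ℂ) ^ GC.roots.count (ez j : ℂ) := by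
      intro j
      rw [map_pow, eval_hz, hmp]
    simp only [h6]
    ring
  · intro w hw
    have hwR : w ∈ R := by
      rw [hR, Multiset.mem_toFinset, ← Multiset.one_le_count_iff_mem, count_roots]
      exact hw
    refine ⟨ez.symm ⟨w, hwR⟩, ?_⟩
    simp only [Equiv.apply_symm_apply, count_roots]

end Complex

theorem mult_key {M : Type*} [Field M] [CharZero M] {GQ q S : ℚ[X]} {e : ℕ}
    (hqi : Irreducible q) (hqm : q.Monic) (hS : GQ = q ^ e * S) (hnd : ¬ q ∣ S) {w : M}
    (hw : aeval w q = 0) : (GQ.map (algebraMap ℚ M)).rootMultiplicity w = e := by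
  classical
  have hcop : IsCoprime q S := (hqi.coprime_iff_not_dvd).mpr hnd
  have hq0 : q.map (algebraMap ℚ M) ≠ 0 := (hqm.map _).ne_zero
  have hS0 : S ≠ 0 := by
    rintro rfl
    exact hnd (dvd_zero _)
  have hSM : S.map (algebraMap ℚ M) ≠ 0 := by
    rwa [Ne, Polynomial.map_eq_zero_iff (algebraMap ℚ M).injective]
  have hqr : (q.map (algebraMap ℚ M)).IsRoot w := by
    rw [IsRoot, eval_map, ← aeval_def, hw]
  have h1 : (q.map (algebraMap ℚ M)).rootMultiplicity w = 1 := by
    apply le_antisymm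
    · exact rootMultiplicity_le_one_of_separable (hqi.separable.map) w
    · exact (rootMultiplicity_pos hq0).mpr hqr
  have h2 : (S.map (algebraMap ℚ M)).rootMultiplicity w = 0 := by
    apply rootMultiplicity_eq_zero
    intro h
    have h3 := hcop.map (mapRingHom (algebraMap ℚ M))
    obtain ⟨u, v, huv⟩ := h3
    have h4 := congrArg (eval w) huv
    simp only [coe_mapRingHom, eval_add, eval_mul, eval_one] at h4
    rw [IsRoot] at h hqr
    rw [h, hqr] at h4
    simp at h4
  have h5 : GQ.map (algebraMap ℚ M) = (q.map (algebraMap ℚ M)) ^ e * S.map (algebraMap ℚ M) := by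
    conv_lhs => rw [hS]
    rw [Polynomial.map_mul, Polynomial.map_pow]
  have h6 : ((q.map (algebraMap ℚ M)) ^ e).rootMultiplicity w = e := by
    rw [← count_roots, roots_pow, Multiset.count_nsmul, count_roots, h1, mul_one]
  rw [h5, rootMultiplicity_mul (mul_ne_zero (pow_ne_zero _ hq0) hSM), h6, h2, add_zero]

/-- The multiplicities of the roots are the same in all algebraically closed fields. -/
theorem mult_transfer {L : Type*} [Field L] [CharZero L] {G : ℤ[X]} (hG : G ≠ 0)
    {r : L} (hr : 1 ≤ (G.map (Int.castRingHom L)).rootMultiplicity r) :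
    ∃ w : ℂ, (G.map (Int.castRingHom ℂ)).rootMultiplicity w =
      (G.map (Int.castRingHom L)).rootMultiplicity r := by
  set GQ := G.map (Int.castRingHom ℚ) with hGQ
  have hGQ0 : GQ ≠ 0 := by
    rw [hGQ, Ne, Polynomial.map_eq_zero_iff (RingHom.injective_int _)]
    exact hG
  have hLr : G.map (Int.castRingHom L) = GQ.map (algebraMap ℚ L) := by
    rw [hGQ, Polynomial.map_map]
    congr 1
    exact RingHom.ext_int _ _
  have hCr : G.map (Int.castRingHom ℂ) = GQ.map (algebraMap ℚ ℂ) := by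
    rw [hGQ, Polynomial.map_map]
    congr 1
  have hGL0 : G.map (Int.castRingHom L) ≠ 0 := by
    rw [Ne, Polynomial.map_eq_zero_iff (RingHom.injective_int _)]
    exact hG
  have hroot : (G.map (Int.castRingHom L)).IsRoot r := by
    rw [← rootMultiplicity_pos hGL0]
    omega
  have hint : IsIntegral ℚ r := by
    apply IsAlgebraic.isIntegral
    refine ⟨GQ, hGQ0, ?_⟩
    rw [aeval_def, ← eval_map, ← hLr]
    exact hroot
  have hqi : Irreducible (minpoly ℚ r) := minpoly.irreducible hint
  have hqm : (minpoly ℚ r).Monic := minpoly.monic hint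
  have hfin := finiteMultiplicity_of_degree_pos_of_monic hqi.degree_pos hqm hGQ0
  obtain ⟨S, hS, hnd⟩ := hfin.exists_eq_pow_mul_and_not_dvd
  obtain ⟨w, hw⟩ := IsAlgClosed.exists_aeval_eq_zero ℂ (minpoly ℚ r) hqi.degree_pos.ne'
  refine ⟨w, ?_⟩
  rw [hCr, hLr, mult_key hqi hqm hS hnd hw, mult_key hqi hqm hS hnd (minpoly.aeval ℚ r)]

end Pool.Agent.H942.DP
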