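import Pool.Agent.H942.DP.Box

set_option autoImplicit false

/-! The induction. -/

namespace Pool.Agent.H942.DP

open MeasureTheory Metric Set Polynomial Topology Filter

section Ser

variable {p : ℕ} {E : Type*} [NormedAddCommGroup E] [ProperSpace E] [MeasurableSpace E]
  [BorelSpace E]

omit [ProperSpace E] [MeasurableSpace E] [BorelSpace E] in
theorem Adm.pow_mul {w : E → ℝ} {V : Set E} (h : Adm p w V) (m : ℕ) :
    Adm p (fun x => ((p : ℝ) ^ m)⁻¹ * w x) V := by
  refine ⟨continuous_const.mul h.1, fun x hx => ?_⟩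
  rcases h.2 x hx with h | ⟨j, hj⟩
  · left
    simp only [h, mul_zero]
  · right
    refine ⟨m + j, ?_⟩
    simp only [hj, pow_add, mul_inv]

theorem ser_pow_mul (hp : 1 < p) {w : E → ℝ} {V : Set E} (h : Adm p w V) (m : ℕ) :
    ser p (fun x => ((p : ℝ) ^ m)⁻¹ * w x) V = PowerSeries.X ^ m * ser p w V := by
  have hp' : (1 : ℝ) < p := by exact_mod_cast hp
  have hp0 : (0 : ℝ) < p := by linarith
  ext l
  rw [PowerSeries.coeff_X_pow_mul']
  simp only [ser, PowerSeries.coeff_mk]
  split_ifs with hm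
  · congr 1
    ext y
    simp only [lv, mem_inter_iff, mem_ofPred_eq]
    refine and_congr_right fun hy => ?_
    have h3 : (p : ℝ) ^ l = p ^ m * p ^ (l - m) := by rw [← pow_add]; congr 1; omega
    rw [h3, mul_inv]
    exact mul_right_inj' (inv_ne_zero (pow_ne_zero _ hp0.ne'))
  · rw [show lv p (fun x => ((p : ℝ) ^ m)⁻¹ * w x) V l = ∅ from ?_, vol_empty]
    ext y
    simp only [lv, mem_inter_iff, mem_ofPred_eq, mem_empty_iff_false, iff_false, not_and]
    intro hy hy2
    rcases h.2 y hy with h3 | ⟨i, hi⟩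
    · rw [h3, mul_zero] at hy2
      exact (inv_ne_zero (pow_ne_zero l hp0.ne')) hy2.symm
    · rw [hi, ← mul_inv, ← pow_add] at hy2
      have := inv_pow_inj hp hy2
      omega

theorem ser_one (hp : 1 < p) {w : E → ℝ} {V : Set E} (h : ∀ x ∈ V, w x = 1) :
    ser p w V = PowerSeries.C (vol V) := by
  ext l
  rw [PowerSeries.coeff_C]
  simp only [ser, PowerSeries.coeff_mk]
  split_ifs with hl
  · subst hl
    congr 1
    ext y
    simp only [lv, mem_inter_iff, mem_ofPred_eq, pow_zero, inv_one, and_iff_left_iff_imp]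
    exact h y
  · rw [show lv p w V l = ∅ from ?_, vol_empty]
    ext y
    simp only [lv, mem_inter_iff, mem_ofPred_eq, mem_empty_iff_false, iff_false, not_and]
    intro hy hy2
    rw [h y hy] at hy2
    have h1 : ((p : ℝ) ^ 0)⁻¹ = ((p : ℝ) ^ l)⁻¹ := by rw [← hy2]; simp
    exact hl (inv_pow_inj hp h1).symm

end Ser

section Scale

variable {k : Type*} [Field k] [IsAlgClosed k] [CharZero k] {n : ℕ}

omit [IsAlgClosed k] in
theorem derivative_scaleRoots {f : k[X]} (r : k) :
    derivative (f.scaleRoots r) = (derivative f).scaleRoots r := by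
  ext i
  rw [coeff_derivative, coeff_scaleRoots, coeff_scaleRoots, coeff_derivative,
    natDegree_derivative]
  have : f.natDegree - (i + 1) = f.natDegree - 1 - i := by omega
  rw [this]
  ring

theorem dd_scale {f : k[X]} (hm : f.Monic) (hn : f.natDegree = n) {r : k} (hr : r ≠ 0) :
    dd n (f.scaleRoots r) = r ^ (n * (n - 1)) * dd n f := by
  rw [dd_eq ((monic_scaleRoots_iff r).mpr hm) (by rw [natDegree_scaleRoots, hn]), dd_eq hm hn,
    roots_scaleRoots _ (isUnit_iff_ne_zero.mpr hr), Multiset.map_map]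
  have h1 : (f.roots.map ((fun z => (derivative (f.scaleRoots r)).eval z) ∘ fun x => r * x)) =
      f.roots.map fun z => r ^ (n - 1) * (derivative f).eval z := by
    refine Multiset.map_congr rfl fun z _ => ?_
    simp only [Function.comp_apply]
    rw [derivative_scaleRoots, scaleRoots_eval_mul, natDegree_derivative, hn]
  have h2 : Multiset.card f.roots = n := by
    rw [← hn]
    exact (splits_iff_card_roots.mp (IsAlgClosed.splits f))
  rw [h1, Multiset.prod_map_mul, Multiset.map_const', Multiset.prod_replicate, h2, ← pow_mul,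
    mul_comm (n - 1) n]

omit [CharZero k] in
theorem rr_scale {f : k[X]} (hm : f.Monic) (hn : f.natDegree = n) {r : k} (hr : r ≠ 0) (b : ℕ) :
    rr n (f.scaleRoots r) (X ^ b) = r ^ (n * b) * rr n f (X ^ b) := by
  rw [rr_eq ((monic_scaleRoots_iff r).mpr hm) (by rw [natDegree_scaleRoots, hn]), rr_eq hm hn,
    roots_scaleRoots _ (isUnit_iff_ne_zero.mpr hr), Multiset.map_map]
  have h1 : (f.roots.map ((fun z => (X ^ b : k[X]).eval z) ∘ fun x => r * x)) =
      f.roots.map fun z => r ^ b * (X ^ b : k[X]).eval z := by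
    refine Multiset.map_congr rfl fun z _ => ?_
    simp [mul_pow]
  have h2 : Multiset.card f.roots = n := by
    rw [← hn]
    exact (splits_iff_card_roots.mp (IsAlgClosed.splits f))
  rw [h1, Multiset.prod_map_mul, Multiset.map_const', Multiset.prod_replicate, h2, ← pow_mul,
    mul_comm b n]

end Scale

variable {p : ℕ} [hp : Fact p.Prime] {A : ℕ → ℕ → Prop}

section Wt

variable {K : IntermediateField ℚ_[p] (PadicAlgCl p)} {n a : ℕ}

theorem toOm_X_pow (b : ℕ) : toOm p (X ^ b) = X ^ b := by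
  rw [toOm, Polynomial.map_pow, map_X]

theorem norm_ppO (j : ℕ) : ‖((p : PadicAlgCl p) ^ j)‖ = ((p : ℝ) ^ j)⁻¹ := by
  have h := norm_pp (⊤ : IntermediateField ℚ_[p] (PadicAlgCl p)) j
  rw [← h]
  rfl

theorem ppO_ne_zero (j : ℕ) : ((p : PadicAlgCl p) ^ j) ≠ 0 := by
  have hp0 : (0 : ℝ) < p := by exact_mod_cast hp.out.pos
  rw [← norm_ne_zero_iff, norm_ppO]
  positivity

omit hp in
theorem wt_alg2 (r D R : ℝ) (u v a k : ℕ) :
    ((r ^ u * D) ^ a * (r ^ v * R)) ^ k = r ^ ((a * u + v) * k) * (D ^ a * R) ^ k := by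
  ring

/-- The exponent of the scaling. -/
noncomputable def NN (K : IntermediateField ℚ_[p] (PadicAlgCl p)) (a n b : ℕ) : ℕ :=
  (a * (n * (n - 1)) + n * b) * Module.finrank ℚ_[p] K

theorem wt_sc (k b : ℕ) (x : Fin n → K) :
    wt a K n (toOm p (X ^ b)) (sc K n k x) =
      ((p : ℝ) ^ (k * NN K a n b))⁻¹ * wt a K n (toOm p (X ^ b)) x := by
  have h1 := norm_ppO (p := p) k
  rw [wt, wt, up_sc, toOm_X_pow, dd_scale (up_monic x) (up_natDegree x) (ppO_ne_zero k),
    rr_scale (up_monic x) (up_natDegree x) (ppO_ne_zero k), norm_mul, norm_mul, norm_pow,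
    norm_pow _ (n * b), h1, NN]
  have e : ((p : ℝ) ^ (k * ((a * (n * (n - 1)) + n * b) * Module.finrank ℚ_[p] K)))⁻¹ =
      (((p : ℝ) ^ k)⁻¹) ^ ((a * (n * (n - 1)) + n * b) * Module.finrank ℚ_[p] K) := by
    rw [inv_pow, ← pow_mul]
  rw [e]
  exact wt_alg2 _ _ _ _ _ _ _

theorem wt_tr {c : K} (x : Fin n → K) :
    wt a K n (toOm p (X ^ 0)) (tr c x) = wt a K n (toOm p (X ^ 0)) x := by
  have h1 : up (tr c x) = (up x).comp (X - C (c : PadicAlgCl p)) := by
    rw [up_eq, up_eq, mp_tr, Polynomial.map_comp, Polynomial.map_sub, map_X, map_C]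
    rfl
  rw [wt, wt, h1, dd_shift (up_monic x) (up_natDegree x), rr_shift (up_monic x) (up_natDegree x)]
  have h2 : (toOm p (X ^ 0)).comp (X + C (c : PadicAlgCl p)) = toOm p (X ^ 0) := by
    rw [toOm_X_pow]
    simp
  rw [h2]

variable [FiniteDimensional ℚ_[p] K]

theorem adm_P (P : ℤ[X]) {V : Set (Fin n → K)} (hV : V ⊆ closedBall 0 1) :
    Adm p (wt a K n (toOm p P)) V := (adm_wt a K n P).mono hV

omit [FiniteDimensional ℚ_[p] K] in
theorem box_sub (k : ℕ) : box K n k ⊆ closedBall 0 1 := by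
  have hp1 : (1 : ℝ) ≤ p := by exact_mod_cast hp.out.one_lt.le
  exact (box_subset k).trans (closedBall_subset_closedBall (inv_le_one_of_one_le₀
    (one_le_pow₀ hp1)))

theorem ser_box (k b : ℕ) :
    ser p (wt a K n (toOm p (X ^ b))) (box K n k) =
      PowerSeries.C (((p : ℝ) ^ (Module.finrank ℚ_[p] K * ∑ i : Fin n, k * (n - i)))⁻¹) *
        (PowerSeries.X ^ (k * NN K a n b) *
          ser p (wt a K n (toOm p (X ^ b))) (closedBall 0 1)) := by
  have h1 := adm_P (a := a) (n := n) (K := K) (X ^ b) (Subset.refl (closedBall 0 1))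
  rw [← sc_image, ser_image hp.out.one_lt (ko_ball _ one_pos) (h1.pow_mul (k * NN K a n b))
    (fun W _ _ => vol_sc k W) (fun x _ => wt_sc k b x), ser_pow_mul hp.out.one_lt h1]

theorem rat_box (k b : ℕ)
    (h : Rat p A (ser p (wt a K n (toOm p (X ^ b))) (closedBall 0 1))) :
    Rat p A (ser p (wt a K n (toOm p (X ^ b))) (box K n k)) := by
  rw [ser_box]
  exact (rat_C _).mul ((rat_X_pow _).mul h)

end Wt

end Pool.Agent.H942.DP
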