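import Pool.Agent.H942.DP.Ift

set_option autoImplicit false

/-! Volumes of balls and boxes over finite extensions of `ℚ_p`. -/

namespace Pool.Agent.H942.DP

open MeasureTheory Metric Set

variable {p : ℕ} [hp : Fact p.Prime]

noncomputable local instance instMeasQp : MeasurableSpace ℚ_[p] := borel ℚ_[p]

local instance instBorelQp : BorelSpace ℚ_[p] := ⟨rfl⟩

/-- Representatives of the integers modulo `p ^ j`. -/
theorem padic_reps (j : ℕ) : (closedBall (0 : ℚ_[p]) 1) =
    ⋃ i ∈ Finset.range (p ^ j), closedBall ((i : ℕ) : ℚ_[p]) (((p : ℝ) ^ j)⁻¹) := by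
  have hp1 : (1 : ℝ) ≤ p := by exact_mod_cast hp.out.one_lt.le
  ext x
  simp only [mem_iUnion, Finset.mem_range, exists_prop, mem_closedBall, dist_eq_norm, sub_zero]
  constructor
  · intro hx
    let y : ℤ_[p] := ⟨x, hx⟩
    refine ⟨y.appr j, y.appr_lt j, ?_⟩
    have h1 := y.appr_spec j
    rw [← PadicInt.norm_le_pow_iff_mem_span_pow] at h1
    have h2 : ‖(y - (y.appr j : ℤ_[p]) : ℤ_[p])‖ = ‖x - ((y.appr j : ℕ) : ℚ_[p])‖ := by
      rw [PadicInt.norm_def]
      push_cast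
      rfl
    rw [h2, zpow_neg, zpow_natCast] at h1
    exact h1
  · rintro ⟨i, -, hi⟩
    have h1 : x = (x - (i : ℚ_[p])) + (i : ℚ_[p]) := by ring
    rw [h1]
    refine (IsUltrametricDist.norm_add_le_max _ _).trans (max_le (hi.trans ?_) ?_)
    · exact inv_le_one_of_one_le₀ (one_le_pow₀ hp1)
    · have := Padic.norm_int_le_one (p := p) (i : ℤ)
      exact_mod_cast this

theorem padic_reps_disj (j : ℕ) {i i' : ℕ} (hi : i < p ^ j) (hi' : i' < p ^ j)
    (h : ‖((i : ℕ) : ℚ_[p]) - ((i' : ℕ) : ℚ_[p])‖ ≤ ((p : ℝ) ^ j)⁻¹) : i = i' := by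
  have h1 : ‖(((i : ℤ) - (i' : ℤ) : ℤ) : ℚ_[p])‖ ≤ (p : ℝ) ^ (-(j : ℤ)) := by
    rw [zpow_neg, zpow_natCast]
    push_cast
    exact h
  rw [Padic.norm_int_le_pow_iff_dvd] at h1
  have h2 : ((p ^ j : ℕ) : ℤ) ∣ (i : ℤ) - (i' : ℤ) := by exact_mod_cast h1
  have h3 : (i : ℤ) - (i' : ℤ) = 0 := by
    refine Int.eq_zero_of_abs_lt_dvd h2 ?_
    rw [abs_lt]
    constructor <;> omega
  omega

section Cube

/-- Cosets of a box in a box. -/
theorem vol_cosets {ι : Type*} [Fintype ι] [DecidableEq ι] {K : Type*} [NormedAddCommGroup K]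
    [IsUltrametricDist K] [ProperSpace K] [MeasurableSpace K] [BorelSpace K]
    (ρ : ι → ℝ) (hρ : ∀ i, 0 < ρ i) (F : ι → Finset K)
    (hF : ∀ i, closedBall (0 : K) 1 = ⋃ x ∈ F i, closedBall x (ρ i))
    (hd : ∀ i, (F i : Set K).PairwiseDisjoint fun x => closedBall x (ρ i)) :
    vol (closedBall (0 : ι → K) 1) =
      ((∏ i, (F i).card : ℕ) : ℝ) * vol {x : ι → K | ∀ i, ‖x i‖ ≤ ρ i} := by
  classical
  set B : Set (ι → K) := {x : ι → K | ∀ i, ‖x i‖ ≤ ρ i} with hB
  have hBpi : B = Set.pi univ fun i => closedBall (0 : K) (ρ i) := by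
    ext x
    simp [hB]
  have hKB : KO B := by
    rw [hBpi]
    exact ⟨isCompact_univ_pi fun i => isCompact_closedBall _ _,
      isOpen_set_pi finite_univ fun i _ => IsUltrametricDist.isOpen_closedBall _ (hρ i).ne'⟩
  have hT : ∀ r : ι → K, (fun y => r + y) '' B = {x | ∀ i, ‖x i - r i‖ ≤ ρ i} := by
    intro r
    ext x
    constructor
    · rintro ⟨y, hy, rfl⟩
      intro i
      simpa using hy i
    · intro hx
      exact ⟨x - r, fun i => by simpa using hx i, by simp⟩
  have hKT : ∀ r : ι → K, KO ((fun y => r + y) '' B) := fun r =>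
    ⟨hKB.1.image (continuous_const_add r), (Homeomorph.addLeft r).isOpenMap _ hKB.2⟩
  have h1 : closedBall (0 : ι → K) 1 = ⋃ r ∈ Fintype.piFinset F, (fun y => r + y) '' B := by
    ext x
    simp only [mem_iUnion, exists_prop, Fintype.mem_piFinset, hT, mem_ofPred_eq]
    rw [mem_closedBall, dist_zero_right, pi_norm_le_iff_of_nonneg zero_le_one]
    constructor
    · intro hx
      have h2 : ∀ i, ∃ r ∈ F i, ‖x i - r‖ ≤ ρ i := by
        intro i
        have h3 : x i ∈ closedBall (0 : K) 1 := by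
          rw [mem_closedBall, dist_zero_right]
          exact hx i
        rw [hF i] at h3
        obtain ⟨r, hr, h4⟩ := mem_iUnion₂.mp h3
        exact ⟨r, hr, by rwa [mem_closedBall, dist_eq_norm] at h4⟩
      choose r hr hr2 using h2
      exact ⟨r, hr, hr2⟩
    · rintro ⟨r, hr, hr2⟩ i
      have h3 : x i ∈ ⋃ y ∈ F i, closedBall y (ρ i) :=
        mem_iUnion₂.mpr ⟨r i, hr i, by rw [mem_closedBall, dist_eq_norm]; exact hr2 i⟩
      rw [← hF i, mem_closedBall, dist_zero_right] at h3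
      exact h3
  rw [h1, vol_biUnion _ _ (fun r _ => hKT r), Finset.sum_congr rfl fun r _ => vol_translate r B,
    Finset.sum_const, Fintype.card_piFinset, nsmul_eq_mul]
  intro r hr r' hr' hne
  rw [Function.onFun, Set.disjoint_left]
  intro x hx hx'
  rw [hT] at hx hx'
  apply hne
  funext i
  by_contra hri
  have h4 := hd i (Fintype.mem_piFinset.mp hr i) (Fintype.mem_piFinset.mp hr' i) hri
  rw [Function.onFun, Set.disjoint_left] at h4
  exact h4 (by rw [mem_closedBall, dist_eq_norm]; exact hx i)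
    (by rw [mem_closedBall, dist_eq_norm]; exact hx' i)

end Cube

theorem vol_cube (m j : ℕ) : vol (closedBall (0 : Fin m → ℚ_[p]) (((p : ℝ) ^ j)⁻¹)) =
    ((p : ℝ) ^ (j * m))⁻¹ * vol (closedBall (0 : Fin m → ℚ_[p]) 1) := by
  classical
  have hp0 : (0 : ℝ) < p := by exact_mod_cast hp.out.pos
  have hinj : Function.Injective fun i : ℕ => (i : ℚ_[p]) := Nat.cast_injective
  have h := vol_cosets (ι := Fin m) (K := ℚ_[p]) (fun _ => ((p : ℝ) ^ j)⁻¹)
    (fun _ => by positivity) (fun _ => (Finset.range (p ^ j)).image fun i : ℕ => (i : ℚ_[p]))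
    (fun _ => by
      rw [padic_reps j]
      ext x
      simp) (fun _ => by
      intro x hx y hy hxy
      obtain ⟨i, hi, rfl⟩ := Finset.mem_image.mp (Finset.mem_coe.mp hx)
      obtain ⟨i', hi', rfl⟩ := Finset.mem_image.mp (Finset.mem_coe.mp hy)
      rw [Function.onFun, Set.disjoint_left]
      intro z hz hz'
      rw [mem_closedBall, dist_eq_norm] at hz hz'
      apply hxy
      congr 1
      refine padic_reps_disj j (Finset.mem_range.mp hi) (Finset.mem_range.mp hi') ?_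
      have e : (i : ℚ_[p]) - i' = -(z - i) + (z - i') := by ring
      rw [e]
      refine (IsUltrametricDist.norm_add_le_max _ _).trans (max_le ?_ hz')
      rwa [norm_neg])
  have h2 : {x : Fin m → ℚ_[p] | ∀ i, ‖x i‖ ≤ ((p : ℝ) ^ j)⁻¹} =
      closedBall (0 : Fin m → ℚ_[p]) (((p : ℝ) ^ j)⁻¹) := by
    ext x
    rw [mem_closedBall, dist_zero_right, pi_norm_le_iff_of_nonneg (by positivity)]
    rfl
  rw [h2, Finset.prod_const, Finset.card_image_of_injective _ hinj, Finset.card_range,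
    Finset.card_univ, Fintype.card_fin] at h
  rw [h]
  push_cast
  rw [pow_mul]
  field_simp

section General

variable {E : Type*} [NormedAddCommGroup E] [NormedSpace ℚ_[p] E] [FiniteDimensional ℚ_[p] E]
  [ProperSpace E] [MeasurableSpace E] [BorelSpace E]

/-- Multiplication by `p ^ j`. -/
theorem vol_smul (j : ℕ) (V : Set E) :
    vol ((fun x : E => ((p : ℚ_[p]) ^ j) • x) '' V) =
      ((p : ℝ) ^ (j * Module.finrank ℚ_[p] E))⁻¹ * vol V := by
  have hp0 : (0 : ℝ) < p := by exact_mod_cast hp.out.pos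
  have hpj : ((p : ℚ_[p]) ^ j) ≠ 0 := pow_ne_zero j (by exact_mod_cast hp.out.ne_zero)
  set m := Module.finrank ℚ_[p] E with hm
  let S : E ≃L[ℚ_[p]] E := ContinuousLinearEquiv.smulLeft (Units.mk0 _ hpj)
  obtain ⟨c, hc0, hc⟩ := exists_vol_image (E := E) (F := E) S.toLinearEquiv.toAddEquiv
    S.continuous S.symm.continuous
  have hS : ∀ V : Set E, (fun x : E => ((p : ℚ_[p]) ^ j) • x) '' V =
      S.toLinearEquiv.toAddEquiv '' V := fun V => rfl
  let A : (Fin m → ℚ_[p]) ≃L[ℚ_[p]] E :=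
    (Module.finBasis ℚ_[p] E).equivFun.symm.toContinuousLinearEquiv
  obtain ⟨d, hd0, hd⟩ := exists_vol_image (E := Fin m → ℚ_[p]) (F := E) A.toLinearEquiv.toAddEquiv
    A.continuous A.symm.continuous
  have h1 : S.toLinearEquiv.toAddEquiv '' (A.toLinearEquiv.toAddEquiv ''
      (closedBall (0 : Fin m → ℚ_[p]) 1)) =
      A.toLinearEquiv.toAddEquiv '' closedBall (0 : Fin m → ℚ_[p]) (((p : ℝ) ^ j)⁻¹) := by
    have h2 : closedBall (0 : Fin m → ℚ_[p]) (((p : ℝ) ^ j)⁻¹) =
        (fun x : Fin m → ℚ_[p] => ((p : ℚ_[p]) ^ j) • x) '' closedBall 0 1 := by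
      ext x
      constructor
      · intro hx
        refine ⟨((p : ℚ_[p]) ^ j)⁻¹ • x, ?_, ?_⟩
        · rw [mem_closedBall, dist_zero_right] at hx ⊢
          rw [norm_smul, norm_inv, norm_pow, Padic.norm_p, inv_pow, inv_inv]
          rwa [← le_inv_mul_iff₀ (by positivity), mul_one]
        · simp only
          rw [smul_smul, mul_inv_cancel₀ hpj, one_smul]
      · rintro ⟨y, hy, rfl⟩
        rw [mem_closedBall, dist_zero_right] at hy ⊢
        rw [norm_smul, norm_pow, Padic.norm_p, inv_pow]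
        exact mul_le_of_le_one_right (by positivity) hy
    rw [h2, image_image, image_image]
    refine image_congr fun x _ => ?_
    change ((p : ℚ_[p]) ^ j) • A x = A (((p : ℚ_[p]) ^ j) • x)
    rw [map_smul]
  have h3 := hc (A.toLinearEquiv.toAddEquiv '' (closedBall (0 : Fin m → ℚ_[p]) 1))
  rw [h1, hd, hd, vol_cube] at h3
  have h4 : 0 < vol (closedBall (0 : Fin m → ℚ_[p]) 1) :=
    vol_pos (ko_ball _ one_pos) ⟨0, mem_closedBall_self zero_le_one⟩
  have h5 : c = ((p : ℝ) ^ (j * m))⁻¹ := by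
    have h6 : (c - ((p : ℝ) ^ (j * m))⁻¹) * (d * vol (closedBall (0 : Fin m → ℚ_[p]) 1)) = 0 := by
      linear_combination -h3
    rcases mul_eq_zero.mp h6 with h7 | h7
    · linarith
    · exact absurd h7 (by positivity)
  rw [hS, hc, h5]

end General

section FieldK

variable {K : Type*} [NormedField K] [NormedAlgebra ℚ_[p] K] [FiniteDimensional ℚ_[p] K]
  [IsUltrametricDist K] [ProperSpace K] [MeasurableSpace K] [BorelSpace K]

theorem norm_p_pow (j : ℕ) : ‖((p : K) ^ j)‖ = ((p : ℝ) ^ j)⁻¹ := by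
  have h : ((p : ℕ) : K) = algebraMap ℚ_[p] K p := by simp
  rw [h, norm_pow, norm_algebraMap', Padic.norm_p, inv_pow]

/-- Representatives modulo `p ^ j`. -/
theorem exists_reps (j : ℕ) : ∃ F : Finset K, (∀ x ∈ F, ‖x‖ ≤ 1) ∧
    closedBall (0 : K) 1 = (⋃ x ∈ F, closedBall x (((p : ℝ) ^ j)⁻¹)) ∧
    ((F : Set K).PairwiseDisjoint fun x => closedBall x (((p : ℝ) ^ j)⁻¹)) ∧
    F.card = p ^ (j * Module.finrank ℚ_[p] K) := by
  have hp0 : (0 : ℝ) < p := by exact_mod_cast hp.out.pos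
  have hp1 : (1 : ℝ) ≤ p := by exact_mod_cast hp.out.one_lt.le
  have hr0 : 0 < ((p : ℝ) ^ j)⁻¹ := by positivity
  obtain ⟨F, h1, h2, h3⟩ := exists_balls (isCompact_closedBall (0 : K) 1)
    (fun _ => ((p : ℝ) ^ j)⁻¹) (fun _ _ => hr0) (fun x hx => by
      rw [IsUltrametricDist.closedBall_eq_of_mem hx]
      exact closedBall_subset_closedBall (inv_le_one_of_one_le₀ (one_le_pow₀ hp1)))
  refine ⟨F, fun x hx => by simpa using h1 x hx, h2, h3, ?_⟩
  have h4 : vol (closedBall (0 : K) 1) = F.card * vol (closedBall (0 : K) (((p : ℝ) ^ j)⁻¹)) := by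
    conv_lhs => rw [h2]
    rw [vol_biUnion F _ (fun x _ => ko_ball x hr0) h3,
      Finset.sum_congr rfl fun x _ => vol_ball x 0 _, Finset.sum_const, nsmul_eq_mul]
  have h5 : closedBall (0 : K) (((p : ℝ) ^ j)⁻¹) =
      (fun x : K => ((p : ℚ_[p]) ^ j) • x) '' closedBall 0 1 := by
    have e : ∀ x : K, ((p : ℚ_[p]) ^ j) • x = (p : K) ^ j * x := by
      intro x
      rw [Algebra.smul_def, map_pow]
      simp
    have hpK : ((p : K) ^ j) ≠ 0 := by
      rw [← norm_ne_zero_iff, norm_p_pow (p := p)]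
      exact hr0.ne'
    ext x
    constructor
    · intro hx
      refine ⟨((p : K) ^ j)⁻¹ * x, ?_, ?_⟩
      · rw [mem_closedBall, dist_zero_right] at hx ⊢
        rw [norm_mul, norm_inv, norm_p_pow (p := p), inv_inv]
        rwa [← le_inv_mul_iff₀ (by positivity), mul_one]
      · simp only
        rw [e, ← mul_assoc, mul_inv_cancel₀ hpK, one_mul]
    · rintro ⟨y, hy, rfl⟩
      rw [mem_closedBall, dist_zero_right] at hy ⊢
      simp only
      rw [e, norm_mul, norm_p_pow (p := p)]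
      exact mul_le_of_le_one_right (by positivity) hy
  rw [h5, vol_smul] at h4
  have h6 : 0 < vol (closedBall (0 : K) 1) :=
    vol_pos (ko_ball _ one_pos) ⟨0, mem_closedBall_self zero_le_one⟩
  have h7 : (F.card : ℝ) = (p : ℝ) ^ (j * Module.finrank ℚ_[p] K) := by
    have h8 : ((p : ℝ) ^ (j * Module.finrank ℚ_[p] K)) ≠ 0 := by positivity
    field_simp at h4
    linarith
  exact_mod_cast h7

/-- The volume of a box. -/
theorem vol_box {n : ℕ} (j : Fin n → ℕ) :
    vol {x : Fin n → K | ∀ i, ‖x i‖ ≤ ((p : ℝ) ^ j i)⁻¹} =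
      ((p : ℝ) ^ (Module.finrank ℚ_[p] K * ∑ i, j i))⁻¹ * vol (closedBall (0 : Fin n → K) 1) := by
  classical
  have hp0 : (0 : ℝ) < p := by exact_mod_cast hp.out.pos
  choose F h1 h2 h3 h4 using fun i : Fin n => exists_reps (p := p) (K := K) (j i)
  rw [vol_cosets (fun i => ((p : ℝ) ^ j i)⁻¹) (fun i => by positivity) F h2 h3]
  simp only [h4]
  rw [Finset.prod_pow_eq_pow_sum, ← Finset.sum_mul]
  push_cast
  rw [mul_comm (∑ i, j i)]
  have : ((p : ℝ) ^ (Module.finrank ℚ_[p] K * ∑ i, j i)) ≠ 0 := by positivity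
  field_simp

end FieldK

end Pool.Agent.H942.DP
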