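import Pool.Agent.H942.DP.Vol

set_option autoImplicit false

/-! The generating series of the volumes of the level sets of a function with values in
`{0} ∪ {p ^ (-k)}`, and series which are rational with prescribed denominators. -/

namespace Pool.Agent.H942.DP

open MeasureTheory Metric Set PowerSeries

/-- The denominators: products of the `1 - p ^ (-ν) X ^ N`, `A ν N`. -/
noncomputable def Den (p : ℕ) (A : ℕ → ℕ → Prop) : Submonoid (Polynomial ℝ) :=
  Submonoid.closure {D | ∃ ν N : ℕ, 0 < N ∧ A ν N ∧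
    D = 1 - Polynomial.C (((p : ℝ) ^ ν)⁻¹) * Polynomial.X ^ N}

/-- Rational with a denominator in `Den`. -/
def Rat (p : ℕ) (A : ℕ → ℕ → Prop) (Z : PowerSeries ℝ) : Prop :=
  ∃ D ∈ Den p A, ∃ P : Polynomial ℝ, (D : PowerSeries ℝ) * Z = (P : PowerSeries ℝ)

variable {p : ℕ} {A : ℕ → ℕ → Prop}

theorem rat_poly (P : Polynomial ℝ) : Rat p A (P : PowerSeries ℝ) :=
  ⟨1, one_mem _, P, by simp⟩

theorem rat_zero : Rat p A 0 := by
  have := rat_poly (p := p) (A := A) 0
  simpa using this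

theorem rat_C (c : ℝ) : Rat p A (PowerSeries.C c) := by
  have := rat_poly (p := p) (A := A) (Polynomial.C c)
  simpa using this

theorem rat_X_pow (n : ℕ) : Rat p A (PowerSeries.X ^ n) := by
  have := rat_poly (p := p) (A := A) (Polynomial.X ^ n)
  simpa using this

theorem Rat.add {Z W : PowerSeries ℝ} (hZ : Rat p A Z) (hW : Rat p A W) : Rat p A (Z + W) := by
  obtain ⟨D, hD, P, hP⟩ := hZ
  obtain ⟨D', hD', P', hP'⟩ := hW
  refine ⟨D * D', mul_mem hD hD', D' * P + D * P', ?_⟩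
  push_cast
  rw [← hP, ← hP']
  ring

theorem Rat.mul {Z W : PowerSeries ℝ} (hZ : Rat p A Z) (hW : Rat p A W) : Rat p A (Z * W) := by
  obtain ⟨D, hD, P, hP⟩ := hZ
  obtain ⟨D', hD', P', hP'⟩ := hW
  refine ⟨D * D', mul_mem hD hD', P * P', ?_⟩
  push_cast
  rw [← hP, ← hP']
  ring

theorem Rat.sum {ι : Type*} (F : Finset ι) (Z : ι → PowerSeries ℝ) (h : ∀ i ∈ F, Rat p A (Z i)) :
    Rat p A (∑ i ∈ F, Z i) := by
  classical
  induction F using Finset.induction_on with
  | empty => simpa using rat_zero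
  | insert a s ha ih =>
    rw [Finset.sum_insert ha]
    exact (h a (Finset.mem_insert_self a s)).add (ih fun i hi => h i (Finset.mem_insert_of_mem hi))

/-- Solving the recursion. -/
theorem Rat.solve {Z Y : PowerSeries ℝ} (ν N : ℕ) (hN : 0 < N) (hA : A ν N) (hY : Rat p A Y)
    (h : Z = PowerSeries.C (((p : ℝ) ^ ν)⁻¹) * PowerSeries.X ^ N * Z + Y) : Rat p A Z := by
  obtain ⟨D, hD, P, hP⟩ := hY
  refine ⟨D * (1 - Polynomial.C (((p : ℝ) ^ ν)⁻¹) * Polynomial.X ^ N),
    mul_mem hD (Submonoid.subset_closure ⟨ν, N, hN, hA, rfl⟩), P, ?_⟩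
  rw [← hP]
  push_cast
  have h2 : (1 - PowerSeries.C (((p : ℝ) ^ ν)⁻¹) * PowerSeries.X ^ N) * Z = Y := by
    linear_combination h
  rw [← h2]
  ring

section Ser

variable {E : Type*} [NormedAddCommGroup E] [ProperSpace E] [MeasurableSpace E] [BorelSpace E]

/-- The level set. -/
def lv (p : ℕ) (w : E → ℝ) (V : Set E) (k : ℕ) : Set E := V ∩ {x | w x = ((p : ℝ) ^ k)⁻¹}

/-- The values of `w` on `V` are `0` or `p ^ (-k)`, `k ∈ ℕ`, and `w` is continuous. -/
def Adm (p : ℕ) (w : E → ℝ) (V : Set E) : Prop :=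
  Continuous w ∧ ∀ x ∈ V, w x = 0 ∨ ∃ k : ℕ, w x = ((p : ℝ) ^ k)⁻¹

/-- The generating series. -/
noncomputable def ser (p : ℕ) (w : E → ℝ) (V : Set E) : PowerSeries ℝ :=
  PowerSeries.mk fun k => vol (lv p w V k)

omit [ProperSpace E] [MeasurableSpace E] [BorelSpace E] in
theorem Adm.mono {w : E → ℝ} {V W : Set E} (h : Adm p w V) (hWV : W ⊆ V) : Adm p w W :=
  ⟨h.1, fun x hx => h.2 x (hWV hx)⟩

theorem inv_pow_inj {p : ℕ} (hp : 1 < p) {k l : ℕ} (h : ((p : ℝ) ^ k)⁻¹ = ((p : ℝ) ^ l)⁻¹) :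
    k = l := by
  have h1 := inv_injective h
  have hp' : (1 : ℝ) < p := by exact_mod_cast hp
  exact (pow_right_injective₀ (by linarith) hp'.ne') h1

omit [ProperSpace E] [MeasurableSpace E] [BorelSpace E] in
theorem KO.lv {w : E → ℝ} {V : Set E} (hp : 1 < p) (hV : KO V) (h : Adm p w V) (k : ℕ) :
    KO (lv p w V k) := by
  have hp' : (1 : ℝ) < p := by exact_mod_cast hp
  have hp0 : (0 : ℝ) < p := by linarith
  refine ⟨hV.1.inter_right (isClosed_eq h.1 continuous_const), ?_⟩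
  have h1 : DP.lv p w V k = V ∩ w ⁻¹' (Ioo (((p : ℝ) ^ (k + 1))⁻¹) (((p : ℝ) ^ k)⁻¹ * p)) := by
    ext x
    simp only [DP.lv, mem_inter_iff, mem_ofPred_eq, mem_preimage, mem_Ioo]
    refine and_congr_right fun hx => ⟨fun hw => ?_, fun hw => ?_⟩
    · rw [hw]
      constructor
      · rw [inv_lt_inv₀ (by positivity) (by positivity)]
        exact pow_lt_pow_right₀ hp' (Nat.lt_succ_self k)
      · exact lt_mul_of_one_lt_right (by positivity) hp'
    · rcases h.2 x hx with h0 | ⟨l, hl⟩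
      · rw [h0] at hw
        exact absurd hw.1 (not_lt.mpr (by positivity))
      · rw [hl] at hw ⊢
        have h2 : l < k + 1 := by
          have := hw.1
          rw [inv_lt_inv₀ (by positivity) (by positivity)] at this
          exact (pow_lt_pow_iff_right₀ hp').mp this
        have h3 : k < l + 1 := by
          have := hw.2
          rw [inv_mul_eq_div, lt_div_iff₀ (by positivity), inv_mul_lt_iff₀ (by positivity),
            ← pow_succ] at this
          exact (pow_lt_pow_iff_right₀ hp').mp this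
        have : l = k := by omega
        rw [this]
  rw [h1]
  exact hV.2.inter (isOpen_Ioo.preimage h.1)

theorem ser_biUnion {ι : Type*} (hp : 1 < p) (F : Finset ι) (V : ι → Set E) (w : E → ℝ)
    (hV : ∀ i ∈ F, KO (V i)) (hw : ∀ i ∈ F, Adm p w (V i))
    (hd : (F : Set ι).PairwiseDisjoint V) :
    ser p w (⋃ i ∈ F, V i) = ∑ i ∈ F, ser p w (V i) := by
  ext k
  rw [map_sum]
  simp only [ser, coeff_mk]
  have : lv p w (⋃ i ∈ F, V i) k = ⋃ i ∈ F, lv p w (V i) k := by
    ext x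
    simp only [lv, mem_inter_iff, mem_iUnion, mem_ofPred_eq]
    constructor
    · rintro ⟨⟨i, hi, hx⟩, h⟩
      exact ⟨i, hi, hx, h⟩
    · rintro ⟨i, hi, hx, h⟩
      exact ⟨⟨i, hi, hx⟩, h⟩
  rw [this, vol_biUnion F _ (fun i hi => (hV i hi).lv hp (hw i hi) k)]
  intro i hi j hj hij
  exact (hd hi hj hij).mono inter_subset_left inter_subset_left

theorem ser_union (hp : 1 < p) {V W : Set E} {w : E → ℝ} (hV : KO V) (hW : KO W)
    (h1 : Adm p w V) (h2 : Adm p w W) (hd : Disjoint V W) :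
    ser p w (V ∪ W) = ser p w V + ser p w W := by
  ext k
  rw [map_add]
  simp only [ser, coeff_mk]
  have : lv p w (V ∪ W) k = lv p w V k ∪ lv p w W k := by
    simp only [lv, union_inter_distrib_right]
  rw [this, vol_union (hV.lv hp h1 k) (hW.lv hp h2 k)
    (hd.mono inter_subset_left inter_subset_left)]

theorem ser_congr {V : Set E} {w w' : E → ℝ} (h : ∀ x ∈ V, w x = w' x) :
    ser p w V = ser p w' V := by
  ext k
  simp only [ser, coeff_mk]
  congr 1
  ext x
  simp only [lv, mem_inter_iff, mem_ofPred_eq]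
  exact and_congr_right fun hx => by rw [h x hx]

/-- A constant factor of the function is a power of `X`. -/
theorem ser_const_mul (hp : 1 < p) {V : Set E} {w w' : E → ℝ} (hw : Adm p w V) (hw' : Adm p w' V)
    {κ : ℝ} (hκ : 0 < κ) (hκ1 : κ ≤ 1) (h : ∀ x ∈ V, w x = κ * w' x) :
    ∃ j : ℕ, ser p w V = X ^ j * ser p w' V := by
  have hp' : (1 : ℝ) < p := by exact_mod_cast hp
  have hp0 : (0 : ℝ) < p := by linarith
  by_cases h0 : ∀ x ∈ V, w' x = 0
  · refine ⟨0, ?_⟩
    rw [pow_zero, one_mul]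
    exact ser_congr fun x hx => by rw [h x hx, h0 x hx, mul_zero]
  · push Not at h0
    obtain ⟨x, hx, hx0⟩ := h0
    obtain ⟨l, hl⟩ := (hw'.2 x hx).resolve_left hx0
    have hx1 : w x ≠ 0 := by
      rw [h x hx]
      exact mul_ne_zero hκ.ne' hx0
    obtain ⟨k, hk⟩ := (hw.2 x hx).resolve_left hx1
    have h1 := h x hx
    rw [hk, hl] at h1
    have hkl : l ≤ k := by
      by_contra hlt
      push Not at hlt
      have h2 : ((p : ℝ) ^ k)⁻¹ ≤ ((p : ℝ) ^ l)⁻¹ := by
        rw [h1]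
        exact mul_le_of_le_one_left (by positivity) hκ1
      rw [inv_le_inv₀ (by positivity) (by positivity)] at h2
      exact absurd h2 (not_le.mpr (pow_lt_pow_right₀ hp' hlt))
    have h2 : κ = ((p : ℝ) ^ (k - l))⁻¹ := by
      have h3 : (p : ℝ) ^ k = p ^ (k - l) * p ^ l := by rw [← pow_add]; congr 1; omega
      rw [h3, mul_inv] at h1
      exact (mul_right_cancel₀ (inv_ne_zero (pow_ne_zero l hp0.ne')) h1).symm
    refine ⟨k - l, ?_⟩
    ext m
    rw [coeff_X_pow_mul']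
    simp only [ser, coeff_mk]
    split_ifs with hm
    · congr 1
      ext y
      simp only [lv, mem_inter_iff, mem_ofPred_eq]
      refine and_congr_right fun hy => ?_
      rw [h y hy, h2]
      have h3 : (p : ℝ) ^ m = p ^ (k - l) * p ^ (m - (k - l)) := by rw [← pow_add]; congr 1; omega
      rw [h3, mul_inv]
      exact mul_right_inj' (inv_ne_zero (pow_ne_zero _ hp0.ne'))
    · rw [show lv p w V m = ∅ from ?_, vol_empty]
      ext y
      simp only [lv, mem_inter_iff, mem_ofPred_eq, mem_empty_iff_false, iff_false, not_and]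
      intro hy hy2
      rw [h y hy, h2] at hy2
      rcases hw'.2 y hy with h3 | ⟨i, hi⟩
      · rw [h3, mul_zero] at hy2
        exact (inv_ne_zero (pow_ne_zero m hp0.ne')) hy2.symm
      · rw [hi, ← mul_inv, ← pow_add] at hy2
        have := inv_pow_inj hp hy2
        omega

/-- Every point of `V` is the centre of a good ball in `V`. -/
theorem rat_of_balls [IsUltrametricDist E] (hp : 1 < p) {V : Set E} (hV : KO V) {w : E → ℝ}
    (hw : Adm p w V)
    (h : ∀ x ∈ V, ∃ r > 0, closedBall x r ⊆ V ∧ Rat p A (ser p w (closedBall x r))) :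
    Rat p A (ser p w V) := by
  classical
  choose! r hr h1 h2 using h
  obtain ⟨F, hF, hVF, hd⟩ := exists_balls hV.1 r (fun x hx => hr x hx) h1
  rw [hVF, ser_biUnion hp F _ w (fun x hx => ko_ball x (hr x (hF x hx)))
    (fun x hx => hw.mono (h1 x (hF x hx))) hd]
  exact Rat.sum F _ fun x hx => h2 x (hF x hx)

end Ser

section Transport

variable {E F : Type*} [NormedAddCommGroup E] [ProperSpace E] [MeasurableSpace E] [BorelSpace E]
  [NormedAddCommGroup F] [ProperSpace F] [MeasurableSpace F] [BorelSpace F]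

/-- The series under a map which multiplies volumes by a constant. -/
theorem ser_image (hp : 1 < p) {φ : E → F} {c : ℝ} {V : Set E} {w : F → ℝ} {w' : E → ℝ}
    (hV : KO V) (hw' : Adm p w' V)
    (hφ : ∀ W ⊆ V, KO W → vol (φ '' W) = c * vol W) (h : ∀ x ∈ V, w (φ x) = w' x) :
    ser p w (φ '' V) = PowerSeries.C c * ser p w' V := by
  ext k
  rw [coeff_C_mul]
  simp only [ser, coeff_mk]
  rw [← hφ (lv p w' V k) inter_subset_left (hV.lv hp hw' k)]
  congr 1
  ext y
  simp only [lv, mem_inter_iff, mem_image, mem_ofPred_eq]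
  constructor
  · rintro ⟨⟨x, hx, rfl⟩, hy⟩
    exact ⟨x, ⟨hx, by rw [← h x hx, hy]⟩, rfl⟩
  · rintro ⟨x, ⟨hx, hx2⟩, rfl⟩
    exact ⟨⟨x, hx, rfl⟩, by rw [h x hx, hx2]⟩

/-- The series of a product. -/
theorem exists_ser_prod (hp : 1 < p) : ∃ c : ℝ, ∀ (V : Set E) (W : Set F) (w1 : E → ℝ)
    (w2 : F → ℝ), KO V → KO W → Adm p w1 V → Adm p w2 W →
    ser p (fun x : E × F => w1 x.1 * w2 x.2) (V ×ˢ W) =
      PowerSeries.C c * (ser p w1 V * ser p w2 W) := by
  obtain ⟨c, hc⟩ := exists_vol_prod (E := E) (F := F)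
  refine ⟨c, fun V W w1 w2 hV hW h1 h2 => ?_⟩
  have hp0 : (0 : ℝ) < p := by exact_mod_cast (by omega : 0 < p)
  ext k
  rw [coeff_C_mul, coeff_mul]
  simp only [ser, coeff_mk]
  have h3 : lv p (fun x : E × F => w1 x.1 * w2 x.2) (V ×ˢ W) k =
      ⋃ ij ∈ Finset.HasAntidiagonal.antidiagonal k, (lv p w1 V ij.1) ×ˢ (lv p w2 W ij.2) := by
    ext x
    simp only [lv, mem_inter_iff, mem_prod, mem_ofPred_eq, mem_iUnion, Finset.HasAntidiagonal.mem_antidiagonal,
      exists_prop, Prod.exists]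
    constructor
    · rintro ⟨⟨hx1, hx2⟩, hx⟩
      have hne : w1 x.1 * w2 x.2 ≠ 0 := by
        rw [hx]
        positivity
      obtain ⟨i, hi⟩ := (h1.2 _ hx1).resolve_left (left_ne_zero_of_mul hne)
      obtain ⟨j, hj⟩ := (h2.2 _ hx2).resolve_left (right_ne_zero_of_mul hne)
      refine ⟨i, j, ?_, ⟨hx1, hi⟩, ⟨hx2, hj⟩⟩
      rw [hi, hj, ← mul_inv, ← pow_add] at hx
      exact inv_pow_inj hp hx
    · rintro ⟨i, j, hij, ⟨hx1, hi⟩, ⟨hx2, hj⟩⟩
      refine ⟨⟨hx1, hx2⟩, ?_⟩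
      rw [hi, hj, ← mul_inv, ← pow_add, hij]
  have hko : ∀ {V : Set E} {W : Set F}, KO V → KO W → KO (V ×ˢ W) := fun hV hW =>
    ⟨hV.1.prod hW.1, hV.2.prod hW.2⟩
  rw [h3]
  rw [show vol (⋃ ij ∈ Finset.HasAntidiagonal.antidiagonal k, (lv p w1 V ij.1) ×ˢ (lv p w2 W ij.2)) =
    ∑ ij ∈ Finset.HasAntidiagonal.antidiagonal k, vol ((lv p w1 V ij.1) ×ˢ (lv p w2 W ij.2)) from ?_]
  · rw [Finset.mul_sum]
    exact Finset.sum_congr rfl fun ij _ => hc _ _
  · refine vol_biUnion _ _ (fun ij _ => hko (hV.lv hp h1 _) (hW.lv hp h2 _)) ?_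
    intro ij hij ij' hij' hne
    rw [Function.onFun, Set.disjoint_left]
    rintro x ⟨⟨-, hx1⟩, ⟨-, hx2⟩⟩ ⟨⟨-, hx1'⟩, ⟨-, hx2'⟩⟩
    simp only [mem_ofPred_eq] at hx1 hx1' hx2 hx2'
    apply hne
    exact Prod.ext (inv_pow_inj hp (hx1.symm.trans hx1')) (inv_pow_inj hp (hx2.symm.trans hx2'))

end Transport

end Pool.Agent.H942.DP
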