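import Mathlib

set_option autoImplicit false

/-! Volumes of compact open sets in normed groups with an ultrametric norm. -/

namespace Pool.Agent.H942.DP

open MeasureTheory Metric Set

/-- Compact and open. -/
def KO {X : Type*} [TopologicalSpace X] (V : Set X) : Prop := IsCompact V ∧ IsOpen V

section Balls

variable {X : Type*} [MetricSpace X] [IsUltrametricDist X]

theorem ball_dichotomy {x y : X} {r s : ℝ} (h : r ≤ s)
    (hne : (closedBall x r ∩ closedBall y s).Nonempty) : closedBall x r ⊆ closedBall y s := by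
  obtain ⟨z, hz1, hz2⟩ := hne
  rw [IsUltrametricDist.closedBall_eq_of_mem hz1, IsUltrametricDist.closedBall_eq_of_mem hz2]
  exact closedBall_subset_closedBall h

theorem ko_ball [ProperSpace X] (x : X) {r : ℝ} (hr : 0 < r) : KO (closedBall x r) :=
  ⟨isCompact_closedBall x r, IsUltrametricDist.isOpen_closedBall x hr.ne'⟩

/-- A compact open set is a disjoint union of finitely many prescribed balls. -/
theorem exists_balls {V : Set X} (hV : IsCompact V) (r : X → ℝ) (hr : ∀ x ∈ V, 0 < r x)
    (hs : ∀ x ∈ V, closedBall x (r x) ⊆ V) :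
    ∃ F : Finset X, (∀ x ∈ F, x ∈ V) ∧ (V = ⋃ x ∈ F, closedBall x (r x)) ∧
      (F : Set X).PairwiseDisjoint fun x => closedBall x (r x) := by
  classical
  obtain ⟨F0, hF0, hF0'⟩ : ∃ F : Finset X, (∀ x ∈ F, x ∈ V) ∧ V ⊆ ⋃ x ∈ F, closedBall x (r x) := by
    obtain ⟨t, ht, htV⟩ := hV.elim_nhds_subcover (fun x => closedBall x (r x))
      (fun x hx => closedBall_mem_nhds x (hr x hx))
    exact ⟨t, ht, htV⟩
  have hP : ∃ m : ℕ, ∃ F : Finset X, F.card = m ∧ (∀ x ∈ F, x ∈ V) ∧
      V ⊆ ⋃ x ∈ F, closedBall x (r x) := ⟨_, F0, rfl, hF0, hF0'⟩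
  obtain ⟨F, hF, hFV, hFc⟩ := Nat.find_spec hP
  have hmin : ∀ G : Finset X, (∀ x ∈ G, x ∈ V) → V ⊆ (⋃ x ∈ G, closedBall x (r x)) →
      F.card ≤ G.card := by
    intro G hG hGc
    rw [hF]
    exact Nat.find_min' hP ⟨G, rfl, hG, hGc⟩
  refine ⟨F, hFV, subset_antisymm hFc ?_, ?_⟩
  · exact iUnion₂_subset fun x hx => hs x (hFV x hx)
  · intro x hx y hy hxy
    rw [Function.onFun]
    by_contra hnd
    rw [Set.not_disjoint_iff_nonempty_inter] at hnd
    have key : ∀ a b : X, a ∈ F → b ∈ F → a ≠ b →
        closedBall a (r a) ⊆ closedBall b (r b) → False := by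
      intro a b ha hb hab hsub
      have h1 := hmin (F.erase a) (fun z hz => hFV z (Finset.mem_of_mem_erase hz)) (by
        intro z hz
        obtain ⟨w, hw, hzw⟩ := mem_iUnion₂.mp (hFc hz)
        by_cases hwa : w = a
        · subst hwa
          exact mem_iUnion₂.mpr ⟨b, Finset.mem_erase.mpr ⟨hab.symm, hb⟩, hsub hzw⟩
        · exact mem_iUnion₂.mpr ⟨w, Finset.mem_erase.mpr ⟨hwa, hw⟩, hzw⟩)
      rw [Finset.card_erase_of_mem ha] at h1
      have := Finset.card_pos.mpr ⟨a, ha⟩
      omega
    rcases le_total (r x) (r y) with h | h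
    · exact key x y hx hy hxy (ball_dichotomy h hnd)
    · exact key y x hy hx hxy.symm (ball_dichotomy h (by rwa [inter_comm]))

omit [IsUltrametricDist X] in
theorem KO.exists_ball {V : Set X} (hV : KO V) {x : X} (hx : x ∈ V) :
    ∃ r > 0, closedBall x r ⊆ V := by
  obtain ⟨r, hr, h⟩ := Metric.isOpen_iff.mp hV.2 x hx
  exact ⟨r / 2, by positivity, (closedBall_subset_ball (by linarith)).trans h⟩

end Balls

theorem KO.inter {X : Type*} [TopologicalSpace X] [T2Space X] {V W : Set X} (hV : KO V)
    (hW : KO W) : KO (V ∩ W) := ⟨hV.1.inter hW.1, hV.2.inter hW.2⟩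

theorem KO.union {X : Type*} [TopologicalSpace X] {V W : Set X} (hV : KO V)
    (hW : KO W) : KO (V ∪ W) := ⟨hV.1.union hW.1, hV.2.union hW.2⟩

theorem KO.diff {X : Type*} [TopologicalSpace X] [T2Space X] {V W : Set X} (hV : KO V)
    (hW : KO W) : KO (V \ W) := ⟨hV.1.diff hW.2, hV.2.sdiff hW.1.isClosed⟩

theorem KO.empty {X : Type*} [TopologicalSpace X] : KO (∅ : Set X) := ⟨isCompact_empty, isOpen_empty⟩

theorem KO.biUnion {X ι : Type*} [TopologicalSpace X] {F : Finset ι} {V : ι → Set X}
    (h : ∀ i ∈ F, KO (V i)) : KO (⋃ i ∈ F, V i) :=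
  ⟨F.isCompact_biUnion fun i hi => (h i hi).1, isOpen_biUnion fun i hi => (h i hi).2⟩

section Vol

variable {E : Type*} [NormedAddCommGroup E] [ProperSpace E] [MeasurableSpace E] [BorelSpace E]

/-- The Haar measure, with real values. -/
noncomputable def vol (V : Set E) : ℝ := (Measure.addHaar (G := E) V).toReal

theorem vol_ne_top {V : Set E} (hV : IsCompact V) : (Measure.addHaar (G := E) V) ≠ ⊤ :=
  hV.measure_lt_top.ne

theorem vol_union {V W : Set E} (hV : KO V) (hW : KO W) (h : Disjoint V W) :
    vol (V ∪ W) = vol V + vol W := by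
  rw [vol, measure_union h hW.2.measurableSet, ENNReal.toReal_add (vol_ne_top hV.1)
    (vol_ne_top hW.1)]
  rfl

theorem vol_empty : vol (∅ : Set E) = 0 := by simp [vol]

theorem vol_nonneg (V : Set E) : 0 ≤ vol V := ENNReal.toReal_nonneg

theorem vol_mono {V W : Set E} (h : V ⊆ W) (hW : IsCompact W) : vol V ≤ vol W :=
  ENNReal.toReal_mono (vol_ne_top hW) (measure_mono h)

theorem vol_pos {V : Set E} (hV : KO V) (hne : V.Nonempty) : 0 < vol V :=
  ENNReal.toReal_pos (hV.2.measure_pos _ hne).ne' (vol_ne_top hV.1)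

theorem vol_biUnion {ι : Type*} (F : Finset ι) (V : ι → Set E) (hV : ∀ i ∈ F, KO (V i))
    (hd : (F : Set ι).PairwiseDisjoint V) : vol (⋃ i ∈ F, V i) = ∑ i ∈ F, vol (V i) := by
  rw [vol, measure_biUnion_finset hd fun i hi => (hV i hi).2.measurableSet,
    ENNReal.toReal_sum fun i hi => vol_ne_top (hV i hi).1]
  rfl

theorem vol_translate (x : E) (V : Set E) : vol ((fun y => x + y) '' V) = vol V := by
  have h : (fun y => x + y) '' V = (fun y => -x + y) ⁻¹' V := by
    ext y
    constructor
    · rintro ⟨z, hz, rfl⟩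
      simpa using hz
    · intro hy
      exact ⟨-x + y, hy, by simp⟩
  rw [h, vol, measure_preimage_add]
  rfl

omit [ProperSpace E] [MeasurableSpace E] [BorelSpace E] in
theorem translate_ball (x y : E) (r : ℝ) :
    (fun z => x + z) '' closedBall y r = closedBall (x + y) r := by
  ext z
  constructor
  · rintro ⟨w, hw, rfl⟩
    simpa [mem_closedBall, dist_eq_norm] using hw
  · intro hz
    refine ⟨-x + z, ?_, by simp⟩
    rw [mem_closedBall, dist_eq_norm] at hz ⊢
    convert hz using 2
    abel

theorem vol_ball (x y : E) (r : ℝ) : vol (closedBall x r) = vol (closedBall y r) := by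
  have h := vol_translate (x - y) (closedBall y r)
  rw [translate_ball, sub_add_cancel] at h
  exact h

end Vol

section Lin

variable {E F : Type*} [NormedAddCommGroup E] [ProperSpace E] [MeasurableSpace E] [BorelSpace E]
  [NormedAddCommGroup F] [ProperSpace F] [MeasurableSpace F] [BorelSpace F]

/-- An isomorphism of topological groups multiplies the volumes by a constant. -/
theorem exists_vol_image (A : E ≃+ F) (h1 : Continuous A) (h2 : Continuous A.symm) :
    ∃ c : ℝ, 0 < c ∧ ∀ V : Set E, vol (A '' V) = c * vol V := by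
  let H : E ≃ₜ F := { A.toEquiv with continuous_toFun := h1, continuous_invFun := h2 }
  have hH : (Measure.map (A.toAddMonoidHom : E → F) (Measure.addHaar (G := E))).IsAddHaarMeasure :=
    Measure.isAddHaarMeasure_map _ A.toAddMonoidHom h1 A.surjective
      (H.isClosedEmbedding.tendsto_cocompact)
  have h3 := Measure.isAddLeftInvariant_eq_smul (Measure.addHaar (G := F))
    (Measure.map (A.toAddMonoidHom : E → F) (Measure.addHaar (G := E)))
  set c := (Measure.addHaar (G := F)).addHaarScalarFactor
    (Measure.map (A.toAddMonoidHom : E → F) (Measure.addHaar (G := E))) with hc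
  have h4 : ∀ V : Set E, vol (A '' V) = (c : ℝ) * vol V := by
    intro V
    rw [vol, h3]
    have h5 : (Measure.map (A.toAddMonoidHom : E → F) (Measure.addHaar (G := E))) (A '' V) =
        Measure.addHaar (G := E) V := by
      have h6 := H.toMeasurableEquiv.map_apply (μ := Measure.addHaar (G := E)) (A '' V)
      have h7 : (H.toMeasurableEquiv ⁻¹' (A '' V)) = V := by
        ext x
        constructor
        · rintro ⟨y, hy, hxy⟩
          have : y = x := A.injective hxy
          rwa [← this]
        · intro hx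
          exact ⟨x, hx, rfl⟩
      rw [h7] at h6
      exact h6
    rw [Measure.smul_apply, h5, ENNReal.toReal_smul]
    rfl
  refine ⟨c, ?_, h4⟩
  by_contra h0
  have h5 : (c : ℝ) = 0 := le_antisymm (not_lt.mp h0) c.2
  have h6 : 0 < vol (closedBall (0 : F) 1) :=
    ENNReal.toReal_pos ((measure_closedBall_pos _ _ one_pos).ne')
      (vol_ne_top (isCompact_closedBall _ _))
  have h7 := h4 (A ⁻¹' closedBall (0 : F) 1)
  rw [Set.image_preimage_eq _ A.surjective, h5, zero_mul] at h7
  exact h6.ne' h7

end Lin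

section Prod

variable {E F : Type*} [NormedAddCommGroup E] [ProperSpace E] [MeasurableSpace E] [BorelSpace E]
  [NormedAddCommGroup F] [ProperSpace F] [MeasurableSpace F] [BorelSpace F]

theorem exists_vol_prod :
    ∃ c : ℝ, ∀ (V : Set E) (W : Set F), vol (V ×ˢ W) = c * (vol V * vol W) := by
  have h3 := Measure.isAddLeftInvariant_eq_smul (Measure.addHaar (G := E × F))
    ((Measure.addHaar (G := E)).prod (Measure.addHaar (G := F)))
  refine ⟨((Measure.addHaar (G := E × F)).addHaarScalarFactor
    ((Measure.addHaar (G := E)).prod (Measure.addHaar (G := F))) : NNReal), fun V W => ?_⟩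
  have h4 := congrArg (fun μ : Measure (E × F) => μ (V ×ˢ W)) h3
  simp only [Measure.smul_apply, Measure.prod_prod] at h4
  rw [vol, h4, ENNReal.toReal_smul, ENNReal.toReal_mul]
  rfl

end Prod

end Pool.Agent.H942.DP
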